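import Mathlib

set_option autoImplicit false

namespace Pool.Agent.Lib.helper4.Energy

open Matrix Finset

variable {V : Type} [Fintype V] [DecidableEq V]

theorem abs_le_one {Q : Matrix V V ℝ} (h : Qᵀ * Q = 1) (i j : V) : |Q i j| ≤ 1 := by
  have h1 := congrFun (congrFun h j) j
  simp only [mul_apply, transpose_apply, one_apply_eq] at h1
  have h2 := single_le_sum (f := fun k => Q k j * Q k j) (fun k _ => mul_self_nonneg _) (mem_univ i)
  rw [h1] at h2
  exact abs_le_one_iff_mul_self_le_one.mpr h2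

theorem spec {A : Matrix V V ℝ} (hA : A.IsHermitian) : ∃ U : Matrix V V ℝ,
    Uᵀ * U = 1 ∧ U * Uᵀ = 1 ∧ A = U * diagonal hA.eigenvalues * Uᵀ := by
  refine ⟨hA.eigenvectorUnitary, ?_, ?_, ?_⟩
  · simpa [star_eq_conjTranspose] using hA.eigenvectorUnitary.2.1
  · simpa [star_eq_conjTranspose] using hA.eigenvectorUnitary.2.2
  · simpa [Unitary.conjStarAlgAut_apply, star_eq_conjTranspose] using hA.spectral_theorem

/-- the trace against an orthogonal matrix is at most the energy. -/
theorem trace_le {A : Matrix V V ℝ} (hA : A.IsHermitian) {Q : Matrix V V ℝ} (h : Qᵀ * Q = 1) :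
    (Q * A).trace ≤ ∑ i, |hA.eigenvalues i| := by
  obtain ⟨U, h1, h2, h3⟩ := spec hA
  have h4 : (Uᵀ * Q * U)ᵀ * (Uᵀ * Q * U) = 1 := by
    simp only [transpose_mul, transpose_transpose]
    calc _ = Uᵀ * (Qᵀ * (U * Uᵀ) * Q) * U := by simp only [Matrix.mul_assoc]
      _ = 1 := by rw [h2, Matrix.mul_one, h, Matrix.mul_one, h1]
  have h5 : (Q * A).trace = (Uᵀ * Q * U * diagonal hA.eigenvalues).trace := by
    conv_lhs => rw [h3, ← Matrix.mul_assoc, trace_mul_comm]
    simp only [Matrix.mul_assoc]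
  rw [h5, trace]
  refine sum_le_sum fun i _ => ?_
  rw [diag_apply, mul_diagonal]
  refine (le_abs_self _).trans ?_
  rw [abs_mul]
  exact mul_le_of_le_one_left (abs_nonneg _) (abs_le_one h4 i i)

/-- the energy is the trace against some orthogonal matrix. -/
theorem exists_trace_eq {A : Matrix V V ℝ} (hA : A.IsHermitian) : ∃ Q : Matrix V V ℝ,
    Qᵀ * Q = 1 ∧ Q * Qᵀ = 1 ∧ (Q * A).trace = ∑ i, |hA.eigenvalues i| := by
  obtain ⟨U, h1, h2, h3⟩ := spec hA
  let s : V → ℝ := fun i => if 0 ≤ hA.eigenvalues i then 1 else -1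
  have hs : diagonal s * diagonal s = 1 := by
    rw [diagonal_mul_diagonal, ← diagonal_one]
    congr 1; ext i; simp only [s]; split_ifs <;> simp
  have h4 : (U * diagonal s * Uᵀ)ᵀ * (U * diagonal s * Uᵀ) = 1 := by
    simp only [transpose_mul, transpose_transpose, diagonal_transpose]
    calc _ = U * (diagonal s * (Uᵀ * U) * diagonal s) * Uᵀ := by simp only [Matrix.mul_assoc]
      _ = 1 := by rw [h1, Matrix.mul_one, hs, Matrix.mul_one, h2]
  refine ⟨U * diagonal s * Uᵀ, h4, mul_eq_one_comm.mp h4, ?_⟩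
  conv_lhs => rw [h3]
  calc _ = (U * (diagonal s * (Uᵀ * U) * diagonal hA.eigenvalues * Uᵀ)).trace := by
        simp only [Matrix.mul_assoc]
    _ = _ := by
      rw [h1, Matrix.mul_one, trace_mul_comm, Matrix.mul_assoc, h1, Matrix.mul_one,
        diagonal_mul_diagonal, trace_diagonal]
      refine sum_congr rfl fun i _ => ?_
      simp only [s]
      split_ifs with h
      · rw [abs_of_nonneg h, one_mul]
      · rw [abs_of_neg (not_le.mp h), neg_one_mul]

end Pool.Agent.Lib.helper4.Energy
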