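import Pool.Agent.Lib.helper4.GFO
import Pool.Agent.Lib.helper21.Queue

/-! Uniformly definable families of predicates on groups; counter machine runs. -/

set_option autoImplicit false

namespace Pool.Agent.Lib.helper4.GFO

open Function Pool.Agent.Lib.helper21.Mach Pool.Agent.Lib.helper21.While

variable {n k : ℕ}

def Tm.ren (ρ : Fin k → Fin n) : Tm k → Tm n
  | .var i => .var (ρ i)
  | .one => .one
  | .mul s t => .mul (s.ren ρ) (t.ren ρ)
  | .inv s => .inv (s.ren ρ)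

theorem Tm.val_ren {G : Type} [Group G] (ρ : Fin k → Fin n) (v : Fin n → G) (t : Tm k) :
    (t.ren ρ).val v = t.val (v ∘ ρ) := by
  induction t <;> simp_all [Tm.ren, Tm.val]

def Fm.wk : ∀ {k n}, k ≤ n → Fm k → Fm n
  | _, _, h, .eq s t => .eq (s.ren (Fin.castLE h)) (t.ren (Fin.castLE h))
  | _, _, h, .not φ => .not (φ.wk h)
  | _, _, h, .and φ ψ => .and (φ.wk h) (ψ.wk h)
  | _, _, h, .ex φ => .ex (φ.wk (Nat.succ_le_succ h))

theorem Fm.code_wk (h : k ≤ n) (φ : Fm k) : (φ.wk h).code = φ.code := by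
  have : ∀ {k n} (h : k ≤ n) (t : Tm k), (t.ren (Fin.castLE h)).code = t.code := fun h t => by
    induction t <;> simp_all [Tm.ren, Tm.code]
  induction φ generalizing n <;> simp_all [Fm.wk, Fm.code]

theorem Fm.sat_wk {G : Type} [Group G] (h : k ≤ n) (φ : Fm k) (v : Fin n → G) :
    (φ.wk h).Sat G v ↔ φ.Sat G (v ∘ Fin.castLE h) := by
  induction φ generalizing n with
  | ex φ ih =>
    simp only [Fm.wk, Fm.Sat, ih]
    refine exists_congr fun x => iff_of_eq (congrArg _ (funext fun i => ?_))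
    induction i using Fin.cases <;> rfl
  | _ => simp_all [Fm.wk, Fm.Sat, Tm.val_ren]

def sh : ∀ k, Tm n → Tm (n + k)
  | 0, t => t
  | k + 1, t => (sh k t).ren Fin.succ

def lets : ∀ k, (Fin k → Tm n) → Fm (n + k) → Fm n
  | 0, _, φ => φ
  | k + 1, ρ, φ => lets k (Fin.tail ρ) (.ex (.and (.eq (.var 0) (sh (k + 1) (ρ 0))) φ))

def xt {G : Type} : ∀ k, (Fin k → G) → (Fin n → G) → Fin (n + k) → G
  | 0, _, v => v
  | k + 1, a, v => Fin.cons (a 0) (xt k (Fin.tail a) v)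

theorem val_sh {G : Type} [Group G] (a : Fin k → G) (v : Fin n → G) (t : Tm n) : (sh k t).val (xt k a v) = t.val v := by
  induction k with
  | zero => rfl
  | succ k ih => rw [sh, Tm.val_ren]; exact ih _

theorem sat_lets {G : Type} [Group G] (ρ : Fin k → Tm n) (φ : Fm (n + k)) (v : Fin n → G) :
    (lets k ρ φ).Sat G v ↔ φ.Sat G (xt k (fun i => (ρ i).val v) v) := by
  induction k with
  | zero => rfl
  | succ k ih =>
    rw [lets, ih]
    simp only [Fm.Sat, sh, Tm.val_ren, Tm.val, Fin.cons_zero]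
    exact ⟨fun ⟨x, e, h⟩ => by cases e.trans (val_sh ..); exact h, fun h => ⟨_, (val_sh ..).symm, h⟩⟩

theorem xt_le {G : Type} (a : Fin k → G) (v : Fin n → G) : xt k a v ∘ Fin.castLE (Nat.le_add_left k n) = a := by
  induction k with
  | zero => exact Subsingleton.elim ..
  | succ k ih =>
    funext i
    induction i using Fin.cases with
    | zero => rfl
    | succ i => exact congrFun (ih (Fin.tail a)) i

def inst (ρ : Fin k → Tm n) (φ : Fm k) : Fm n := lets k ρ (φ.wk (Nat.le_add_left k n))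

theorem sat_inst {G : Type} [Group G] (ρ : Fin k → Tm n) (φ : Fm k) (v : Fin n → G) :
    (inst ρ φ).Sat G v ↔ φ.Sat G fun i => (ρ i).val v := by
  rw [inst, sat_lets, Fm.sat_wk, xt_le]

open Primrec in
theorem pp (a : ℕ) {f : ℕ → ℕ} (h : Primrec f) : Primrec fun x => Nat.pair a (f x) :=
  Primrec₂.natPair.comp (const a) h

theorem code_inst (ρ : Fin k → Tm n) : ∃ W : ℕ → ℕ, Primrec W ∧ ∀ φ, (inst ρ φ).code = W φ.code := by
  have : ∀ k (ρ : Fin k → Tm n), ∃ W : ℕ → ℕ, Primrec W ∧ ∀ φ, (lets k ρ φ).code = W φ.code := fun k => by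
    induction k with
    | zero => exact fun _ => ⟨id, .id, fun _ => rfl⟩
    | succ k ih =>
      intro ρ
      obtain ⟨W, h1, h2⟩ := ih (Fin.tail ρ)
      exact ⟨_, h1.comp (pp 3 (pp 2 (pp _ .id))), fun φ => h2 _⟩
  obtain ⟨W, h1, h2⟩ := this k ρ
  exact ⟨W, h1, fun φ => by rw [inst, h2, Fm.code_wk]⟩

def Dt (s : ∀ (G : Type) [Group G], (Fin n → G) → G) : Prop := ∃ t : Tm n, ∀ (G : Type) [Group G] v, t.val v = s G v

def D (P : ℕ → ∀ (G : Type) [Group G], (Fin n → G) → Prop) : Prop :=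
  ∃ φ : ℕ → Fm n, Primrec (fun m => (φ m).code) ∧ ∀ m (G : Type) [Group G] v, (φ m).Sat G v ↔ P m G v

section
variable {s t : ∀ (G : Type) [Group G], (Fin n → G) → G} {P Q : ℕ → ∀ (G : Type) [Group G], (Fin n → G) → Prop}

theorem Dt.var (i : Fin n) : Dt fun _ _ v => v i := ⟨.var i, fun _ _ _ => rfl⟩
theorem Dt.one : Dt (n := n) fun _ _ _ => 1 := ⟨.one, fun _ _ _ => rfl⟩
theorem Dt.mul : Dt s → Dt t → Dt fun G _ v => s G v * t G v :=
  fun ⟨a, h⟩ ⟨b, h'⟩ => ⟨.mul a b, fun G _ v => by rw [Tm.val, h, h']⟩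
theorem Dt.inv : Dt s → Dt fun G _ v => (s G v)⁻¹ := fun ⟨a, h⟩ => ⟨.inv a, fun G _ v => by rw [Tm.val, h]⟩
theorem Dt.pow (m : ℕ) (h : Dt s) : Dt fun G _ v => s G v ^ m := by
  induction m with
  | zero => simpa using Dt.one
  | succ m ih => simpa [pow_succ] using ih.mul h

theorem D.eq : Dt s → Dt t → D fun _ G _ v => s G v = t G v :=
  fun ⟨a, h⟩ ⟨b, h'⟩ => ⟨fun _ => .eq a b, .const _, fun _ G _ v => by rw [Fm.Sat, h, h']⟩
theorem D.not : D P → D fun m G _ v => ¬P m G v :=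
  fun ⟨φ, c, h⟩ => ⟨fun m => .not (φ m), pp 1 c, fun m G _ v => by rw [Fm.Sat, h]⟩
theorem D.and : D P → D Q → D fun m G _ v => P m G v ∧ Q m G v :=
  fun ⟨φ, c, h⟩ ⟨ψ, c', h'⟩ => ⟨fun m => .and (φ m) (ψ m), pp 2 (Primrec₂.natPair.comp c c'), fun m G _ v => by
    rw [Fm.Sat, h, h']⟩
theorem D.congr : D P → (∀ m (G : Type) [Group G] v, P m G v ↔ Q m G v) → D Q :=
  fun ⟨φ, c, h⟩ e => ⟨φ, c, fun m G _ v => (h m G v).trans (e ..)⟩
theorem D.imp (h : D P) (h' : D Q) : D fun m G _ v => P m G v → Q m G v :=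
  (h.and h'.not).not.congr (by simp)
theorem D.or (h : D P) (h' : D Q) : D fun m G _ v => P m G v ∨ Q m G v :=
  (h.not.and h'.not).not.congr (by simp [or_iff_not_imp_left])
theorem D.true : D (n := n) fun _ _ _ _ => True := (D.eq .one .one).congr (by simp)

variable {B : ℕ → ∀ (G : Type) [Group G], G → (Fin n → G) → Prop}

theorem D.ex : D (fun m G _ (v : Fin (n + 1) → G) => B m G (v 0) (Fin.tail v)) → D fun m G _ v => ∃ x, B m G x v :=
  fun ⟨φ, c, h⟩ => ⟨fun m => .ex (φ m), pp 3 c, fun m G _ v => by simp [Fm.Sat, h]⟩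
theorem D.all (h : D fun m G _ (v : Fin (n + 1) → G) => B m G (v 0) (Fin.tail v)) : D fun m G _ v => ∀ x, B m G x v :=
  (D.ex (B := fun m G _ x v => ¬B m G x v) h.not).not.congr (by simp)

theorem D.conj {α : Type} [Finite α] {P : α → ℕ → ∀ (G : Type) [Group G], (Fin n → G) → Prop} (h : ∀ a, D (P a)) :
    D fun m G _ v => ∀ a, P a m G v := by
  cases nonempty_fintype α
  have : ∀ l : List α, D fun m G _ v => ∀ a ∈ l, P a m G v := fun l => by
    induction l with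
    | nil => exact D.true.congr (by simp)
    | cons a l ih => exact ((h a).and ih).congr (by simp)
  exact (this Finset.univ.toList).congr (by simp)

theorem D.cimp {p : Prop} (h : D P) : D fun m G _ v => p → P m G v := D.conj (α := PLift p) (fun _ => h) |>.congr
  (by simp [PLift.forall])

theorem D.sb {P : ℕ → ∀ (G : Type) [Group G], (Fin k → G) → Prop} (h : D P)
    {s : Fin k → ∀ (G : Type) [Group G], (Fin n → G) → G} (hs : ∀ i, Dt (s i)) :
    D fun m G _ v => P m G fun i => s i G v := by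
  obtain ⟨φ, c, h⟩ := h
  choose ρ hρ using hs
  obtain ⟨W, h1, h2⟩ := code_inst ρ
  exact ⟨fun m => inst ρ (φ m), (h1.comp c).of_eq fun m => (h2 _).symm, fun m G _ v => by simp [sat_inst, h, hρ]⟩

theorem D.exN {P : ℕ → ∀ (G : Type) [Group G], (Fin n → G) → Prop} (h : D P) :
    D (n := 0) fun m G _ _ => ∃ v, P m G v := by
  induction n with
  | zero => exact h.congr fun m G _ v => ⟨fun h => ⟨v, h⟩, fun ⟨w, h⟩ => Subsingleton.elim w v ▸ h⟩
  | succ n ih =>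
    exact (ih (P := fun m G _ v => ∃ x, P m G (Fin.cons x v)) (D.ex (by simpa using h))).congr fun m G _ _ =>
      ⟨fun ⟨_, _, h⟩ => ⟨_, h⟩, fun ⟨v, h⟩ => ⟨Fin.tail v, v 0, by simpa⟩⟩

end

def It {G : Type} (Z : G → Prop) (S : G → G → Prop) : ℕ → G → Prop
  | 0, x => Z x
  | m + 1, x => ∃ y, S y x ∧ It Z S m y

theorem D.it {Z : ∀ (G : Type) [Group G], (Fin n → G) → G → Prop} {S : ∀ (G : Type) [Group G], (Fin n → G) → G → G → Prop}
    (hZ : D fun _ G _ (v : Fin (n + 1) → G) => Z G (Fin.tail v) (v 0))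
    (hS : D fun _ G _ (v : Fin (n + 2) → G) => S G (Fin.tail (Fin.tail v)) (v 0) (Fin.tail v 0)) :
    D fun m G _ (v : Fin (n + 1) → G) => It (Z G (Fin.tail v)) (S G (Fin.tail v)) m (v 0) := by
  obtain ⟨ζ, -, hZ⟩ := hZ
  obtain ⟨σ, -, hS⟩ := hS
  let ρ : Fin (n + 1) → Tm (n + 2) := Fin.cons (.var 0) fun i => .var i.succ.succ
  obtain ⟨W, h1, h2⟩ := code_inst ρ
  let φ : ℕ → Fm (n + 1) := fun m => m.rec (ζ 0) fun _ ψ => .ex (.and (σ 0) (inst ρ ψ))
  refine ⟨φ, (Primrec.nat_iterate .id (.const (ζ 0).code) ((pp 3 (pp 2 (pp (σ 0).code h1))).comp .snd).to₂).of_eq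
    fun m => ?_, fun m G _ => ?_⟩
  · induction m with
    | zero => rfl
    | succ m ih => exact (iterate_succ_apply' ..).trans (by rw [show _^[m] _ = _ from ih, ← h2]; rfl)
  · induction m with
    | zero => exact hZ 0 G
    | succ m ih =>
      intro v
      simp only [φ, Fm.Sat, hS, sat_inst, It]
      exact exists_congr fun x => and_congr .rfl (ih _)

theorem undec {P : ℕ → ∀ (G : Type) [Group G], Prop} (h : D (n := 0) fun m G _ _ => P m G) (T : Fm 0 → Prop)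
    {H : ℕ → Prop} (hH : ¬ComputablePred H) (e : ∀ m φ, (∀ (G : Type) [Group G], φ.Sat G Fin.elim0 ↔ P m G) → (T φ ↔ H m)) :
    ¬∃ f : ℕ →. Bool, Partrec f ∧ ∀ φ : Fm 0, ∃ b ∈ f φ.code, (b = true ↔ T φ) := by
  obtain ⟨φ, c, h⟩ := h
  refine fun ⟨f, h1, h2⟩ => hH ?_
  choose b h2 h3 using h2
  exact (ComputablePred.computable_iff.2 ⟨_, (h1.comp c.to_comp).of_eq_tot fun k => h2 _, rfl⟩).of_eq
    fun k => (h3 _).trans (e _ _ fun G _ => h k G _)

section
variable {Q G : Type} {K : ℕ} (M : CM Q) (r : Q → Fin (K + 1)) (Z : G → Prop) (S : G → G → Prop)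

def Tst : Bool → G → Prop
  | true, x => Z x
  | false, x => ∃ y, S y x

def Ef (A B : G → Prop) : Option Bool → Prop
  | none => ∀ x, A x → B x
  | some true => ∀ x, A x → ∃ y, B y ∧ S x y
  | some false => ∀ x y, A x → S y x → B y

def ef (q : Q) (b : Bool) (i : Fin (K + 1)) : Option Bool := if i = r q then M.eff q b else none

variable (T : G → G → Prop) (R : Fin (K + 1) → G → G → Prop) (P : Q → G → Prop)

def Step : Prop := ∀ q b q', M.nxt q b = some q' → ∀ t, P q t → ∀ x, R (r q) t x → Tst Z S b x →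
  ∃ u, T t u ∧ P q' u ∧ ∀ i, Ef S (R i t) (R i u) (ef M r q b i)

def Init (q0 : Q) (m : ℕ) : Prop :=
  ∃ t, P q0 t ∧ (∀ i : Fin K, ∃ x, R i.succ t x ∧ Z x) ∧ ∃ x, R 0 t x ∧ It Z S m x

variable {M r Z S T R P}

theorem tst_of {q : Q} {σ : St} (hr : ∀ q, (r q : ℕ) = M.reg q) {x} (h : It Z S (σ (r q)) x) :
    Tst Z S (M.tst 0 (q, σ)) x := by
  rcases e : σ (r q) with _ | k <;> rw [e] at h
  · rw [show M.tst 0 (q, σ) = true by simp [CM.tst, CM.thr, ← hr, e]]; exact h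
  · rw [show M.tst 0 (q, σ) = false by simp [CM.tst, CM.thr, ← hr, e]]; exact h.imp fun _ h => h.1

theorem run (hr : ∀ q, (r q : ℕ) = M.reg q) {q0 m} (h2 : Step M r Z S T R P) (h : Init Z S R P q0 m) (j : ℕ) :
    ∀ c, (fun o => o.bind (M.step 0))^[j] (some (q0, init m)) = some c →
      ∃ t, It (fun _ => True) T j t ∧ P c.1 t ∧ ∀ i : Fin (K + 1), ∃ x, R i t x ∧ It Z S (c.2 i) x := by
  induction j with
  | zero =>
    rintro _ ⟨⟩
    obtain ⟨t, a3, a4, a5⟩ := h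
    exact ⟨t, trivial, a3, Fin.cases a5 fun i => by simpa [init, It] using a4 i⟩
  | succ j ih =>
    intro c e
    rw [iterate_succ_apply'] at e
    obtain ⟨⟨q, σ⟩, e1, e2⟩ := Option.bind_eq_some_iff.1 e
    obtain ⟨q', e', rfl⟩ := Option.map_eq_some_iff.1 e2
    obtain ⟨t, b2, b4, b5⟩ := ih _ e1
    obtain ⟨v, c2, c3⟩ := b5 (r q)
    obtain ⟨u, d2, d3, d4⟩ := h2 q _ q' e' t b4 v c2 (tst_of hr c3)
    refine ⟨u, ⟨t, d2, b2⟩, d3, fun i => ?_⟩
    obtain ⟨v, e2, e3⟩ := b5 i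
    have f := d4 i
    have nz : M.eff q (M.tst 0 (q, σ)) = some false → σ (r q) ≠ 0 := fun h e =>
      M.nodec q ((show M.tst 0 (q, σ) = true by simp [CM.tst, CM.thr, ← hr, e]) ▸ h)
    by_cases g : i = r q <;> rcases g' : M.eff q (M.tst 0 (q, σ)) with _ | _ | _ <;>
      simp only [ef, g, g', Ef, app, ← hr, if_true, if_false, update_apply, Fin.val_inj] at f e2 e3 ⊢ <;>
      first | exact ⟨v, f v e2, e3⟩ | skip
    · obtain ⟨m, e⟩ : ∃ m, σ (r q) = m + 1 := Nat.exists_eq_succ_of_ne_zero (nz g')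
      rw [e] at e3 ⊢
      obtain ⟨y, g2, g3⟩ := e3
      exact ⟨y, f v y e2 g2, g3⟩
    · obtain ⟨y, g2, g3⟩ := f v e2
      exact ⟨y, g2, v, g3, e3⟩

variable {N : G → ℕ → Prop} (uq : ∀ x a b, N x a → N x b → a = b) (ex : ∀ a, ∃ x, N x a) (hZ : ∀ x, Z x ↔ N x 0)
  (hS : ∀ x y, S x y ↔ ∃ a, N x a ∧ N y (a + 1))
include uq ex hZ hS

theorem it_iff (k : ℕ) : ∀ x, It Z S k x ↔ N x k := by
  induction k with
  | zero => exact hZ
  | succ k ih =>
    simp only [It, ih, hS]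
    exact fun x => ⟨fun ⟨y, ⟨l, a, b⟩, d⟩ => uq _ _ _ a d ▸ b, fun a => let ⟨y, b⟩ := ex k; ⟨y, ⟨_, b, a⟩, b⟩⟩

theorem tst_iff (hr : ∀ q, (r q : ℕ) = M.reg q) {q : Q} {σ : St} {b x} (h : N x (σ (r q))) (h' : Tst Z S b x) :
    M.tst 0 (q, σ) = b := by
  cases b
  · obtain ⟨y, a⟩ := h'
    obtain ⟨k, -, a⟩ := (hS ..).1 a
    simp [CM.tst, CM.thr, ← hr, uq _ _ _ h a]
  · simp [CM.tst, CM.thr, ← hr, uq _ _ _ h ((hZ _).1 h')]

theorem step_of (hr : ∀ q, (r q : ℕ) = M.reg q) (C : G → Q × St → Prop) (hP : ∀ q t, P q t ↔ ∃ σ, C t (q, σ))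
    (hR : ∀ t c, C t c → ∀ i x, R i t x ↔ N x (c.2 i))
    (hT : ∀ t c c', C t c → M.step 0 c = some c' → ∃ u, T t u ∧ C u c') : Step M r Z S T R P := by
  intro q b q' e t h1 x h2 h3
  obtain ⟨σ, a⟩ := (hP ..).1 h1
  obtain rfl := tst_iff uq ex hZ hS hr ((hR _ _ a ..).1 h2) h3
  obtain ⟨u, b1, b2⟩ := hT t _ _ a (by rw [CM.step, e]; rfl)
  refine ⟨u, b1, (hP ..).2 ⟨_, b2⟩, fun i => ?_⟩
  have c := hR _ _ a i
  have d := hR _ _ b2 i
  by_cases g : i = r q <;> rcases g' : M.eff q (M.tst 0 (q, σ)) with _ | _ | _ <;>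
    simp only [ef, g, g', Ef, app, ← hr, if_true, if_false, update_apply, Fin.val_inj] at c d ⊢ <;>
    simp only [c, d, hS] <;> first | exact fun _ => id | skip
  · rintro x y a ⟨k, b, c⟩
    simpa [uq _ _ _ a c]
  · exact fun x a => let ⟨y, b⟩ := ex _; ⟨y, b, _, a, b⟩

theorem init_of (C : G → Q × St → Prop) (hP : ∀ q t, P q t ↔ ∃ σ, C t (q, σ))
    (hR : ∀ t c, C t c → ∀ i x, R i t x ↔ N x (c.2 i)) {q0 m t} (h : C t (q0, init m)) : Init Z S R P q0 m :=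
  let ⟨z, a⟩ := ex 0
  let ⟨x, b⟩ := ex m
  ⟨t, (hP ..).2 ⟨_, h⟩, fun i => ⟨z, (hR _ _ h ..).2 (by simpa [init]), (hZ _).2 a⟩, x,
    (hR _ _ h ..).2 (by simpa [init]), (it_iff uq ex hZ hS ..).2 b⟩

end

end Pool.Agent.Lib.helper4.GFO
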