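import Mathlib

set_option autoImplicit false

namespace Pool.Agent.Lib.helper4.Ramsey

/-- Finite hypergraph Ramsey statement for strictly monotone `u`-tuples and colour set `C`. -/
def Ram (u : ℕ) (C : Type) : Prop :=
  ∀ N : ℕ, ∃ M : ℕ, ∀ (α : Type) [LinearOrder α] (S : Finset α), M ≤ S.card →
    ∀ f : (Fin u → α) → C, ∃ Y ⊆ S, Y.card = N ∧
      ∀ a b : Fin u → α, StrictMono a → StrictMono b → (∀ i, a i ∈ Y) → (∀ i, b i ∈ Y) →
        f a = f b

theorem endhom {u : ℕ} {C : Type} (hR : Ram u C) (t : ℕ) :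
    ∃ M : ℕ, ∀ (α : Type) [LinearOrder α] (S : Finset α), M ≤ S.card →
      ∀ f : (Fin (u + 1) → α) → C, ∃ W ⊆ S, W.card = t ∧
        ∀ x ∈ W, ∀ a b : Fin u → α, StrictMono a → StrictMono b → (∀ i, a i ∈ W) →
          (∀ i, b i ∈ W) → (∀ i, x < a i) → (∀ i, x < b i) →
          f (Fin.cons x a) = f (Fin.cons x b) := by
  induction t with
  | zero => exact ⟨0, fun α _ S _ f => ⟨∅, by simp, rfl, by simp⟩⟩
  | succ t ih =>
    obtain ⟨M, hM⟩ := ih
    obtain ⟨M', hM'⟩ := hR M
    refine ⟨M' + 1, fun α _ S hS f => ?_⟩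
    have hne : S.Nonempty := Finset.card_pos.mp (by omega)
    let x0 := S.min' hne
    have hx0 : x0 ∈ S := S.min'_mem hne
    obtain ⟨Y, hYS, hYc, hY⟩ := hM' α (S.erase x0)
      (by rw [Finset.card_erase_of_mem hx0]; omega) (fun a => f (Fin.cons x0 a))
    obtain ⟨W, hWY, hWc, hW⟩ := hM α Y hYc.ge f
    have hx0W : x0 ∉ W := fun h => (Finset.mem_erase.mp (hYS (hWY h))).1 rfl
    have hlow : ∀ x ∈ insert x0 W, x0 ≤ x := by
      intro x hx
      rcases Finset.mem_insert.mp hx with rfl | hx
      · exact le_rfl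
      · exact S.min'_le x (Finset.mem_erase.mp (hYS (hWY hx))).2
    refine ⟨insert x0 W, ?_, by rw [Finset.card_insert_of_notMem hx0W, hWc], ?_⟩
    · intro x hx
      rcases Finset.mem_insert.mp hx with rfl | hx
      · exact hx0
      · exact (Finset.mem_erase.mp (hYS (hWY hx))).2
    · intro x hx a b ha hb haW hbW hxa hxb
      have haW' : ∀ i, a i ∈ W := fun i => by
        rcases Finset.mem_insert.mp (haW i) with h | h
        · exact absurd (lt_of_le_of_lt (hlow x hx) (hxa i)) (by rw [h]; exact lt_irrefl _)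
        · exact h
      have hbW' : ∀ i, b i ∈ W := fun i => by
        rcases Finset.mem_insert.mp (hbW i) with h | h
        · exact absurd (lt_of_le_of_lt (hlow x hx) (hxb i)) (by rw [h]; exact lt_irrefl _)
        · exact h
      rcases Finset.mem_insert.mp hx with rfl | hx
      · exact hY a b ha hb (fun i => hWY (haW' i)) (fun i => hWY (hbW' i))
      · exact hW x hx a b ha hb haW' hbW' hxa hxb

theorem ram (C : Type) [Finite C] (u : ℕ) : Ram u C := by
  classical
  induction u with
  | zero =>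
    intro N
    refine ⟨N, fun α _ S hS f => ?_⟩
    obtain ⟨Y, hY, hc⟩ := Finset.exists_subset_card_eq hS
    exact ⟨Y, hY, hc, fun a b _ _ _ _ => by rw [Subsingleton.elim a b]⟩
  | succ u ih =>
    intro N
    have : Fintype C := Fintype.ofFinite C
    obtain ⟨M, hM⟩ := endhom ih (Fintype.card C * N + 1)
    refine ⟨M, fun α _ S hS f => ?_⟩
    obtain ⟨W, hWS, hWc, hW⟩ := hM α S hS f
    let P : α → (Fin u → α) → Prop := fun x a => StrictMono a ∧ (∀ i, a i ∈ W) ∧ ∀ i, x < a i
    let g : α → C := fun x =>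
      if h : ∃ a, P x a then f (Fin.cons x h.choose) else f (fun _ => x)
    have hg : ∀ x ∈ W, ∀ a, P x a → f (Fin.cons x a) = g x := by
      intro x hx a ha
      have hex : ∃ a, P x a := ⟨a, ha⟩
      have h2 := hex.choose_spec
      simp only [g, dif_pos hex]
      exact hW x hx a _ ha.1 h2.1 ha.2.1 h2.2.1 ha.2.2 h2.2.2
    obtain ⟨y, -, hy⟩ := Finset.exists_lt_card_fiber_of_mul_lt_card_of_maps_to
      (s := W) (t := Finset.univ) (f := g) (n := N) (fun _ _ => Finset.mem_univ _)
      (by rw [Finset.card_univ, hWc]; omega)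
    obtain ⟨Y, hY, hc⟩ := Finset.exists_subset_card_eq hy.le
    have hYW : ∀ x ∈ Y, x ∈ W ∧ g x = y := fun x hx => Finset.mem_filter.mp (hY hx)
    refine ⟨Y, fun x hx => hWS (hYW x hx).1, hc, ?_⟩
    have key : ∀ a : Fin (u + 1) → α, StrictMono a → (∀ i, a i ∈ Y) → f a = y := by
      intro a ha haY
      have h1 := hg (a 0) (hYW _ (haY 0)).1 (Fin.tail a)
        ⟨fun i j hij => ha (Fin.succ_lt_succ_iff.mpr hij), fun i => (hYW _ (haY i.succ)).1,
          fun i => ha (Fin.succ_pos i)⟩
      rw [Fin.cons_self_tail] at h1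
      rw [h1, (hYW _ (haY 0)).2]
    intro a b ha hb haY hbY
    rw [key a ha haY, key b hb hbY]

/-- Simultaneous version for all tuple lengths below `v`. -/
theorem ram_all (C : ℕ → Type) [∀ u, Finite (C u)] (v N : ℕ) :
    ∃ M : ℕ, ∀ (α : Type) [LinearOrder α] (S : Finset α), M ≤ S.card →
      ∀ f : (u : ℕ) → (Fin u → α) → C u, ∃ Y ⊆ S, Y.card = N ∧
        ∀ u < v, ∀ a b : Fin u → α, StrictMono a → StrictMono b → (∀ i, a i ∈ Y) →
          (∀ i, b i ∈ Y) → f u a = f u b := by
  induction v with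
  | zero =>
    refine ⟨N, fun α _ S hS f => ?_⟩
    obtain ⟨Y, hY, hc⟩ := Finset.exists_subset_card_eq hS
    exact ⟨Y, hY, hc, fun u hu => absurd hu (Nat.not_lt_zero u)⟩
  | succ v ih =>
    obtain ⟨M, hM⟩ := ih
    obtain ⟨M', hM'⟩ := ram (C v) v M
    refine ⟨M', fun α _ S hS f => ?_⟩
    obtain ⟨Y, hYS, hYc, hY⟩ := hM' α S hS (f v)
    obtain ⟨Z, hZY, hZc, hZ⟩ := hM α Y hYc.ge f
    refine ⟨Z, hZY.trans hYS, hZc, fun u hu a b ha hb haZ hbZ => ?_⟩
    rcases Nat.lt_succ_iff_lt_or_eq.mp hu with h | rfl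
    · exact hZ u h a b ha hb haZ hbZ
    · exact hY a b ha hb (fun i => hZY (haZ i)) (fun i => hZY (hbZ i))

theorem const_of_swap {α β : Type} [DecidableEq α] (S : Finset α) (k : ℕ) (f : Finset α → β)
    (h : ∀ K ⊆ S, K.card = k → ∀ x ∈ K, ∀ y ∈ S, y ∉ K → f (insert y (K.erase x)) = f K) :
    ∀ d, ∀ K ⊆ S, ∀ K' ⊆ S, K.card = k → K'.card = k → (K \ K').card = d → f K = f K' := by
  intro d
  induction d with
  | zero =>
    intro K _ K' _ h1 h2 h3
    rw [Finset.card_eq_zero, Finset.sdiff_eq_empty_iff_subset] at h3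
    rw [Finset.eq_of_subset_of_card_le h3 (by omega)]
  | succ d ih =>
    intro K hK K' hK' h1 h2 h3
    obtain ⟨x, hx⟩ : (K \ K').Nonempty := Finset.card_pos.mp (by omega)
    have h4 : (K' \ K).card = d + 1 := by
      rw [← h3]; exact Finset.card_sdiff_comm (by omega)
    obtain ⟨y, hy⟩ : (K' \ K).Nonempty := Finset.card_pos.mp (by omega)
    rw [Finset.mem_sdiff] at hx hy
    rw [← h K hK h1 x hx.1 y (hK' hy.1) hy.2]
    have hy' : y ∉ K.erase x := fun hh => hy.2 (Finset.mem_of_mem_erase hh)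
    have hpos : 0 < K.card := Finset.card_pos.mpr ⟨x, hx.1⟩
    apply ih _ _ K' hK' _ h2
    · have : insert y (K.erase x) \ K' = (K \ K').erase x := by
        ext z
        simp only [Finset.mem_sdiff, Finset.mem_insert, Finset.mem_erase]
        constructor
        · rintro ⟨rfl | ⟨h5, h6⟩, h7⟩
          · exact absurd hy.1 h7
          · exact ⟨h5, h6, h7⟩
        · rintro ⟨h5, h6, h7⟩
          exact ⟨Or.inr ⟨h5, h6⟩, h7⟩
      rw [this, Finset.card_erase_of_mem (Finset.mem_sdiff.mpr hx), h3]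
      rfl
    · intro z hz
      rcases Finset.mem_insert.mp hz with rfl | hz
      · exact hK' hy.1
      · exact hK (Finset.mem_of_mem_erase hz)
    · rw [Finset.card_insert_of_notMem hy', Finset.card_erase_of_mem hx.1]; omega

theorem sum_pc_insert {α : Type} [DecidableEq α] (L : Finset α) (x : α) (hx : x ∉ L) (k : ℕ)
    (f : Finset α → ℚ) :
    ∑ K ∈ (insert x L).powersetCard (k + 1), f K =
      ∑ K ∈ L.powersetCard (k + 1), f K + ∑ K ∈ L.powersetCard k, f (insert x K) := by
  rw [Finset.powersetCard_succ_insert hx, Finset.sum_union, Finset.sum_image]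
  · intro A hA B hB hAB
    have h1 : x ∉ A := fun h => hx ((Finset.mem_powersetCard.mp hA).1 h)
    have h2 : x ∉ B := fun h => hx ((Finset.mem_powersetCard.mp hB).1 h)
    rw [← Finset.erase_insert h1, ← Finset.erase_insert h2]
    exact congrArg (fun Z => Finset.erase Z x) hAB
  · rw [Finset.disjoint_left]
    intro A hA hA2
    obtain ⟨B, -, rfl⟩ := Finset.mem_image.mp hA2
    exact hx ((Finset.mem_powersetCard.mp hA).1 (Finset.mem_insert_self _ _))

/-- Gottlieb-Kantor: the inclusion matrix of `k`-sets versus `l`-sets has full row rank. -/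
theorem kantor {α : Type} [DecidableEq α] (k : ℕ) :
    ∀ (l : ℕ) (S : Finset α) (f : Finset α → ℚ), k ≤ l → k + l ≤ S.card →
      (∀ L ⊆ S, L.card = l → ∑ K ∈ L.powersetCard k, f K = 0) →
      ∀ K ⊆ S, K.card = k → f K = 0 := by
  induction k with
  | zero =>
    intro l S f _ hS h K _ hK
    obtain ⟨L, hL, hc⟩ := Finset.exists_subset_card_eq (show l ≤ S.card by omega)
    have := h L hL hc
    rw [Finset.powersetCard_zero, Finset.sum_singleton] at this
    rw [Finset.card_eq_zero.mp hK, this]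
  | succ k ih =>
    intro l S f hkl hS h
    obtain ⟨l, rfl⟩ : ∃ l', l = l' + 1 := ⟨l - 1, by omega⟩
    have hswap : ∀ K ⊆ S, K.card = k + 1 → ∀ x ∈ K, ∀ y ∈ S, y ∉ K →
        f (insert y (K.erase x)) = f K := by
      intro K hK hKc x hx y hy hyK
      have hxy : y ≠ x := fun e => hyK (e ▸ hx)
      have h1 := ih l ((S.erase x).erase y) (fun A => f (insert y A) - f (insert x A))
        (by omega)
        (by rw [Finset.card_erase_of_mem (Finset.mem_erase.mpr ⟨hxy, hy⟩),
              Finset.card_erase_of_mem (hK hx)]; omega)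
        (by
          intro L hL hLc
          have hyL : y ∉ L := fun hh => (Finset.mem_erase.mp (hL hh)).1 rfl
          have hxL : x ∉ L := fun hh =>
            (Finset.mem_erase.mp (Finset.mem_erase.mp (hL hh)).2).1 rfl
          have hLS : L ⊆ S := fun z hz =>
            (Finset.mem_erase.mp (Finset.mem_erase.mp (hL hz)).2).2
          have e1 := h (insert y L) (Finset.insert_subset hy hLS)
            (by rw [Finset.card_insert_of_notMem hyL, hLc])
          have e2 := h (insert x L) (Finset.insert_subset (hK hx) hLS)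
            (by rw [Finset.card_insert_of_notMem hxL, hLc])
          rw [sum_pc_insert L y hyL] at e1
          rw [sum_pc_insert L x hxL] at e2
          rw [Finset.sum_sub_distrib]
          linarith)
        (K.erase x)
        (by
          intro z hz
          have := Finset.mem_erase.mp hz
          exact Finset.mem_erase.mpr ⟨fun e => hyK (e ▸ this.2),
            Finset.mem_erase.mpr ⟨this.1, hK this.2⟩⟩)
        (by rw [Finset.card_erase_of_mem hx, hKc]; rfl)
      rw [Finset.insert_erase hx] at h1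
      linarith
    intro K hK hKc
    obtain ⟨L, hKL, hLS, hLc⟩ := Finset.exists_subsuperset_card_eq (n := l + 1) hK
      (by omega) (by omega)
    have h2 := h L hLS hLc
    rw [Finset.sum_congr rfl (g := fun _ => f K) (fun A hA => by
      have := Finset.mem_powersetCard.mp hA
      exact const_of_swap S (k + 1) f hswap _ A (this.1.trans hLS) K hK this.2 hKc rfl),
      Finset.sum_const, Finset.card_powersetCard, hLc, nsmul_eq_mul] at h2
    have h3 : ((l + 1).choose (k + 1) : ℚ) ≠ 0 := by
      exact_mod_cast (Nat.choose_pos hkl).ne'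
    exact (mul_eq_zero.mp h2).resolve_left h3

end Pool.Agent.Lib.helper4.Ramsey
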