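import Mathlib
import Pool.Agent.H.MP_6f60ef_co.A

set_option autoImplicit false

namespace Pool.Agent.Lib.helper4.Planar

open Set

variable {V : Type}

def ori (px py : V → ℤ) (a b d : V) : ℤ :=
  (px b - px a) * (py d - py a) - (py b - py a) * (px d - px a)

/-- The closed segments `u v` and `x y` are strictly separated by one of their two lines. -/
def Sep (px py : V → ℤ) (u v x y : V) : Prop :=
  0 < ori px py u v x * ori px py u v y ∨ 0 < ori px py x y u * ori px py x y v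

instance (px py : V → ℤ) (u v x y : V) : Decidable (Sep px py u v x y) := by
  unfold Sep; infer_instance

/-- A crossing-free straight-line drawing. -/
def Drawn (G : SimpleGraph V) (px py : V → ℤ) : Prop :=
  ∀ u v x y, G.Adj u v → G.Adj x y → u ≠ x → u ≠ y → v ≠ x → v ≠ y → Sep px py u v x y

def pt (px py : V → ℤ) (u : V) : ℝ × ℝ := ((px u : ℝ), (py u : ℝ))

def W (G : SimpleGraph V) (px py : V → ℤ) (S : Set V) : Set (ℝ × ℝ) :=
  {z | ∃ u v, G.Adj u v ∧ u ∈ S ∧ v ∈ S ∧ z ∈ segment ℝ (pt px py u) (pt px py v)}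

theorem half (px py : V → ℤ) (u v x y : V) (h : 0 < ori px py u v x * ori px py u v y)
    (z : ℝ × ℝ) (h1 : z ∈ segment ℝ (pt px py u) (pt px py v))
    (h2 : z ∈ segment ℝ (pt px py x) (pt px py y)) : False := by
  obtain ⟨a, b, ha, hb, hab, e1⟩ := h1
  obtain ⟨c, d, hc, hd, hcd, e2⟩ := h2
  have e := e1.trans e2.symm
  have q1 := congrArg Prod.fst e
  have q2 := congrArg Prod.snd e
  simp only [pt, Prod.fst_add, Prod.snd_add, Prod.smul_fst, Prod.smul_snd, smul_eq_mul] at q1 q2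
  have key : c * (ori px py u v x : ℝ) + d * (ori px py u v y : ℝ) = 0 := by
    simp only [ori]
    push_cast
    have ha' : a = 1 - b := by linarith
    have hc' : c = 1 - d := by linarith
    subst ha' hc'
    linear_combination (-((px v : ℝ) - px u)) * q2 + ((py v : ℝ) - py u) * q1
  have h' : (0 : ℝ) < (ori px py u v x : ℝ) * (ori px py u v y : ℝ) := by exact_mod_cast h
  generalize (ori px py u v x : ℝ) = m at *
  generalize (ori px py u v y : ℝ) = n at *
  have hm : m ≠ 0 := by rintro rfl; simp at h'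
  have k2 : c * (m * m) + d * (m * n) = 0 := by linear_combination m * key
  have mm : 0 < m * m := mul_self_pos.2 hm
  rcases eq_or_lt_of_le hc with q | q
  · have : d = 1 := by linarith
    subst this
    rw [← q] at k2
    linarith
  · have := mul_pos q mm
    have := mul_nonneg hd h'.le
    linarith

theorem disj (G : SimpleGraph V) (px py : V → ℤ) (hD : Drawn G px py) (S T : Set V)
    (hST : Disjoint S T) (z : ℝ × ℝ) (h1 : z ∈ W G px py S) (h2 : z ∈ W G px py T) : False := by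
  obtain ⟨u, v, huv, hu, hv, s1⟩ := h1
  obtain ⟨x, y, hxy, hx, hy, s2⟩ := h2
  have ne : ∀ a ∈ S, ∀ b ∈ T, a ≠ b := fun a ha b hb e =>
    Set.disjoint_left.1 hST ha (e ▸ hb)
  rcases hD u v x y huv hxy (ne _ hu _ hx) (ne _ hu _ hy) (ne _ hv _ hx) (ne _ hv _ hy) with h | h
  · exact half px py u v x y h z s1 s2
  · exact half px py x y u v h z s2 s1

theorem edgeJ (G : SimpleGraph V) (px py : V → ℤ) (S : Set V) (u v : V) (h : G.Adj u v)
    (hu : u ∈ S) (hv : v ∈ S) : JoinedIn (W G px py S) (pt px py u) (pt px py v) :=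
  JoinedIn.of_segment_subset fun _ hz => ⟨u, v, h, hu, hv, hz⟩

theorem walkJ (G : SimpleGraph V) (px py : V → ℤ) (S A : Set V) (hA : A ⊆ S) (a b : A)
    (w : (G.induce A).Walk a b) (h : pt px py a ∈ W G px py S) :
    JoinedIn (W G px py S) (pt px py a) (pt px py b) := by
  induction w with
  | nil => exact JoinedIn.refl h
  | @cons a c b e q ih =>
    have j := edgeJ G px py S a c e (hA a.2) (hA c.2)
    exact j.trans (ih j.target_mem)

theorem linkJ (G : SimpleGraph V) (px py : V → ℤ) (A B : Set V)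
    (hA : (G.induce A).Connected) (hB : (G.induce B).Connected) (a b : V) (ha : a ∈ A)
    (hb : b ∈ B) (h : ∃ u ∈ A, ∃ v ∈ B, G.Adj u v) :
    JoinedIn (W G px py (A ∪ B)) (pt px py a) (pt px py b) := by
  obtain ⟨u, hu, v, hv, e⟩ := h
  have j := edgeJ G px py (A ∪ B) u v e (Or.inl hu) (Or.inr hv)
  obtain ⟨w1⟩ := hA.preconnected ⟨u, hu⟩ ⟨a, ha⟩
  obtain ⟨w2⟩ := hB.preconnected ⟨v, hv⟩ ⟨b, hb⟩
  have j1 := walkJ G px py (A ∪ B) A subset_union_left _ _ w1 j.source_mem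
  have j2 := walkJ G px py (A ∪ B) B subset_union_right _ _ w2 j.target_mem
  exact (j1.symm.trans j).trans j2

theorem dis4 {ι : Type} (f : ι → Set V) (hd : ∀ i j, i ≠ j → Disjoint (f i) (f j))
    (i j k l : ι) (h1 : i ≠ k) (h2 : i ≠ l) (h3 : j ≠ k) (h4 : j ≠ l) :
    Disjoint (f i ∪ f j) (f k ∪ f l) := by
  simp only [Set.disjoint_union_left, Set.disjoint_union_right]
  exact ⟨⟨hd _ _ h1, hd _ _ h3⟩, hd _ _ h2, hd _ _ h4⟩

theorem no5 (G : SimpleGraph V) (px py : V → ℤ) (hD : Drawn G px py) :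
    ¬ ∃ f : Fin 5 → Set V, (∀ i, (G.induce (f i)).Connected) ∧
      (∀ i j, i ≠ j → Disjoint (f i) (f j)) ∧
      (∀ i j, i ≠ j → ∃ u ∈ f i, ∃ v ∈ f j, G.Adj u v) := by
  rintro ⟨f, hc, hd, ha⟩
  have r : ∀ i, ∃ a, a ∈ f i := fun i => by
    obtain ⟨a⟩ := (hc i).nonempty
    exact ⟨a, a.2⟩
  choose r hr using r
  have ex : ∀ i j : Fin 5, ∃ Γ : unitInterval → ℝ × ℝ, i < j → Continuous Γ ∧
      Γ 0 = pt px py (r i) ∧ Γ 1 = pt px py (r j) ∧ ∀ s, Γ s ∈ W G px py (f i ∪ f j) := by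
    intro i j
    by_cases h : i < j
    · obtain ⟨γ, hγ⟩ := linkJ G px py _ _ (hc i) (hc j) _ _ (hr i) (hr j) (ha i j h.ne)
      exact ⟨γ, fun _ => ⟨γ.continuous, γ.source, γ.target, hγ⟩⟩
    · exact ⟨fun _ => 0, fun c => (h c).elim⟩
  choose Γ hΓ using ex
  obtain ⟨i, j, k, l, s, t, ⟨q1, q2, q3, q4, q5, q6⟩, e⟩ :=
    Pool.Agent.H.MP_6f60ef_co.cross5 Γ (fun i => pt px py (r i)) (fun i j h => (hΓ i j h).1)
      (fun i j h => (hΓ i j h).2.1) (fun i j h => (hΓ i j h).2.2.1)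
  exact disj G px py hD _ _ (dis4 f hd i j k l q3 q4 q5 q6) _ ((hΓ i j q1).2.2.2 s)
    (e ▸ (hΓ k l q2).2.2.2 t)

theorem no33 (G : SimpleGraph V) (px py : V → ℤ) (hD : Drawn G px py) :
    ¬ ∃ f : Fin 3 ⊕ Fin 3 → Set V, (∀ i, (G.induce (f i)).Connected) ∧
      (∀ i j, i ≠ j → Disjoint (f i) (f j)) ∧
      (∀ i j : Fin 3, ∃ u ∈ f (.inl i), ∃ v ∈ f (.inr j), G.Adj u v) := by
  rintro ⟨f, hc, hd, ha⟩
  have r : ∀ i, ∃ a, a ∈ f i := fun i => by
    obtain ⟨a⟩ := (hc i).nonempty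
    exact ⟨a, a.2⟩
  choose r hr using r
  have ex : ∀ i j : Fin 3, ∃ Γ : unitInterval → ℝ × ℝ, Continuous Γ ∧
      Γ 0 = pt px py (r (.inl i)) ∧ Γ 1 = pt px py (r (.inr j)) ∧
      ∀ s, Γ s ∈ W G px py (f (.inl i) ∪ f (.inr j)) := by
    intro i j
    obtain ⟨γ, hγ⟩ := linkJ G px py _ _ (hc _) (hc _) _ _ (hr _) (hr _) (ha i j)
    exact ⟨γ, γ.continuous, γ.source, γ.target, hγ⟩
  choose Γ hΓ using ex
  obtain ⟨i, j, k, l, s, t, q1, q2, e⟩ :=
    Pool.Agent.Lib.helper7.K33.cross Γ (fun i => pt px py (r (.inl i)))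
      (fun j => pt px py (r (.inr j))) (fun i j => (hΓ i j).1)
      (fun i j => (hΓ i j).2.1) (fun i j => (hΓ i j).2.2.1)
  exact disj G px py hD _ _ (dis4 f hd (.inl i) (.inr j) (.inl k) (.inr l) (by simpa using q1)
    (by simp) (by simp) (by simpa using q2)) _ ((hΓ i j).2.2.2 s) (e ▸ (hΓ k l).2.2.2 t)

end Pool.Agent.Lib.helper4.Planar
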