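import Mathlib

set_option autoImplicit false

namespace Pool.Agent.Lib.RegKit

def Reg {A : Type} (P : List A → Prop) : Prop := Language.IsRegular ({w | P w} : Language A)

theorem reg_dfa {A σ : Type} [Finite σ] (M : DFA A σ) (P : List A → Prop)
    (h : ∀ w, M.eval w ∈ M.accept ↔ P w) : Reg P := by
  have := Fintype.ofFinite σ
  refine ⟨σ, this, M, ?_⟩
  ext w
  exact h w

theorem Reg.congr {A : Type} {P Q : List A → Prop} (h : Reg P) (e : ∀ w, P w ↔ Q w) : Reg Q := by
  have : P = Q := funext fun w => propext (e w)
  rwa [← this]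

theorem Reg.and {A : Type} {P Q : List A → Prop} (h : Reg P) (h' : Reg Q) :
    Reg (fun w => P w ∧ Q w) := Language.IsRegular.inf h h'

theorem Reg.or {A : Type} {P Q : List A → Prop} (h : Reg P) (h' : Reg Q) :
    Reg (fun w => P w ∨ Q w) := Language.IsRegular.add h h'

theorem Reg.not {A : Type} {P : List A → Prop} (h : Reg P) :
    Reg (fun w => ¬ P w) := Language.IsRegular.compl h

theorem reg_all {A : Type} (P : A → Prop) : Reg (fun w : List A => ∀ a ∈ w, P a) := by
  let M : DFA A Prop := ⟨fun s a => s ∧ P a, True, {s | s}⟩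
  refine reg_dfa M _ (fun w => ?_)
  induction w using List.reverseRecOn with
  | nil => simp [M]
  | append_singleton w a ih =>
    rw [DFA.eval_append_singleton]
    simp only [List.mem_append, List.mem_singleton]
    change M.eval w ∧ P a ↔ _
    change M.eval w ↔ _ at ih
    rw [ih]
    constructor
    · rintro ⟨h1, h2⟩ b (hb | rfl)
      · exact h1 b hb
      · exact h2
    · intro h; exact ⟨fun b hb => h b (Or.inl hb), h a (Or.inr rfl)⟩

theorem reg_pairwise {A : Type} [Finite A] (R : A → A → Prop) :
    Reg (fun w : List A => w.Pairwise R) := by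
  let M : DFA A (Set A × Prop) :=
    ⟨fun s a => (insert a s.1, s.2 ∧ ∀ b ∈ s.1, R b a), (∅, True), {s | s.2}⟩
  have : ∀ w, M.eval w = ({a | a ∈ w}, w.Pairwise R) := by
    intro w
    induction w using List.reverseRecOn with
    | nil => simp [M]
    | append_singleton w a ih =>
      rw [DFA.eval_append_singleton, ih]
      simp only [M, List.pairwise_append, Prod.mk.injEq]
      constructor
      · ext b; simp [or_comm]
      · simp
  refine reg_dfa M _ (fun w => ?_)
  rw [this]; rfl

theorem reg_count {A : Type} (P : A → Bool) (k : ℕ) :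
    Reg (fun w : List A => w.countP P ≤ k) := by
  let M : DFA A (Fin (k + 2)) :=
    ⟨fun s a => if P a then ⟨min (s + 1) (k + 1), by omega⟩ else s, 0, {s | s.1 ≤ k}⟩
  have : ∀ w, (M.eval w).1 = min (w.countP P) (k + 1) := by
    intro w
    induction w using List.reverseRecOn with
    | nil => simp [M]
    | append_singleton w a ih =>
      rw [DFA.eval_append_singleton, List.countP_append]
      by_cases h : P a = true
      · simp only [M, h, if_true, List.countP_singleton] at ih ⊢
        rw [ih]; omega
      · simp only [M, h, List.countP_singleton] at ih ⊢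
        simpa using ih
  refine reg_dfa M _ (fun w => ?_)
  change (M.eval w).1 ≤ k ↔ _
  rw [this]; omega

theorem Reg.cons {A : Type} {P : List A → Prop} (h : Reg P) (a : A) :
    Reg (fun w => ∃ u, P u ∧ w = a :: u) := by
  classical
  obtain ⟨σ, _, M, hM⟩ := h
  let N : DFA A (Option (Option σ)) :=
    ⟨fun s x => match s with
      | none => if x = a then some (some M.start) else some none
      | some none => some none
      | some (some q) => some (some (M.step q x)), none,
      {s | ∃ q ∈ M.accept, s = some (some q)}⟩
  have h1 : ∀ w q, N.evalFrom (some (some q)) w = some (some (M.evalFrom q w)) := by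
    intro w
    induction w with
    | nil => intro q; rfl
    | cons x w ih => intro q; exact ih _
  have h2 : ∀ w, N.evalFrom (some none) w = some none := by
    intro w
    induction w with
    | nil => rfl
    | cons x w ih => exact ih
  refine reg_dfa N _ (fun w => ?_)
  cases w with
  | nil => simp [N]
  | cons x w =>
    have hP : P w ↔ M.eval w ∈ M.accept := by
      have : w ∈ M.accepts ↔ P w := by rw [hM]; rfl
      rw [← this]; rfl
    by_cases hx : x = a
    · have : N.eval (x :: w) = some (some (M.eval w)) := by
        change N.evalFrom (if x = a then some (some M.start) else some none) w = _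
        rw [if_pos hx, h1]; rfl
      rw [this]; simp [N, hx, hP]
    · have : N.eval (x :: w) = some none := by
        change N.evalFrom (if x = a then some (some M.start) else some none) w = _
        rw [if_neg hx, h2]
      rw [this]; simp [N, hx]

theorem Reg.snoc {A : Type} {P : List A → Prop} (h : Reg P) (a : A) :
    Reg (fun w => ∃ u, P u ∧ w = u ++ [a]) := by
  obtain ⟨σ, _, M, hM⟩ := h
  let N : DFA A (σ × Prop) :=
    ⟨fun s x => (M.step s.1 x, s.1 ∈ M.accept ∧ x = a), (M.start, False), {s | s.2}⟩
  have h1 : ∀ w, (N.eval w).1 = M.eval w := by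
    intro w
    induction w using List.reverseRecOn with
    | nil => rfl
    | append_singleton w x ih =>
      rw [DFA.eval_append_singleton, DFA.eval_append_singleton, ← ih]
  refine reg_dfa N _ (fun w => ?_)
  induction w using List.reverseRecOn with
  | nil => simp [N]
  | append_singleton w x _ =>
    have hP : P w ↔ M.eval w ∈ M.accept := by
      have : w ∈ M.accepts ↔ P w := by rw [hM]; rfl
      rw [← this]; rfl
    rw [DFA.eval_append_singleton]
    change (N.eval w).1 ∈ M.accept ∧ x = a ↔ _
    rw [h1, ← hP]
    constructor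
    · rintro ⟨h, rfl⟩; exact ⟨w, h, rfl⟩
    · rintro ⟨u, hu, he⟩
      obtain ⟨rfl, h2⟩ := List.append_inj' he rfl
      exact ⟨hu, by simpa using h2⟩

section Conv
variable {A : Type}

def conv (u v : List A) : List (Option A × Option A) := List.zipWithAll Prod.mk u v
def w1 (z : List (Option A × Option A)) : List A := z.filterMap Prod.fst
def w2 (z : List (Option A × Option A)) : List A := z.filterMap Prod.snd

theorem take_conv (u v : List A) (i : ℕ) :
    w1 ((conv u v).take i) = u.take i ∧ w2 ((conv u v).take i) = v.take i := by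
  induction u generalizing v i with
  | nil =>
    simp only [conv, List.nil_zipWithAll, ← List.map_take, w1, w2, List.filterMap_map]
    simp
  | cons a u ih =>
    cases v with
    | nil =>
      simp only [conv, List.zipWithAll_nil, ← List.map_take, w1, w2, List.filterMap_map]
      simp
    | cons b v =>
      cases i with
      | zero => simp [w1, w2]
      | succ i =>
        have := ih v i
        simp only [conv, w1, w2] at this
        simp [conv, w1, w2, this.1, this.2]

theorem w_conv (u v : List A) : w1 (conv u v) = u ∧ w2 (conv u v) = v := by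
  induction u generalizing v with
  | nil => simp [conv, w1, w2, List.filterMap_map]
  | cons a u ih =>
    cases v with
    | nil => simp [conv, w1, w2, List.filterMap_map]
    | cons b v =>
      have := ih v
      simp only [conv, w1, w2] at this
      simp [conv, w1, w2, this.1, this.2]

def Valid (z : List (Option A × Option A)) : Prop :=
  z.Pairwise (fun a b => (a.1 = none → b.1 = none) ∧ (a.2 = none → b.2 = none)) ∧
    ∀ a ∈ z, a ≠ (none, none)

theorem valid_conv (u v : List A) : Valid (conv u v) := by
  induction u generalizing v with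
  | nil =>
    refine ⟨?_, by simp [conv]⟩
    simp only [conv, List.nil_zipWithAll, List.pairwise_map]
    exact List.pairwise_of_forall (by simp)
  | cons a u ih =>
    cases v with
    | nil =>
      refine ⟨?_, by simp [conv]⟩
      simp only [conv, List.zipWithAll_nil, List.pairwise_map]
      exact List.pairwise_of_forall (by simp)
    | cons b v =>
      obtain ⟨h1, h2⟩ := ih v
      refine ⟨?_, ?_⟩
      · simp only [conv, List.zipWithAll_cons_cons, List.pairwise_cons]
        exact ⟨by simp, h1⟩
      · simp only [conv, List.zipWithAll_cons_cons, List.mem_cons]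
        rintro c (rfl | hc)
        · simp
        · exact h2 c hc

theorem valid_eq (z : List (Option A × Option A)) (h : Valid z) : z = conv (w1 z) (w2 z) := by
  induction z with
  | nil => rfl
  | cons c z ih =>
    obtain ⟨h1, h2⟩ := h
    rw [List.pairwise_cons] at h1
    have ih' := ih ⟨h1.2, fun a ha => h2 a (List.mem_cons_of_mem _ ha)⟩
    obtain ⟨_ | a, _ | b⟩ := c
    · exact (h2 _ List.mem_cons_self rfl).elim
    · have e : w1 z = [] := by
        simp only [w1, List.filterMap_eq_nil_iff]
        exact fun d hd => (h1.1 d hd).1 rfl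
      rw [e] at ih'
      have e1 : w1 ((none, some b) :: z) = [] := e
      have e2 : w2 ((none, some b) :: z) = b :: w2 z := rfl
      rw [e1, e2]
      simp only [conv, List.nil_zipWithAll, List.map_cons] at ih' ⊢
      rw [← ih']
    · have e : w2 z = [] := by
        simp only [w2, List.filterMap_eq_nil_iff]
        exact fun d hd => (h1.1 d hd).2 rfl
      rw [e] at ih'
      have e1 : w2 ((some a, none) :: z) = [] := e
      have e2 : w1 ((some a, none) :: z) = a :: w1 z := rfl
      rw [e1, e2]
      simp only [conv, List.zipWithAll_nil, List.map_cons] at ih' ⊢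
      rw [← ih']
    · have e1 : w1 ((some a, some b) :: z) = a :: w1 z := rfl
      have e2 : w2 ((some a, some b) :: z) = b :: w2 z := rfl
      rw [e1, e2]
      simp only [conv, List.zipWithAll_cons_cons] at ih' ⊢
      rw [← ih']

theorem rel_reg [Finite A] {G : Type} [Group G] (ev : A → G) (P : List A → Prop) (hP : Reg P)
    (x : G) (D : Set G) (hD : D.Finite)
    (hft : ∀ u v, P u → P v → (u.map ev).prod * x = (v.map ev).prod →
      ∀ i, ((u.take i).map ev).prod⁻¹ * ((v.take i).map ev).prod ∈ D) :
    Reg (fun z => ∃ u v, P u ∧ P v ∧ (u.map ev).prod * x = (v.map ev).prod ∧ z = conv u v) := by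
  classical
  obtain ⟨σ, _, M, hM⟩ := hP
  have hPM : ∀ w, P w ↔ M.eval w ∈ M.accept := by
    intro w
    have : w ∈ M.accepts ↔ P w := by rw [hM]; rfl
    rw [← this]; rfl
  have := hD.to_subtype
  let mk : G → Option D := fun g => if h : g ∈ D then some ⟨g, h⟩ else none
  let N : DFA (Option A × Option A) (σ × σ × Option D) :=
    ⟨fun s c => (M.evalFrom s.1 c.1.toList, M.evalFrom s.2.1 c.2.toList,
        s.2.2.bind (fun d => mk ((c.1.toList.map ev).prod⁻¹ * d.1 * (c.2.toList.map ev).prod))),
      (M.start, M.start, mk 1),
      {s | s.1 ∈ M.accept ∧ s.2.1 ∈ M.accept ∧ ∃ d, s.2.2 = some d ∧ d.1 = x}⟩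
  let df : List (Option A × Option A) → G :=
    fun z => ((w1 z).map ev).prod⁻¹ * ((w2 z).map ev).prod
  have e1 : ∀ (z : List (Option A × Option A)) c, w1 (z ++ [c]) = w1 z ++ c.1.toList := by
    rintro z ⟨_ | a, b⟩ <;> simp [w1]
  have e2 : ∀ (z : List (Option A × Option A)) c, w2 (z ++ [c]) = w2 z ++ c.2.toList := by
    rintro z ⟨a, _ | b⟩ <;> simp [w2]
  have hmk : ∀ g d, mk g = some d → d.1 = g := by
    intro g d h
    simp only [mk] at h
    split_ifs at h
    · rw [← Option.some.inj h]
  have hA : ∀ z, (N.eval z).1 = M.eval (w1 z) ∧ (N.eval z).2.1 = M.eval (w2 z) ∧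
      (∀ d, (N.eval z).2.2 = some d → d.1 = df z) ∧
      ((∀ z', z' <+: z → df z' ∈ D) → ∃ d, (N.eval z).2.2 = some d) := by
    intro z
    induction z using List.reverseRecOn with
    | nil =>
      refine ⟨rfl, rfl, fun d h => ?_, fun h => ?_⟩
      · rw [hmk 1 d h]; simp [df, w1, w2]
      · have : (1 : G) ∈ D := by simpa [df, w1, w2] using h [] (List.prefix_refl _)
        exact ⟨⟨1, this⟩, dif_pos this⟩
    | append_singleton z c ih =>
      obtain ⟨a1, a2, a3, a4⟩ := ih
      rw [DFA.eval_append_singleton]
      have hdf : df (z ++ [c]) = (c.1.toList.map ev).prod⁻¹ * df z * (c.2.toList.map ev).prod := by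
        simp only [df, e1, e2, List.map_append, List.prod_append]; group
      refine ⟨?_, ?_, fun d h => ?_, fun h => ?_⟩
      · rw [e1]; simp only [DFA.eval, DFA.evalFrom_of_append] at a1 ⊢
        rw [← a1]
      · rw [e2]; simp only [DFA.eval, DFA.evalFrom_of_append] at a2 ⊢
        rw [← a2]
      · obtain ⟨d0, b1, b2⟩ := Option.bind_eq_some_iff.mp h
        rw [hmk _ _ b2, a3 d0 b1, hdf]
      · obtain ⟨d0, b1⟩ := a4 (fun z' hz => h z' (hz.trans (List.prefix_append _ _)))
        have b2 := h _ (List.prefix_refl _)
        rw [hdf, ← a3 d0 b1] at b2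
        refine ⟨⟨_, b2⟩, ?_⟩
        change (N.eval z).2.2.bind _ = _
        rw [b1]
        exact dif_pos b2
  have hV : Reg (fun z : List (Option A × Option A) => Valid z) :=
    (reg_pairwise _).and (reg_all _)
  refine (hV.and (reg_dfa N _ (fun _ => Iff.rfl))).congr (fun z => ?_)
  obtain ⟨a1, a2, a3, a4⟩ := hA z
  constructor
  · rintro ⟨h1, h2, h3, d, h4, h5⟩
    refine ⟨w1 z, w2 z, (hPM _).mpr (a1 ▸ h2), (hPM _).mpr (a2 ▸ h3), ?_, valid_eq z h1⟩
    rw [← h5, a3 d h4]; simp [df]
  · rintro ⟨u, v, h1, h2, h3, rfl⟩
    obtain ⟨c1, c2⟩ := w_conv u v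
    refine ⟨valid_conv u v, ?_, ?_, ?_⟩
    · rw [a1, c1]; exact (hPM _).mp h1
    · rw [a2, c2]; exact (hPM _).mp h2
    · obtain ⟨d, hd⟩ := a4 (by
        intro z' hz
        rw [List.prefix_iff_eq_take] at hz
        rw [hz]
        simp only [df, (take_conv u v _).1, (take_conv u v _).2]
        exact hft u v h1 h2 h3 _)
      refine ⟨d, hd, ?_⟩
      rw [a3 d hd]
      simp only [df, c1, c2, ← h3]; simp

end Conv

theorem pump_rep {A : Type} {P : List A → Prop} (h : Reg P) :
    ∃ N : ℕ, ∀ (u w : List A) (y : A), P (u ++ List.replicate N y ++ w) →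
      ∃ m, 0 < m ∧ m ≤ N ∧ ∀ j, P (u ++ List.replicate (N + j * m) y ++ w) := by
  obtain ⟨σ, _, M, hM⟩ := h
  have hPM : ∀ w, P w ↔ M.eval w ∈ M.accept := by
    intro w
    have : w ∈ M.accepts ↔ P w := by rw [hM]; rfl
    rw [← this]; rfl
  refine ⟨Fintype.card σ, fun u w y hp => ?_⟩
  let f : ℕ → σ := fun i => M.evalFrom (M.eval u) (List.replicate i y)
  have hf : ∀ i k, f (i + k) = M.evalFrom (f i) (List.replicate k y) := by
    intro i k; simp only [f]; rw [List.replicate_add, DFA.evalFrom_of_append]
  have key : ∀ a b, a < b → b ≤ Fintype.card σ → f a = f b →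
      ∃ m, 0 < m ∧ m ≤ Fintype.card σ ∧
        ∀ j, P (u ++ List.replicate (Fintype.card σ + j * m) y ++ w) := by
    intro a b hab hb he
    refine ⟨b - a, by omega, by omega, fun j => ?_⟩
    have h1 : f (Fintype.card σ + j * (b - a)) = f (Fintype.card σ) := by
      induction j with
      | zero => simp
      | succ j ih =>
        have e1 : Fintype.card σ + (j + 1) * (b - a) =
            b + (Fintype.card σ + j * (b - a) - a) := by rw [add_mul]; omega
        have e2 : Fintype.card σ + j * (b - a) = a + (Fintype.card σ + j * (b - a) - a) := by omega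
        rw [e1, hf, ← he, ← hf, ← e2, ih]
    rw [hPM] at hp ⊢
    simp only [DFA.eval, DFA.evalFrom_of_append, f] at hp h1 ⊢
    rw [h1]; exact hp
  obtain ⟨a, b, hab, he⟩ := Fintype.exists_ne_map_eq_of_card_lt
    (fun i : Fin (Fintype.card σ + 1) => f i) (by simp)
  rcases lt_or_gt_of_ne (Fin.val_ne_of_ne hab) with h | h
  · exact key a b h (by omega) he
  · exact key b a h (by omega) he.symm

end Pool.Agent.Lib.RegKit
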