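import Mathlib
import Pool.Agent.Lib.helper4.Planar

set_option autoImplicit false

namespace Pool.Agent.Lib.helper4.Planar

variable {V : Type}

/-- no `K5` minor and no `K33` minor -/
def Planar (G : SimpleGraph V) : Prop :=
  (¬ ∃ f : Fin 5 → Set V, (∀ i, (G.induce (f i)).Connected) ∧
      (∀ i j, i ≠ j → Disjoint (f i) (f j)) ∧
      (∀ i j, i ≠ j → ∃ u ∈ f i, ∃ v ∈ f j, G.Adj u v)) ∧
  (¬ ∃ f : Fin 3 ⊕ Fin 3 → Set V, (∀ i, (G.induce (f i)).Connected) ∧
      (∀ i j, i ≠ j → Disjoint (f i) (f j)) ∧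
      (∀ i j : Fin 3, ∃ u ∈ f (.inl i), ∃ v ∈ f (.inr j), G.Adj u v))

theorem Drawn.planar {G : SimpleGraph V} {px py : V → ℤ} (h : Drawn G px py) : Planar G :=
  ⟨no5 G px py h, no33 G px py h⟩

theorem Sep.swap1 {px py : V → ℤ} {u v x y : V} (h : Sep px py u v x y) : Sep px py v u x y := by
  rcases h with h | h
  · left
    have e : ori px py v u x * ori px py v u y = ori px py u v x * ori px py u v y := by
      simp only [ori]; ring
    rwa [e]
  · right; rwa [mul_comm]

theorem Sep.comm {px py : V → ℤ} {u v x y : V} (h : Sep px py u v x y) : Sep px py x y u v :=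
  Or.symm h

/-- the graph given by an edge list -/
def ofList (L : List (V × V)) : SimpleGraph V := SimpleGraph.fromRel fun u v => (u, v) ∈ L

theorem ofList_adj (L : List (V × V)) (u v : V) :
    (ofList L).Adj u v ↔ u ≠ v ∧ ((u, v) ∈ L ∨ (v, u) ∈ L) := SimpleGraph.fromRel_adj _ _ _

instance [DecidableEq V] (L : List (V × V)) : DecidableRel (ofList L).Adj := fun u v =>
  decidable_of_iff _ (ofList_adj L u v).symm

def posP (a b d : ℕ × ℕ) : ℕ := b.1 * d.2 + b.2 * a.1 + a.2 * d.1

def negP (a b d : ℕ × ℕ) : ℕ := b.1 * a.2 + a.1 * d.2 + b.2 * d.1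

def side (a b d e : ℕ × ℕ) : Bool :=
  (Nat.blt (negP a b d) (posP a b d) && Nat.blt (negP a b e) (posP a b e)) ||
    (Nat.blt (posP a b d) (negP a b d) && Nat.blt (posP a b e) (negP a b e))

theorem side_ok (q : V → ℕ × ℕ) (u v x y : V) (h : side (q u) (q v) (q x) (q y) = true) :
    0 < ori (fun w => ((q w).1 : ℤ)) (fun w => ((q w).2 : ℤ)) u v x *
      ori (fun w => ((q w).1 : ℤ)) (fun w => ((q w).2 : ℤ)) u v y := by
  have e : ∀ z, ori (fun w => ((q w).1 : ℤ)) (fun w => ((q w).2 : ℤ)) u v z =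
      (posP (q u) (q v) (q z) : ℤ) - (negP (q u) (q v) (q z) : ℤ) := by
    intro z
    simp only [ori, posP, negP]
    push_cast
    ring
  rw [e, e]
  simp only [side, Bool.or_eq_true, Bool.and_eq_true, Nat.blt_eq] at h
  rcases h with ⟨h1, h2⟩ | ⟨h1, h2⟩
  · exact mul_pos (by omega) (by omega)
  · exact mul_pos_of_neg_of_neg (by omega) (by omega)

def okPair [DecidableEq V] (q : V → ℕ × ℕ) (e f : V × V) : Bool :=
  decide (e.1 = f.1) || decide (e.1 = f.2) || decide (e.2 = f.1) || decide (e.2 = f.2) ||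
    side (q e.1) (q e.2) (q f.1) (q f.2) || side (q f.1) (q f.2) (q e.1) (q e.2)

def okList [DecidableEq V] (q : V → ℕ × ℕ) : List (V × V) → Bool
  | [] => true
  | e :: t => t.all (okPair q e) && okList q t

theorem okList_ok [DecidableEq V] (q : V → ℕ × ℕ) : ∀ L : List (V × V), okList q L = true →
    ∀ e ∈ L, ∀ f ∈ L, e.1 ≠ f.1 → e.1 ≠ f.2 → e.2 ≠ f.1 → e.2 ≠ f.2 →
      Sep (fun w => ((q w).1 : ℤ)) (fun w => ((q w).2 : ℤ)) e.1 e.2 f.1 f.2 := by
  have one : ∀ e f : V × V, okPair q e f = true → e.1 ≠ f.1 → e.1 ≠ f.2 → e.2 ≠ f.1 → e.2 ≠ f.2 →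
      Sep (fun w => ((q w).1 : ℤ)) (fun w => ((q w).2 : ℤ)) e.1 e.2 f.1 f.2 := by
    intro e f h a b c d
    simp only [okPair, a, b, c, d, decide_false, Bool.false_or, Bool.or_eq_true] at h
    rcases h with h | h
    · exact Or.inl (side_ok q _ _ _ _ h)
    · exact Or.inr (side_ok q _ _ _ _ h)
  intro L
  induction L with
  | nil => intro _ e he; simp at he
  | cons g t ih =>
    intro h e he f hf a b c d
    simp only [okList, Bool.and_eq_true, List.all_eq_true] at h
    rcases List.mem_cons.1 he with rfl | he' <;> rcases List.mem_cons.1 hf with rfl | hf'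
    · exact (a rfl).elim
    · exact one _ _ (h.1 f hf') a b c d
    · exact (one _ _ (h.1 e he') a.symm c.symm b.symm d.symm).comm
    · exact ih h.2 e he' f hf' a b c d

theorem drawn_ofList [DecidableEq V] (q : V → ℕ × ℕ) (L : List (V × V))
    (h : okList q L = true) :
    Drawn (ofList L) (fun w => ((q w).1 : ℤ)) (fun w => ((q w).2 : ℤ)) := by
  intro u v x y h1 h2 a b c d
  have k := okList_ok q L h
  rcases ((ofList_adj L u v).1 h1).2 with e | e <;> rcases ((ofList_adj L x y).1 h2).2 with f | f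
  · exact k _ e _ f a b c d
  · exact (k _ e _ f b a d c).comm.swap1.comm
  · exact (k _ e _ f c d a b).swap1
  · exact (k _ e _ f d c b a).swap1.comm.swap1.comm

theorem planar_ofList [DecidableEq V] (q : V → ℕ × ℕ) (L : List (V × V))
    (h : okList q L = true) : Planar (ofList L) := (drawn_ofList q L h).planar

end Pool.Agent.Lib.helper4.Planar
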