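import Pool.Agent.Lib.lead.CXNP

/-! Membership in PSPACE: closure properties, game trees of polynomial depth, Savitch's theorem. -/

set_option autoImplicit false

namespace Pool.Agent.Lib.CX

open Function

variable {α β γ σ : Type} [Enc α] [Enc β] [Enc γ] [Enc σ]

theorem InPSPACE.red {A : α → Prop} {B : β → Prop} (h : InPSPACE B) (h' : Red A B) : InPSPACE A := by
  obtain ⟨g, hg, e⟩ := h
  obtain ⟨f, hf, e'⟩ := h'
  obtain ⟨p, N, hN, h⟩ := PSp_iff.1 hg
  obtain ⟨p0, N0, hN0, h0⟩ := PT_iff.1 hf
  refine ⟨fun a => g (f a), PSp_iff.2 ⟨.seq p0 p, fun a => size a + N0 a + N (f a),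
    (PB.size'.add hN0).add (hN.comp hf), fun a => ?_⟩, fun a => (e' a).trans (e _)⟩
  obtain ⟨n, e1⟩ := h (f a)
  obtain ⟨n0, e0⟩ := Exec.of_X (h0 a)
  exact ⟨_, .seq (e0.mono (Nat.le_add_right _ _)) (e1.mono (Nat.le_add_left _ _))⟩

theorem InPSPACE.not {A : α → Prop} (h : InPSPACE A) : InPSPACE fun a => ¬ A a := by
  obtain ⟨g, hg, e⟩ := h
  obtain ⟨p, N, hN, h⟩ := PSp_iff.1 hg
  obtain ⟨p0, N0, ⟨q, hq⟩, h0⟩ := PT_iff.1 (show PT fun b : Bool => !b by fun_prop)
  refine ⟨fun a => !g a, PSp_iff.2 ⟨.seq p p0, fun a => N a + (2 + q.eval 2),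
    hN.add (PB.const _), fun a => ?_⟩, fun a => by simp [e]⟩
  obtain ⟨n, e1⟩ := h a
  obtain ⟨n0, e0⟩ := Exec.of_X (h0 (g a))
  have := hq (g a)
  have h2 : (enc (g a)).length = 2 := rfl
  rw [size_bool] at this
  exact ⟨_, .seq (e1.mono (Nat.le_add_right _ _)) (e0.mono (by beta_reduce; omega))⟩

theorem InPSPACE.of_iff {A B : α → Prop} (h : InPSPACE B) (e : ∀ a, A a ↔ B a) : InPSPACE A :=
  h.red ⟨_, PT.id, e⟩

/-- normal-play game trees: `ch a s` lists the moves, `W a s` says that the player to move wins -/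
theorem InPSPACE.of_game (ch : α → σ → List σ) (i : α → σ) (B : α → ℕ) (P W : α → σ → Prop) (ρ : α → σ → ℕ)
    (hch : PT fun x : α × σ => ch x.1 x.2) (hi : PT i) (hB : PB B) (h0 : ∀ a, P a (i a) ∧ ρ a (i a) ≤ B a)
    (h1 : ∀ a s, P a s → size (ch a s) ≤ B a ∧ (∀ t ∈ ch a s, P a t ∧ ρ a t < ρ a s) ∧
      (W a s ↔ ∃ t ∈ ch a s, ¬ W a t)) : InPSPACE fun a => W a (i a) := by
  classical
  let g : α × List (List σ) × Bool × Bool → α × List (List σ) × Bool × Bool := fun s =>
    if s.2.2.1 = true then (if s.2.2.2 = true then (s.1, (s.2.1.headD []).tail :: s.2.1.tail, false, false)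
      else (s.1, s.2.1.tail, true, true))
    else if s.2.1.headD [] = [] then (s.1, s.2.1.tail, true, false)
    else (s.1, ch s.1 ((s.2.1.headD []).headD (i s.1)) :: s.2.1, false, false)
  refine ⟨fun a => decide (W a (i a)), PSp.loop (g := g) (c := fun s => decide (s.2.1 ≠ []))
    (i := fun a => (a, [ch a (i a)], false, false)) (o := fun s => s.2.2.2)
    (B := fun a => size a + (B a + 2) * (B a + 1) + 9) (by simp only [g]; fun_prop) (by fun_prop)
    (by fun_prop) (by fun_prop) (by have := PB.size' (α := α); fun_prop) fun a => ?_, by simp⟩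
  let Run : α × List (List σ) × Bool × Bool → α × List (List σ) × Bool × Bool → Prop := fun s t =>
    ∃ k, g^[k] s = t ∧ ∀ j < k, (g^[j] s).2.1 ≠ [] ∧ size (g^[j] s) ≤ size a + (B a + 2) * (B a + 1) + 9
  have tr : ∀ s t u, Run s t → Run t u → Run s u := by
    rintro s _ _ ⟨k, rfl, h2⟩ ⟨l, rfl, h3⟩
    refine ⟨l + k, iterate_add_apply .., fun j hj => ?_⟩
    rcases lt_or_ge j k with h | h
    · exact h2 j h
    · obtain ⟨j, rfl⟩ := Nat.exists_eq_add_of_le' h
      rw [iterate_add_apply]
      exact h3 j (by omega)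
  have one : ∀ l (r : List (List σ)) z, r.length ≤ B a + 1 → (∀ m ∈ l :: r, size m ≤ B a) →
      Run (a, l :: r, z) (g (a, l :: r, z)) := fun l r z h2 h3 => ⟨1, rfl, fun j hj => by
    obtain rfl : j = 0 := by omega
    have := size_list_le h3
    have h4 := Nat.mul_le_mul_right (B a + 1) (show (l :: r).length ≤ B a + 2 by simpa)
    obtain ⟨x, y⟩ := z
    simp only [iterate_zero, id, size_pair, size_bool]
    exact ⟨by simp, by omega⟩⟩
  have key : ∀ d l (r : List (List σ)), (∀ t ∈ l, P a t ∧ ρ a t < d) → r.length + d ≤ B a + 1 →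
      (∀ m ∈ l :: r, size m ≤ B a) → Run (a, l :: r, false, false) (a, r, true, decide (∃ t ∈ l, ¬ W a t)) := by
    intro d
    induction d using Nat.strong_induction_on with
    | _ d ih =>
    intro l
    induction l with
    | nil => exact fun r _ h3 h4 => by simpa [g] using one [] r (false, false) (by omega) h4
    | cons t l il =>
      intro r h2 h3 h4
      obtain ⟨⟨p1, p2⟩, h2⟩ := List.forall_mem_cons.1 h2
      obtain ⟨q1, q2, q3⟩ := h1 a t p1
      refine tr _ _ _ (one _ r _ (by omega) h4) (tr _ _ _ (ih _ p2 (ch a t) ((t :: l) :: r) q2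
        (by simp; omega) (List.forall_mem_cons.2 ⟨q1, h4⟩)) (tr _ _ _ (one _ r _ (by omega) h4) ?_))
      by_cases h : W a t
      · rw [decide_eq_true (q3.1 h)]
        simpa [g, h] using il r h2 h3 (by
          simp only [List.forall_mem_cons, size_cons] at h4 ⊢
          exact ⟨by omega, h4.2⟩)
      · rw [decide_eq_false (mt q3.2 h)]
        exact ⟨0, by simp [g, h], by simp⟩
  obtain ⟨q1, q2, q3⟩ := h1 a _ (h0 a).1
  obtain ⟨k, e, h⟩ := key _ _ [] q2 (by have := (h0 a).2; simp; omega) (by simpa)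
  refine ⟨k, fun j hj => by simpa using (h j hj).1, by simp [e], by simp [e, q3], fun j hj => ?_⟩
  rcases hj.eq_or_lt with rfl | hj
  · simp [e, size_pair]
  · exact (h j hj).2

theorem pad' [Dec γ] (c : γ) (k : ℕ) (h : size c ≤ k) :
    ∃ y : List Bool, y.length = 2 * k ∧ Dec.dec (parse y) = c := by
  have h1 := post_length (Enc.tr c)
  have h2 : size (Enc.tr c) = size c := rfl
  exact ⟨(Enc.tr c).post ++ List.replicate (2 * k - (Enc.tr c).post.length) false, by simp; omega,
    by simp only [parse, List.foldl_append, parse_post, parse_pad, List.headD_cons, Dec.dec_tr]⟩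

def SR (E : List Bool → List Bool → Prop) (n : ℕ) : ℕ → List Bool → List Bool → Prop
  | 0, x, y => E x y
  | k + 1, x, y => ∃ z : List Bool, z.length = n ∧ SR E n k x z ∧ SR E n k z y

def SP (E : List Bool → List Bool → Prop) (n j : ℕ) (x y : List Bool) : Prop :=
  ∃ f : ℕ → List Bool, f 0 = x ∧ f j = y ∧ (∀ i < j, E (f i) (f (i + 1))) ∧ ∀ i, 0 < i → i < j → (f i).length = n

theorem SR_of {E : List Bool → List Bool → Prop} {n : ℕ} (hE : ∀ x, x.length = n → E x x) {j x y}
    (hj : 2 ≤ j) (h : SP E n j x y) : SR E n (n + 1) x y := by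
  have a : ∀ k x y, SP E n (2 ^ k) x y → SR E n k x y := fun k => by
    induction k with
    | zero => rintro _ _ ⟨f, rfl, rfl, h, -⟩; exact h 0 (by simp)
    | succ k ih =>
      rintro _ _ ⟨f, rfl, rfl, h1, h2⟩
      have := Nat.two_pow_pos k
      exact ⟨f (2 ^ k), h2 _ this (by omega), ih _ _ ⟨f, rfl, rfl, fun i _ => h1 i (by omega),
        fun i a _ => h2 i a (by omega)⟩, ih _ _ ⟨fun i => f (2 ^ k + i), rfl, by rw [pow_succ, mul_two],
          fun i _ => h1 _ (by omega), fun i _ _ => h2 _ (by omega) (by omega)⟩⟩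
  have b : ∀ d j, 2 ≤ j → SP E n j x y → SP E n (j + d) x y := fun d => by
    induction d with
    | zero => exact fun _ _ h => h
    | succ d ih =>
      intro j hj h
      obtain ⟨f, h0, h3, h1, h2⟩ := ih j hj h
      refine ⟨fun i => f (if i ≤ 1 then i else i - 1), h0, by beta_reduce; rw [if_neg (by omega)]; exact h3,
        fun i hi => ?_, fun i _ _ => h2 _ (by split_ifs <;> omega) (by split_ifs <;> omega)⟩
      rcases i with _ | _ | i
      exacts [h1 0 (by omega), hE _ (h2 1 (by omega) (by omega)), by simpa using h1 (i + 1) (by omega)]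
  refine a _ _ _ ?_
  induction j using Nat.strong_induction_on with
  | _ j ih =>
  rcases le_or_gt j (2 ^ (n + 1)) with h1 | h1
  · obtain ⟨d, e⟩ := Nat.exists_eq_add_of_le h1
    exact e ▸ b d j hj h
  · obtain ⟨f, h0, h3, h4, h2⟩ := h
    have := Nat.two_pow_pos n
    obtain ⟨u, v, uv, e⟩ : ∃ u v, u < v ∧ f (u + 1) = f (v + 1) ∧ v ≤ 2 ^ n := by
      obtain ⟨u, v, uv, e⟩ := Fintype.exists_ne_map_eq_of_card_lt (β := List.Vector Bool n)
        (fun i : Fin (2 ^ n + 1) => ⟨f (i + 1), h2 _ (by omega) (by omega)⟩) (by simp)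
      have e := congrArg Subtype.val e
      rcases lt_or_gt_of_ne (Fin.val_ne_of_ne uv) with h | h
      exacts [⟨u, v, h, e, by omega⟩, ⟨v, u, h, e.symm, by omega⟩]
    refine ih (j - (v - u)) (by omega) (by omega) ⟨fun i => f (if i ≤ u + 1 then i else i + (v - u)),
      by simpa, by beta_reduce; rw [if_neg (by omega), Nat.sub_add_cancel (by omega), h3], fun i hi => ?_,
      fun i _ _ => h2 _ (by split_ifs <;> omega) (by split_ifs <;> omega)⟩
    beta_reduce
    split_ifs with c1 c2 c2
    · exact h4 i (by omega)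
    · rw [show i = u + 1 by omega, e.1, show u + 1 + 1 + (v - u) = v + 1 + 1 by omega]
      exact h4 _ (by omega)
    · omega
    · rw [Nat.add_right_comm]
      exact h4 _ (by omega)

theorem SR_psp (E : α → List Bool → List Bool → Bool) (n : α → ℕ) (x y : α → List Bool)
    (hE : PT fun p : α × List Bool × List Bool => E p.1 p.2.1 p.2.2) (hn : PT n) (hn' : PB n) (hx : PT x)
    (hy : PT y) (h0 : ∀ a, 0 < n a ∧ (x a).length ≤ n a + 1 ∧ (y a).length ≤ n a + 1) :
    InPSPACE fun a => SR (fun x y => E a x y = true) (n a) (n a + 1) (x a) (y a) := by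
  refine (InPSPACE.of_game (σ := ℕ × List Bool × List Bool × List Bool × Bool) (fun a s =>
    if s.1 = 0 then (if s.2.2.2.2 = true ∧ E a s.2.1 s.2.2.1 = true then [(0, [], [], [], false)] else [])
    else if s.2.2.2.2 = true then
      [(s.1, s.2.1, s.2.2.1, false :: s.2.2.2.1, false), (s.1, s.2.1, s.2.2.1, true :: s.2.2.2.1, false)]
    else if s.2.2.2.1.length = n a then
      [(s.1 - 1, s.2.1, s.2.2.2.1, [], true), (s.1 - 1, s.2.2.2.1, s.2.2.1, [], true)]
    else [(s.1, s.2.1, s.2.2.1, s.2.2.2.1, true)]) (fun a => (n a + 1, x a, y a, [], true))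
    (fun a => (n a + 2) * (2 * n a + 2) + 30 * n a + 70)
    (fun a s => s.1 ≤ n a + 1 ∧ s.2.1.length ≤ n a + 1 ∧ s.2.2.1.length ≤ n a + 1 ∧
      s.2.2.2.1.length + (if s.2.2.2.2 = true then 1 else 0) ≤ n a)
    (fun a s => if s.1 = 0 then s.2.2.2.2 = true ∧ E a s.2.1 s.2.2.1 = true else (s.2.2.2.2 = true ↔
      ∃ z : List Bool, (z ++ s.2.2.2.1).length = n a ∧
        SR (fun x y => E a x y = true) (n a) (s.1 - 1) s.2.1 (z ++ s.2.2.2.1) ∧
        SR (fun x y => E a x y = true) (n a) (s.1 - 1) (z ++ s.2.2.2.1) s.2.2.1))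
    (fun a s => s.1 * (2 * n a + 2) + if s.1 = 0 then (if s.2.2.2.2 = true then 1 else 0) else
      2 * (n a - s.2.2.2.1.length) + if s.2.2.2.2 = true then 0 else 1)
    (by fun_prop) (by fun_prop) (by fun_prop) (fun a => ?_) ?_).of_iff fun a => by simp [SR]
  · have := h0 a
    simp only [List.length_nil, if_true, Nat.add_eq_zero_iff, one_ne_zero, and_false, if_false]
    exact ⟨by omega, by rw [Nat.sub_zero]; nlinarith⟩
  · rintro a ⟨k, x, y, m, p⟩ ⟨h1, h2, h3, h4⟩
    have := (h0 a).1
    have := size_nat_le k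
    have := size_nat_le (k - 1)
    have w : ∀ k x y, SR (fun x y => E a x y = true) (n a) k x y ↔ if k = 0 then E a x y = true else
        ∃ z : List Bool, z.length = n a ∧ SR (fun x y => E a x y = true) (n a) (k - 1) x z ∧
          SR (fun x y => E a x y = true) (n a) (k - 1) z y := fun k x y => by cases k <;> simp [SR]
    have s0 : size (0 : ℕ) = 2 := rfl
    dsimp only at *
    rcases k with _ | k
    · by_cases c : p = true ∧ E a x y = true
      · simp [size_pair, c, s0]
      · simp [c]
    simp only [Nat.add_eq_zero_iff, one_ne_zero, and_false, if_false, Nat.add_sub_cancel] at *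
    cases p
    · simp only [Bool.false_eq_true, if_false, false_iff]
      split_ifs with c
      · simp only [size_cons, size_pair, size_bits, size_nil, size_bool, List.mem_cons, List.not_mem_nil,
          or_false, exists_eq_or_imp, exists_eq_left, true_iff, List.append_nil, true_and, ← w, Nat.succ_mul]
        refine ⟨by omega, by simp; split_ifs <;> omega, ?_⟩
        rw [← not_and_or]
        exact not_congr ⟨fun ⟨z, e, h⟩ => by
          obtain rfl : z = [] := by simpa [c] using e
          exact h, fun h => ⟨[], c, h⟩⟩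
      · simp [size_pair, size_bits] at *
        omega
    · simp only [size_cons, size_pair, size_bits, size_nil, size_bool, if_false, if_true, Bool.false_eq_true, List.mem_cons, List.not_mem_nil,
        or_false, exists_eq_or_imp, exists_eq_left, false_iff, not_not, true_iff, Nat.add_eq_zero_iff,
        one_ne_zero, and_false, Nat.add_sub_cancel] at h4 ⊢
      refine ⟨by omega, by simp; omega, fun ⟨z, e, h⟩ => ?_, ?_⟩
      · rcases z.eq_nil_or_concat' with rfl | ⟨z, _ | _, rfl⟩
        · simp at e; omega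
        · exact .inl ⟨z, by simpa using And.intro e h⟩
        · exact .inr ⟨z, by simpa using And.intro e h⟩
      · rintro (⟨z, h⟩ | ⟨z, h⟩) <;> exact ⟨z ++ [_], by simpa using h⟩

/-- Savitch's theorem: reachability along a polynomial-time relation through states of polynomial size -/
theorem InPSPACE.of_reach [Dec γ] (E : α → γ → γ → Prop) (F : α → γ → Prop) (i : α → γ) (B : α → ℕ)
    {d1 : ∀ a s t, Decidable (E a s t)} {d2 : ∀ a s, Decidable (F a s)}
    (hE : PT fun p : α × γ × γ => @decide (E p.1 p.2.1 p.2.2) (d1 ..))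
    (hF : PT fun p : α × γ => @decide (F p.1 p.2) (d2 ..)) (hi : PT i) (hB : PB B)
    (h : ∀ a t, Relation.ReflTransGen (E a) (i a) t → size t ≤ B a) :
    InPSPACE fun a => ∃ t, Relation.ReflTransGen (E a) (i a) t ∧ F a t := by
  classical
  obtain ⟨q, hq⟩ := hB
  let n : α → ℕ := fun a => 2 * (q.eval (size a) + 1)
  let d : α → List Bool → γ := fun a x => if x.length = n a then Dec.dec (parse x) else i a
  have hd : PT fun p : α × List Bool => d p.1 p.2 := by
    have := Dec.pt (γ := γ)
    have := PT.parse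
    simp only [d, n]; fun_prop
  refine (SR_psp (fun a x y => if y = [] then decide (F a (d a x)) else
    decide (d a x = d a y) || decide (E a (d a x) (d a y))) n (fun a => List.replicate (n a + 1) false)
    (fun _ => []) ?_ (by simp only [n]; fun_prop) (by simp only [n]; fun_prop) (by simp only [n]; fun_prop)
    (by fun_prop) (by simp [n])).of_iff fun a => ⟨fun ⟨t, h1, h2⟩ => ?_, fun h1 => ?_⟩
  · generalize d = d at hd
    have h1 : PT fun p : α × List Bool × List Bool => decide (E p.1 (d p.1 p.2.1) (d p.1 p.2.2)) :=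
      hE.comp (g := fun p : α × List Bool × List Bool => (p.1, d p.1 p.2.1, d p.1 p.2.2)) (by fun_prop)
    have h2 : PT fun p : α × List Bool × List Bool => decide (F p.1 (d p.1 p.2.1)) :=
      hF.comp (g := fun p : α × List Bool × List Bool => (p.1, d p.1 p.2.1)) (by fun_prop)
    exact PT.ite (by fun_prop) h2 (PT.or (by fun_prop) h1)
  · have ex : ∀ t, Relation.ReflTransGen (E a) (i a) t → ∃ y : List Bool, y.length = n a ∧ d a y = t :=
      fun t h1 => by
        obtain ⟨y, h2, h3⟩ := pad' t (q.eval (size a) + 1) ((h a t h1).trans ((hq a).trans (by omega)))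
        exact ⟨y, h2, (if_pos h2).trans h3⟩
    have ne : ∀ y : List Bool, y.length = n a → y ≠ [] := by rintro _ h rfl; simp [n] at h
    suffices ∃ j, ∃ y : List Bool, y.length = n a ∧ d a y = t ∧ SP (fun x y => (if y = [] then
        decide (F a (d a x)) else decide (d a x = d a y) || decide (E a (d a x) (d a y))) = true) (n a)
        (j + 1) (List.replicate (n a + 1) false) y by
      obtain ⟨j, y, h3, rfl, f, f0, rfl, f1, f2⟩ := this
      refine SR_of (j := j + 2) (fun x hx => by simp [ne x hx]) (by omega)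
        ⟨fun k => if k ≤ j + 1 then f k else [], by simpa, by simp, fun k hk => ?_, fun k h4 h5 => ?_⟩
      · rcases (Nat.le_of_lt_succ hk).eq_or_lt with rfl | hk
        · simp [h2]
        · simpa only [hk.le, if_true, Nat.succ_le_of_lt hk] using f1 k hk
      · rcases (Nat.le_of_lt_succ h5).eq_or_lt with rfl | hk
        · simpa
        · simpa only [hk.le, if_true] using f2 k h4 hk
    clear h2
    induction h1 with
    | refl =>
      obtain ⟨y, h2, h3⟩ := ex _ .refl
      refine ⟨0, y, h2, h3, fun k => if k = 0 then List.replicate (n a + 1) false else y, rfl, rfl,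
        fun k hk => ?_, by omega⟩
      obtain rfl : k = 0 := by omega
      simp [ne y h2, h3, show d a (List.replicate (n a + 1) false) = i a by simp [d]]
    | tail h1 h2 ih =>
      obtain ⟨j, y, h3, rfl, f, f0, rfl, f1, f2⟩ := ih
      obtain ⟨z, h4, rfl⟩ := ex _ (h1.tail h2)
      refine ⟨j + 1, z, h4, rfl, fun k => if k ≤ j + 1 then f k else z, by simpa, by simp,
        fun k hk => ?_, fun k h4 h5 => ?_⟩
      · rcases (Nat.le_of_lt_succ hk).eq_or_lt with rfl | hk
        · simp [h2, ne z h4]
        · simpa only [hk.le, if_true, Nat.succ_le_of_lt hk] using f1 k hk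
      · rcases (Nat.le_of_lt_succ h5).eq_or_lt with rfl | hk
        · simpa
        · simpa only [hk.le, if_true] using f2 k h4 hk
  · have : ∀ k x y, SR (fun x y => (if y = [] then decide (F a (d a x)) else
        decide (d a x = d a y) || decide (E a (d a x) (d a y))) = true) (n a) k x y →
        ∃ t, Relation.ReflTransGen (E a) (d a x) t ∧ if y = [] then F a t else t = d a y := fun k => by
      induction k with
      | zero =>
        intro x y h1
        by_cases h : y = []
        · exact ⟨_, .refl, by simpa [SR, h] using h1⟩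
        · simp only [SR, h, if_false, Bool.or_eq_true, decide_eq_true_eq] at h1 ⊢
          exact ⟨_, h1.elim (· ▸ .refl) .single, rfl⟩
      | succ k ih =>
        rintro x y ⟨z, h1, h2, h3⟩
        obtain ⟨t, h4, h5⟩ := ih _ _ h2
        obtain ⟨u, h6, h7⟩ := ih _ _ h3
        rw [if_neg (by rintro rfl; simp [n] at h1)] at h5
        exact ⟨u, h4.trans (h5 ▸ h6), h7⟩
    simpa [d] using this _ _ _ h1

end Pool.Agent.Lib.CX
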