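import Pool.Agent.Lib.helper4.CXExpDefs
import Pool.Agent.Lib.helper4.CXPspM
import Pool.Agent.Lib.helper26.CXFpt

/-! Membership in EXPTIME: safety games on states of polynomial size. -/

set_option autoImplicit false

namespace Pool.Agent.Lib.CX

open Function

variable {α β γ σ : Type} [Enc α] [Enc β] [Enc γ] [Enc σ]

def allb : ℕ → List (List Bool)
  | 0 => [[]]
  | k + 1 => (allb k).flatMap fun y => [false :: y, true :: y]

theorem mem_allb (k : ℕ) : ∀ y, y ∈ allb k ↔ y.length = k := by
  induction k with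
  | zero => simp [allb]
  | succ k ih => rintro (_ | ⟨_ | _, y⟩) <;> simp [allb, ih]

theorem allb_length (k : ℕ) : (allb k).length = 2 ^ k := by
  induction k with
  | zero => rfl
  | succ k ih => simp [allb, List.length_flatMap, ih, pow_succ]

theorem InEXP.of_allb {A : α → Prop} {m : α → ℕ} (hm : PT m) (hm' : PB m) {V : α × List (List Bool) → Bool}
    (hV : PT V) (h : ∀ a, A a ↔ V (a, allb (m a)) = true) : InEXP A := by
  let g : α × List (List Bool) → α × List (List Bool) := fun s => (s.1, s.2.flatMap fun y => [false :: y, true :: y])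
  have key : ∀ a j, g^[j] (a, [[]]) = (a, allb j) := fun a j => by
    induction j with
    | zero => rfl
    | succ j ih => rw [iterate_succ_apply', ih]; rfl
  have hd : ∀ j, ((allb j).headD []).length = j := fun j => by
    have := allb_length j
    rcases h : allb j with _ | ⟨y, l⟩
    · simp [h] at this
      exact absurd this.symm (Nat.two_pow_pos j).ne'
    · exact (mem_allb j y).1 (by simp [h])
  obtain ⟨p, r, hr⟩ := loopT (g := g) (c := fun s => decide ((s.2.headD []).length < m s.1))
    (i := fun a => (a, [[]])) (by simp only [g]; fun_prop) (by fun_prop) (by fun_prop) hV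
  obtain ⟨q, hq⟩ := hm'
  obtain ⟨d, hd'⟩ := eval_mul_le r
  refine ⟨p, (2 * q + Polynomial.X + 3) * Polynomial.C d + Polynomial.C (r.eval 1), fun a => ?_⟩
  have h1 := hq a
  have h2 : 2 ^ (2 * m a + size a + 3) = 2 ^ m a * 2 ^ m a * 2 ^ size a * 8 := by ring
  have h3 := (m a).lt_two_pow_self
  have h4 := (size a).lt_two_pow_self
  obtain ⟨n, hn, k, e⟩ := hr a (2 ^ (2 * m a + size a + 3)) (m a)
    (Nat.lt_two_pow_self.le.trans (Nat.pow_le_pow_right (by omega) (by omega)))
    (Nat.lt_two_pow_self.le.trans (Nat.pow_le_pow_right (by omega) (by omega)))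
    (fun j hj => by simp only [key, hd, hj, decide_true]) (by simp only [key, hd, lt_irrefl, decide_false])
    fun j hj => by
      have h5 := size_list_le (l := allb j) (B := 3 * m a + 2) fun y hy => by
        rw [size_bits, (mem_allb j y).1 hy]; omega
      have h6 := Nat.mul_le_mul_right (3 * m a + 2 + 1) (Nat.pow_le_pow_right (show 0 < 2 by omega) hj)
      rw [key, size_pair, h2]
      rw [allb_length] at h5
      have h7 := Nat.mul_le_mul_left (2 ^ m a) (show 3 * m a + 2 + 1 ≤ 2 ^ m a * 3 by omega)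
      have h8 : 1 ≤ 2 ^ m a * 2 ^ m a := Nat.mul_pos (by omega) (by omega)
      nlinarith
  refine ⟨_, n, k, hn.trans ?_, by simpa [io_eq] using e, by rw [key]; exact h a⟩
  have h5 := hd' (2 ^ (2 * m a + size a + 3)) 1 (Nat.two_pow_pos _)
  rw [mul_one, ← pow_mul] at h5
  refine h5.trans ((Nat.mul_le_mul_left _ Nat.lt_two_pow_self.le).trans ?_)
  rw [← pow_add]
  refine Nat.pow_le_pow_right (by omega) ?_
  simp only [Polynomial.eval_add, Polynomial.eval_mul, Polynomial.eval_X, Polynomial.eval_C,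
    Polynomial.eval_ofNat]
  exact Nat.add_le_add_right (Nat.mul_le_mul_right _ (by omega)) _

theorem InEXP.red {A : α → Prop} {B : β → Prop} (h : InEXP B) (h' : Red A B) : InEXP A := by
  obtain ⟨f, hf, e⟩ := h'
  obtain ⟨p, q, h⟩ := h
  obtain ⟨q2, h2⟩ := PB.size hf
  obtain ⟨p1, q1, h1⟩ := hf
  refine ⟨.seq p1 p, q1 + q.comp q2 + 1, fun a => ?_⟩
  obtain ⟨n1, m1, b1, x1⟩ := h1 a
  obtain ⟨r, n, m, b, x, hr⟩ := h (f a)
  refine ⟨r, n1 + n + 1, max m1 m, ?_, .seq (x1.mono (le_max_left _ _)) (x.mono (le_max_right _ _)),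
    (e a).trans hr⟩
  have c1 := b.trans (Nat.pow_le_pow_right (by omega) (eval_mono q (h2 a)))
  have c2 := (q1.eval (size a)).lt_two_pow_self
  simp only [Polynomial.eval_add, Polynomial.eval_comp, Polynomial.eval_one, pow_add]
  have := Nat.two_pow_pos (q.eval (q2.eval (size a)))
  nlinarith

theorem InEXP.of_iff {A B : α → Prop} (h : InEXP B) (e : ∀ a, A a ↔ B a) : InEXP A := h.red ⟨_, PT.id, e⟩

/-- a safety game: the defender answers every challenge `c` by moving to another state of `W` -/
theorem InEXP.of_safe [Dec σ] {A : α → Prop} (I : α → σ → Prop) (ch : α → List γ) (E : α → σ → γ → σ → Prop)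
    (B : α → ℕ) {d1 : ∀ a s, Decidable (I a s)} {d2 : ∀ a s c t, Decidable (E a s c t)}
    (hI : PT fun p : α × σ => @decide (I p.1 p.2) (d1 ..)) (hc : PT ch)
    (hE : PT fun p : α × σ × γ × σ => @decide (E p.1 p.2.1 p.2.2.1 p.2.2.2) (d2 ..)) (hB : PB B)
    (sound : ∀ a (W : σ → Prop), (∃ s, W s ∧ I a s) → (∀ s, W s → ∀ c ∈ ch a, ∃ t, W t ∧ E a s c t) → A a)
    (complete : ∀ a, A a → ∃ W : σ → Prop, (∃ s, W s ∧ I a s) ∧
      ∀ s, W s → size s ≤ B a ∧ ∀ c ∈ ch a, ∃ t, W t ∧ E a s c t) : InEXP A := by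
  obtain ⟨q, hq⟩ := hB
  obtain ⟨e, he, he'⟩ : ∃ e : α × σ × γ × σ → Bool, PT e ∧ ∀ a s c t, e (a, s, c, t) = true ↔ E a s c t :=
    ⟨_, hE, by simp⟩
  obtain ⟨i, hi, hi'⟩ : ∃ i : α × σ → Bool, PT i ∧ ∀ a s, i (a, s) = true ↔ I a s := ⟨_, hI, by simp⟩
  let F : α → List σ → List σ := fun a L => L.filter fun s => (ch a).all fun c => L.any fun t => e (a, s, c, t)
  have sub : ∀ a L n, ((F a)^[n] L).Sublist L := fun a L n => by
    induction n with
    | zero => exact .refl _
    | succ n ih => rw [iterate_succ_apply']; exact List.filter_sublist.trans ih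
  have fix : ∀ a L n, ((F a)^[n] L).length + n ≤ L.length ∨ F a ((F a)^[n] L) = (F a)^[n] L := fun a L n => by
    induction n with
    | zero => simp
    | succ n ih =>
      rw [iterate_succ_apply']
      by_cases h : F a ((F a)^[n] L) = (F a)^[n] L
      · exact .inr (by rw [h, h])
      · have h1 : (F a ((F a)^[n] L)).Sublist ((F a)^[n] L) := List.filter_sublist
        have := h1.length_le.lt_of_ne fun h2 => h (h1.eq_of_length h2)
        exact .inl (by have := ih.resolve_right h; omega)
  have hF : PT fun p : α × List σ => (F p.1)^[p.2.length + 1] p.2 :=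
    PT.iterate (F := fun p : α × List σ => F p.1) (B := fun p => size p.2) (by simp only [F]; fun_prop)
      (by fun_prop) (by fun_prop) (by fun_prop) (by fun_prop) fun p k _ => size_sublist (sub ..)
  have hp := PT.parse
  have hd := Dec.pt (γ := σ)
  refine InEXP.of_allb (m := fun a => 2 * q.eval (size a)) (by fun_prop) (by fun_prop)
    (V := fun p => ((F p.1)^[(p.2.map fun y => (Dec.dec (parse y) : σ)).length + 1]
      (p.2.map fun y => Dec.dec (parse y))).any fun s => i (p.1, s))
    (PT.any (by fun_prop) (hF.comp (g := fun p : α × List (List Bool) =>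
      (p.1, p.2.map fun y => (Dec.dec (parse y) : σ))) (by fun_prop))) fun a => ?_
  simp only [List.any_eq_true, hi']
  obtain ⟨L, hL⟩ : ∃ L, L = (allb (2 * q.eval (size a))).map fun y => (Dec.dec (parse y) : σ) := ⟨_, rfl⟩
  rw [← hL]
  constructor
  · intro h
    obtain ⟨W, ⟨s, h1, h2⟩, h3⟩ := complete a h
    refine ⟨s, ?_, h2⟩
    clear h2
    generalize L.length + 1 = n
    induction n generalizing s with
    | zero =>
      obtain ⟨y, h4, h5⟩ := pad' s _ ((h3 s h1).1.trans (hq a))
      exact hL ▸ List.mem_map.2 ⟨y, (mem_allb _ _).2 h4, h5⟩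
    | succ n ih =>
      rw [iterate_succ_apply']
      simp only [F, List.mem_filter, List.all_eq_true, List.any_eq_true, he']
      exact ⟨ih s h1, fun c hc => let ⟨t, h4, h5⟩ := (h3 s h1).2 c hc; ⟨t, ih t h4, h5⟩⟩
  · rintro ⟨s, h1, h2⟩
    have h3 := (fix a L (L.length + 1)).resolve_left (by omega)
    refine sound a (· ∈ (F a)^[L.length + 1] L) ⟨s, h1, h2⟩ fun t ht c hc => ?_
    rw [← h3] at ht
    simp only [F, List.mem_filter, List.all_eq_true, List.any_eq_true, he'] at ht
    exact ht.2 c hc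

end Pool.Agent.Lib.CX
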