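import Pool.Agent.Lib.helper4.CXExpH
import Pool.Agent.Lib.helper4.CXExpM

/-! An EXPTIME-hard reachability game: tokens with eight positions and guarded actions. -/

set_option autoImplicit false

namespace Pool.Agent.Lib.CX

open Function

theorem InEXP.not {α : Type} [Enc α] {A : α → Prop} (h : InEXP A) : InEXP fun a => ¬ A a := by
  obtain ⟨p, q, h⟩ := h
  obtain ⟨p0, q0, h0⟩ := show PT fun b : Bool => !b by fun_prop
  refine ⟨.seq p p0, q + Polynomial.C (q0.eval 2) + 1, fun a => ?_⟩
  obtain ⟨r, n, m, b, x, hr⟩ := h a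
  obtain ⟨n1, m1, b1, x1⟩ := h0 r
  refine ⟨!r, n + n1 + 1, max m m1, ?_, .seq (x.mono (le_max_left _ _)) (x1.mono (le_max_right _ _)), by simp [hr]⟩
  have c2 := (q0.eval 2).lt_two_pow_self
  have := Nat.two_pow_pos (q.eval (size a))
  simp only [Polynomial.eval_add, Polynomial.eval_C, Polynomial.eval_one, pow_add, size_bool] at *
  nlinarith

theorem EXPHard.not {β : Type} [Enc β] {B : β → Prop} (h : EXPHard B) : EXPHard fun b => ¬B b := fun _ hA =>
  let ⟨f, hf, e⟩ := h _ hA.not; ⟨f, hf, fun a => not_not.symm.trans (e a).not⟩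

theorem EXPHard.red {α β : Type} [Enc α] [Enc β] {A : α → Prop} {B : β → Prop} (h : EXPHard A) (h' : Red A B) :
    EXPHard B := fun L hL => (h L hL).trans h'

abbrev Q8 := (Bool × Bool) × Bool

/-- token, position, forbidden positions of other tokens, new positions -/
abbrev Act (K : Type) := K × Q8 × List (K × Q8) × List Q8

variable {K U : Type} [DecidableEq K] [DecidableEq U]

/-- the first player picks an enabled action, the second player picks the new position of the token and loses
if there is none; `AW A σ` says that the first player wins -/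
inductive AW (A : List (Act K)) : (K → Option Q8) → Prop
  | act {σ} (a) : a ∈ A → σ a.1 = some a.2.1 → (∀ w ∈ a.2.2.1, w.1 ≠ a.1 → σ w.1 ≠ some w.2) →
      (∀ t ∈ a.2.2.2, AW A (update σ a.1 (some t))) → AW A σ

/-- the listed tokens start at the same position -/
def GA (a : List K × List (Act K)) : Prop := AW a.2 fun k => if k ∈ a.1 then some ((false, false), false) else none

def q8 : List Q8 := ([false, true] ×ˢ [false, true]) ×ˢ [false, true]

theorem mem_q8 (q : Q8) : q ∈ q8 := by revert q; decide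

def gvars (R : List (ℕ × List ((Bool × U) × Bool))) : List U := R.flatMap fun C => C.2.map fun l => l.1.2

def gacts (R : List (ℕ × List ((Bool × U) × Bool))) : List (Act (Option U)) :=
  q8.flatMap fun q => (gvars R).map (fun x => (some x, q, (q8.filter fun t => t.2 ≠ q.2).map (none, ·),
      [((q.1.2, false), !q.2), ((q.1.2, true), !q.2)])) ++
    ([false, true].map (fun c => (none, q, (gvars R).flatMap fun x => (q8.filter fun t => t.2 = q.2).map (some x, ·),
      [((true, c), !q.2)])) ++
    (R.filter fun C => q.1 = (decide (C.1 < 2), decide (C.1 = 1 ∨ 2 < C.1))).map fun C =>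
      (none, q, C.2.flatMap fun l => (q8.filter fun t => t.2 = q.2 ∨
        (if l.1.1 = true ∨ C.1 = 2 then t.1.2 else t.1.1) = l.2).map (some l.1.2, ·), []))

theorem ga_iff (R : List (ℕ × List ((Bool × U) × Bool))) :
    ¬ Safe R ↔ GA (none :: (gvars R).map some, gacts R) := by
  have lv : ∀ C ∈ R, ∀ l ∈ C.2, l.1.2 ∈ gvars R := fun C hC l hl => List.mem_flatMap.2 ⟨C, hC, List.mem_map_of_mem hl⟩
  have ma : ∀ a, a ∈ gacts R ↔ (∃ x ∈ gvars R, ∃ q : Q8, (some x, q, (q8.filter fun t => t.2 ≠ q.2).map (none, ·),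
      [((q.1.2, false), !q.2), ((q.1.2, true), !q.2)]) = a) ∨ (∃ c, ∃ q : Q8, (none, q, (gvars R).flatMap fun x =>
      (q8.filter fun t => t.2 = q.2).map (some x, ·), [((true, c), !q.2)]) = a) ∨ ∃ C ∈ R, ∃ j,
      (none, ((decide (C.1 < 2), decide (C.1 = 1 ∨ 2 < C.1)), j), C.2.flatMap fun l => (q8.filter fun t => t.2 = j ∨
        (if l.1.1 = true ∨ C.1 = 2 then t.1.2 else t.1.1) = l.2).map (some l.1.2, ·), []) = a := fun a => by
    simp only [gacts, List.mem_flatMap, List.mem_append, List.mem_map, List.mem_filter, mem_q8, true_and,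
      show ∀ c, c ∈ [false, true] by decide, decide_eq_true_eq, exists_or]
    refine or_congr ⟨fun ⟨q, x, h⟩ => ⟨x, h.1, q, h.2⟩, fun ⟨x, h, q, h'⟩ => ⟨q, x, h, h'⟩⟩ (or_congr exists_comm
      ⟨fun ⟨q, C, h, h'⟩ => ⟨C, h.1, q.2, h.2 ▸ h'⟩, fun ⟨C, h, j, h'⟩ => ⟨(_, j), C, ⟨h, rfl⟩, h'⟩⟩)
  constructor
  · intro h
    by_contra h0
    have sw : ∀ (u : U → Bool) t j (l : List U) (σ : Option U → Option Q8), ¬AW (gacts R) σ → σ none = some (t, j) →
        (∀ x ∈ gvars R, (∃ n, σ (some x) = some ((u x, n), !j)) ∨ x ∈ l ∧ ∃ o, σ (some x) = some ((o, u x), j)) →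
        ∃ σ : Option U → Option Q8, ∃ v : U → Bool, ¬AW (gacts R) σ ∧ σ none = some (t, j) ∧
          (∀ x ∈ gvars R, σ (some x) = some ((u x, v x), !j)) ∧ ∀ C ∈ R, t = (decide (C.1 < 2),
            decide (C.1 = 1 ∨ 2 < C.1)) → ∃ l ∈ C.2, (if l.1.1 = true ∨ C.1 = 2 then v else u) l.1.2 = l.2 := by
      intro u t j l
      induction l with
      | nil =>
        intro σ h1 h2 h3
        refine ⟨σ, fun x => ((σ (some x)).getD default).1.2, h1, h2, fun x hx => ?_, fun C hC e => ?_⟩
        · obtain ⟨n, e⟩ := (h3 x hx).resolve_right (by simp)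
          simp [e]
        by_contra! h4
        refine h1 (.act _ ((ma _).2 (.inr (.inr ⟨C, hC, j, rfl⟩))) (e ▸ h2) ?_ (by simp))
        simp only [List.forall_mem_flatMap, List.forall_mem_map, List.forall_mem_filter]
        intro l hl q _ h5 _ h6
        obtain ⟨n, e⟩ := (h3 _ (lv C hC l hl)).resolve_right (by simp)
        have := h4 l hl
        obtain rfl := Option.some.inj (e.symm.trans h6)
        split_ifs at this h5 <;> simp [e] at this h5 <;> exact this h5
      | cons y l ih =>
        intro σ h1 h2 h3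
        by_cases hy : y ∈ gvars R ∧ ∃ o, σ (some y) = some ((o, u y), j)
        · obtain ⟨hy, o, ho⟩ := hy
          obtain ⟨n, hn⟩ : ∃ n, ¬AW (gacts R) (update σ (some y) (some ((u y, n), !j))) := by
            by_contra! h4
            refine h1 (.act _ ((ma _).2 (.inl ⟨y, hy, _, rfl⟩)) ho ?_ (by simp [h4]))
            simp only [List.forall_mem_map, List.forall_mem_filter, h2]
            rintro _ _ h5 _ ⟨⟩
            simp at h5
          refine ih _ hn (by simpa) fun x hx => ?_
          by_cases e : x = y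
          · simp [e]
          · simpa [e] using h3 x hx
        · exact ih σ h1 h2 fun x hx => by have := h3 x hx; grind
    refine h ⟨fun v => ∃ σ : Option U → Option Q8, ∃ t j, ¬AW (gacts R) σ ∧ σ none = some (t, j) ∧
      ∀ x ∈ gvars R, ∃ o, σ (some x) = some ((o, v x), !j), ?_, ?_⟩
    · obtain ⟨σ, v, h1, h2, h3, h4⟩ := sw (fun _ => false) _ _ (gvars R) _ h0 (if_pos (by simp))
        fun x hx => .inr ⟨hx, false, if_pos (by simp [hx])⟩
      exact ⟨v, fun C hC e => by simpa [e] using h4 C hC (by simp [e]), σ, _, _, h1, h2, fun x hx => ⟨_, h3 x hx⟩⟩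
    · rintro u ⟨σ, t, j, h1, h2, h3⟩ c hc
      have h4 : ¬AW (gacts R) (update σ none (some ((true, decide (c = 1)), !j))) := fun h4 =>
        h1 (.act _ ((ma _).2 (.inr (.inl ⟨decide (c = 1), _, rfl⟩))) h2 (by
          simp only [List.forall_mem_flatMap, List.forall_mem_map, List.forall_mem_filter]
          intro x hx q _ h5 _ h6
          obtain ⟨o, e⟩ := h3 x hx
          obtain rfl := Option.some.inj (e.symm.trans h6)
          simp at h5) (by simpa))
      obtain ⟨σ, v, h1, h2, h3, h4⟩ := sw u _ _ (gvars R) _ h4 (update_self ..)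
        fun x hx => .inr ⟨hx, by simpa using h3 x hx⟩
      exact ⟨v, fun C hC e => by simpa [e, hc.ne] using h4 C hC (by simp [e, hc]; omega), σ, _, _, h1, h2,
        fun x hx => ⟨_, h3 x hx⟩⟩
  · rintro h ⟨W, ⟨v, h1, h2⟩, hW⟩
    suffices ∀ σ, AW (gacts R) σ → ∀ c < 3, ∀ j (u v : U → Bool), RelC R c (if c = 2 then v else u) v → W v →
        σ none = some ((decide (c < 2), decide (c = 1)), j) → ¬∀ x ∈ gvars R,
        (∃ o, σ (some x) = some ((o, u x), j)) ∨ σ (some x) = some ((u x, v x), !j) from
      this _ h 2 (by omega) false (fun _ => false) v h1 h2 (if_pos (by simp))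
        fun x hx => .inl ⟨false, if_pos (by simp [hx])⟩
    intro σ h
    induction h with
    | @act σ a ha a1 a2 _ ih =>
      intro c hc j u v b1 b2 b3 b4
      rcases (ma a).1 ha with ⟨x, hx, ⟨q, k⟩, rfl⟩ | ⟨d, q, rfl⟩ | ⟨C, hC, i, rfl⟩ <;>
        simp only [List.forall_mem_flatMap, List.forall_mem_map, List.forall_mem_filter, mem_q8, forall_const,
          b3, Option.some.injEq] at a1 a2 ih
      · obtain rfl : j = k := by_contra fun e => a2 _ (by simpa using e) (by simp) rfl
        obtain ⟨o, e⟩ := (b4 x hx).resolve_right fun e => by simpa using congrArg (·.map (·.2)) (e.symm.trans a1)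
        obtain ⟨rfl, -⟩ := Prod.mk.inj (Option.some.inj (e.symm.trans a1))
        refine ih ((u x, v x), !j) (by cases v x <;> simp) c hc j u v b1 b2
          ((update_of_ne (by simp) ..).trans b3) fun y hy => ?_
        by_cases e : y = x
        · simp [e]
        · simpa [e] using b4 y hy
      · subst a1
        obtain ⟨w, c1, c2⟩ := hW v b2 d.toNat (by cases d <;> simp)
        refine ih ((true, d), !j) (by simp) d.toNat (by cases d <;> simp) (!j) v w (by cases d <;> simpa using c1) c2
          (by cases d <;> simp) fun y hy => .inl ⟨u y, ?_⟩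
        simpa using (b4 y hy).resolve_left fun ⟨o, e⟩ => a2 y hy _ (by simp) (by simp) e
      · obtain ⟨e, rfl⟩ := Prod.mk.inj a1
        have : C.1 = c := by
          simp only [Prod.mk.injEq, decide_eq_decide] at e
          omega
        obtain ⟨l, c1, c2⟩ := b1 C hC this
        refine a2 l c1 _ ?_ (by simp) ((b4 _ (lv C hC l c1)).resolve_left fun ⟨o, e⟩ =>
          a2 l c1 _ (by simp) (by simp) e)
        by_cases h1 : l.1.1 = true <;> by_cases h2 : c = 2 <;> simp [h1, h2, this] at c2 ⊢ <;> simp [c2]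

theorem ga_hard : EXPHard (GA (K := Option (ℕ × Cell))) :=
  safe_hard.not.red ⟨fun R => (none :: (gvars R).map some, gacts R), by unfold gacts gvars; fun_prop, ga_iff⟩

theorem AW.mono {A B : List (Act K)} {P : K → Prop} (e : ∀ a ∈ A, P a.1 → a ∈ B) {σ : K → Option Q8} (h : AW A σ) :
    (∀ k, σ k ≠ none → P k) → AW B σ := by
  induction h with
  | @act σ a ha a1 a2 _ ih =>
    intro h
    have := h a.1 (by simp [a1])
    exact .act a (e a ha this) a1 a2 fun t ht => ih t ht fun k => by
      simp only [update_apply]; grind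

theorem ga_filter [Enc K] : Red (GA (K := K))
    fun a : {a : List K × List (Act K) // a.1.Nodup ∧ ∀ x ∈ a.2, x.1 ∈ a.1} => GA a.1 := by
  refine ⟨fun a => ⟨(a.1.dedup, a.2.filter (·.1 ∈ a.1)), List.nodup_dedup _, by simp⟩,
    PT.subtype (by fun_prop) _, fun a => ?_⟩
  simp only [GA, List.mem_dedup]
  exact ⟨fun h => h.mono (P := (· ∈ a.1)) (fun x h1 h2 => List.mem_filter.2 ⟨h1, decide_eq_true h2⟩) (by simp),
    fun h => h.mono (P := fun _ => True) (fun x h _ => (List.mem_filter.1 h).1) (by simp)⟩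

/-- all actions belong to listed tokens -/
theorem ga_hard' : EXPHard fun a : {a : List (Option (ℕ × Cell)) × List (Act (Option (ℕ × Cell))) //
    a.1.Nodup ∧ ∀ x ∈ a.2, x.1 ∈ a.1} => GA a.1 := ga_hard.red ga_filter

end Pool.Agent.Lib.CX
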