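import Pool.Agent.Lib.helper4.GameDefs
import Pool.Agent.Lib.helper4.CXExpG

/-! Outcomes of loopy games are computable in exponential time. -/

set_option autoImplicit false

namespace Pool.Agent.Lib.CX

open Function

variable {P P' : Type} {M : P → P → Prop} {M' : P' → P' → Prop}

theorem Win.not_lose {p : P} (h : Win M p) : ¬ Lose M p := by
  induction h with
  | mk q h1 h2 ih =>
    intro h
    obtain ⟨r, h3, h4⟩ := h q h1
    exact ih r h3 h4

theorem not_win {J : P → Prop} (h : ∀ p, J p → ∀ q, M p q → ∃ r, M q r ∧ (J r ∨ Lose M r)) {p : P} (hp : J p) :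
    ¬ Win M p := fun w => by
  induction w with
  | mk q h1 h2 ih =>
    obtain ⟨r, h3, h4 | h4⟩ := h _ hp q h1
    exacts [ih r h3 h4, (h2 r h3).not_lose h4]

theorem Win.sim {R : P → P' → Prop} (h1 : ∀ p p', R p p' → ∀ q, M p q → ∃ q', M' p' q' ∧ R q q')
    (h2 : ∀ p p', R p p' → ∀ q', M' p' q' → ∃ q, M p q ∧ R q q') {p : P} (h : Win M p) : ∀ p', R p p' → Win M' p' := by
  induction h with
  | mk q h3 _ ih =>
    intro p' hp
    obtain ⟨q', h4, h5⟩ := h1 _ _ hp q h3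
    exact .mk q' h4 fun r' h6 => let ⟨r, h7, h8⟩ := h2 _ _ h5 r' h6; ih r h7 r' h8

theorem win_iff {R : P → P' → Prop} (h1 : ∀ p p', R p p' → ∀ q, M p q → ∃ q', M' p' q' ∧ R q q')
    (h2 : ∀ p p', R p p' → ∀ q', M' p' q' → ∃ q, M p q ∧ R q q') {p : P} {p' : P'} (h : R p p') :
    (Win M p ↔ Win M' p') ∧ (Lose M p ↔ Lose M' p') :=
  have a := fun p p' (h : R p p') (w : Win M p) => w.sim h1 h2 p' h
  have b := fun p p' (h : R p p') (w : Win M' p') =>
    w.sim (R := fun a b => R b a) (fun a b => h2 b a) (fun a b => h1 b a) p h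
  ⟨⟨a _ _ h, b _ _ h⟩, fun l q' hq => let ⟨q, h3, h4⟩ := h2 _ _ h q' hq; a _ _ h4 (l q h3),
    fun l q hq => let ⟨q', h3, h4⟩ := h1 _ _ h q hq; b _ _ h4 (l q' h3)⟩

variable {α σ : Type} [Enc α] [Enc σ] [Dec σ]

theorem InEXP.of_moves (mv : α → σ → List σ) (i : α → σ) (B : α → ℕ) (J : α → σ → Prop)
    (hm : PT fun p : α × σ => mv p.1 p.2) (hi : PT i) (hB : PB B) (h0 : ∀ a, J a (i a))
    (h : ∀ a s, J a s → size s ≤ B a ∧ ∀ t ∈ mv a s, J a t) :
    (InEXP fun a => Win (fun s t => t ∈ mv a s) (i a)) ∧ InEXP fun a => Lose (fun s t => t ∈ mv a s) (i a) := by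
  classical
  obtain ⟨q, hq⟩ := hB
  obtain ⟨r, hr⟩ := PB.length hm
  have key : ∀ I : α → σ → Prop, PT (fun p : α × σ => decide (I p.1 p.2)) → (∀ a s, I a s → J a s) →
      InEXP fun a => ¬∃ s, I a s ∧ ¬Win (fun s t => t ∈ mv a s) s := fun I hI hJ => by
    refine (InEXP.of_safe I (fun a => List.range (r.eval (size a + q.eval (size a) + 1) + 1))
      (fun a s c t => (mv a s).length ≤ r.eval (size a + q.eval (size a) + 1) ∧
        (c < (mv a s).length → t ∈ mv a ((mv a s).getD c s))) (fun a => q.eval (size a)) hI (by fun_prop)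
      (by fun_prop) (by fun_prop) (fun a W ⟨s, h1, h2⟩ h3 => ⟨s, h2,
        not_win (J := W) (fun s hs t ht => ?_) h1⟩) fun a ⟨s, h1, h2⟩ =>
      ⟨fun s => J a s ∧ ¬Win (fun s t => t ∈ mv a s) s, ⟨s, ⟨hJ a s h1, h2⟩, h1⟩, fun s ⟨h3, h4⟩ =>
        ⟨(h a s h3).1.trans (hq a), fun c _ => ?_⟩⟩).not
    · obtain ⟨c, hc, rfl⟩ := List.getElem_of_mem ht
      obtain ⟨_, -, h4, -⟩ := h3 s hs 0 (by simp)
      obtain ⟨t, h5, -, h6⟩ := h3 s hs c (by simp; omega)
      exact ⟨t, by simpa [hc] using h6 hc, .inl h5⟩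
    · have h5 := (hr (a, s)).trans (eval_mono r (show _ ≤ size a + q.eval (size a) + 1 by
        have := (h a s h3).1.trans (hq a)
        rw [size_pair]; omega))
      by_cases hc : c < (mv a s).length
      · by_contra! h6
        refine h4 (.mk _ (List.getElem_mem hc) fun t ht => by_contra fun h7 => ?_)
        exact (h6 t ⟨(h a _ ((h a s h3).2 _ (List.getElem_mem hc))).2 t ht, h7⟩ h5).2 (by simpa [hc] using ht)
      · exact ⟨s, ⟨h3, h4⟩, h5, fun h6 => absurd h6 hc⟩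
  exact ⟨(key (fun a s => s = i a) (by fun_prop) (by simp [h0])).of_iff (by simp),
    (key (fun a s => s ∈ mv a (i a)) (PT.decide_mem PT.snd' (hm.comp (g := fun p : α × σ => (p.1, i p.1))
      (by fun_prop))) fun a => (h a _ (h0 a)).2).of_iff (by simp [Lose])⟩

end Pool.Agent.Lib.CX
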