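import Mathlib

set_option autoImplicit false

namespace Pool.Agent.Lib.helper4

/-- Back and forth on the naturals. -/
theorem bnf (S : Finset (ℕ × ℕ) → Prop)
    (hinj : ∀ p, S p → ∀ x ∈ p, ∀ y ∈ p, (x.1 = y.1 ↔ x.2 = y.2))
    (forth : ∀ p, S p → ∀ a, ∃ b, S (insert (a, b) p))
    (back : ∀ p, S p → ∀ b, ∃ a, S (insert (a, b) p))
    (p0 : Finset (ℕ × ℕ)) (h0 : S p0) :
    ∃ e : ℕ ≃ ℕ, (∀ x ∈ p0, e x.1 = x.2) ∧
      ∀ a a', ∃ p, S p ∧ (a, e a) ∈ p ∧ (a', e a') ∈ p := by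
  classical
  choose F hF using forth
  choose B hB using back
  let nx : ℕ → {p // S p} → {p // S p} := fun n p =>
    ⟨insert (B _ (hF p.1 p.2 n) n, n) (insert (n, F p.1 p.2 n) p.1), hB _ (hF p.1 p.2 n) n⟩
  let q : ℕ → {p // S p} := fun n => Nat.rec ⟨p0, h0⟩ nx n
  have hq : ∀ n, q (n + 1) = nx n (q n) := fun _ => rfl
  have mono : Monotone (fun n => (q n).1) := by
    apply monotone_nat_of_le_succ
    intro n
    rw [hq]
    exact (Finset.subset_insert _ _).trans (Finset.subset_insert _ _)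
  let f : ℕ → ℕ := fun n => F (q n).1 (q n).2 n
  let g : ℕ → ℕ := fun n => B _ (hF (q n).1 (q n).2 n) n
  have hf : ∀ n m, n < m → (n, f n) ∈ (q m).1 := fun n m h =>
    mono (Nat.succ_le_of_lt h) (show (n, f n) ∈ (q (n + 1)).1 by rw [hq]; simp [nx, f])
  have hg : ∀ n m, n < m → (g n, n) ∈ (q m).1 := fun n m h =>
    mono (Nat.succ_le_of_lt h) (show (g n, n) ∈ (q (n + 1)).1 by rw [hq]; simp [nx, g])
  refine ⟨⟨f, g, fun a => ?_, fun b => ?_⟩, fun x hx => ?_, fun a a' => ?_⟩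
  · exact (hinj _ (q (a + f a + 1)).2 _ (hg (f a) (a + f a + 1) (by omega)) _
      (hf a (a + f a + 1) (by omega))).2 rfl
  · exact (hinj _ (q (b + g b + 1)).2 _ (hf (g b) (b + g b + 1) (by omega)) _
      (hg b (b + g b + 1) (by omega))).1 rfl
  · exact (hinj _ (q (x.1 + 1)).2 _ (hf x.1 (x.1 + 1) (by omega)) x
      (mono (Nat.zero_le (x.1 + 1)) hx)).1 rfl
  · exact ⟨_, (q (a + a' + 1)).2, hf a (a + a' + 1) (by omega), hf a' (a + a' + 1) (by omega)⟩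

/-- Extension property for vertex-classed graphs, edges allowed only between `ok` classes. -/
def Ext (Γ : SimpleGraph ℕ) (cl : ℕ → ℕ) (ok : ℕ → ℕ → Prop) : Prop :=
  (∀ u v, Γ.Adj u v → ok (cl u) (cl v)) ∧
  ∀ (c : ℕ) (F : Finset ℕ) (P : ℕ → Prop), (∃ a, cl a = c) → (∀ u ∈ F, P u → ok (cl u) c) →
    ∃ z, z ∉ F ∧ cl z = c ∧ ∀ u ∈ F, (Γ.Adj u z ↔ P u)

def PIso (Γ Γ' : SimpleGraph ℕ) (cl : ℕ → ℕ) (p : Finset (ℕ × ℕ)) : Prop :=
  ∀ x ∈ p, cl x.1 = cl x.2 ∧ ∀ y ∈ p, (x.1 = y.1 ↔ x.2 = y.2) ∧ (Γ.Adj x.1 y.1 ↔ Γ'.Adj x.2 y.2)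

theorem PIso.forth {Γ Γ' : SimpleGraph ℕ} {cl : ℕ → ℕ} {ok : ℕ → ℕ → Prop}
    (h1 : Ext Γ cl ok) (h2 : Ext Γ' cl ok) {p : Finset (ℕ × ℕ)} (hp : PIso Γ Γ' cl p) (a : ℕ) :
    ∃ b, PIso Γ Γ' cl (insert (a, b) p) := by
  classical
  by_cases ha : ∃ b, (a, b) ∈ p
  · obtain ⟨b, hb⟩ := ha
    exact ⟨b, by rwa [Finset.insert_eq_of_mem hb]⟩
  obtain ⟨z, hz, hc, hadj⟩ := h2.2 (cl a) (p.image Prod.snd)
    (fun u => ∃ x ∈ p, x.2 = u ∧ Γ.Adj x.1 a) ⟨a, rfl⟩ (by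
      rintro u - ⟨x, hx, rfl, h⟩
      rw [← (hp x hx).1]
      exact h1.1 _ _ h)
  have k1 : ∀ x ∈ p, (x.1 = a ↔ x.2 = z) ∧ (Γ.Adj x.1 a ↔ Γ'.Adj x.2 z) := by
    intro x hx
    refine ⟨⟨fun e => (ha ⟨x.2, e ▸ hx⟩).elim,
      fun e => (hz (e ▸ Finset.mem_image_of_mem _ hx)).elim⟩, ?_⟩
    rw [hadj _ (Finset.mem_image_of_mem _ hx)]
    refine ⟨fun h => ⟨x, hx, rfl, h⟩, ?_⟩
    rintro ⟨y, hy, e, h⟩
    rwa [← ((hp y hy).2 x hx).1.2 e]
  refine ⟨z, fun x hx => ?_⟩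
  rcases Finset.mem_insert.1 hx with rfl | hx
  · refine ⟨hc.symm, fun y hy => ?_⟩
    rcases Finset.mem_insert.1 hy with rfl | hy
    · simp
    · have := k1 y hy
      exact ⟨by rw [eq_comm, this.1, eq_comm], by rw [Γ.adj_comm, this.2, Γ'.adj_comm]⟩
  · refine ⟨(hp x hx).1, fun y hy => ?_⟩
    rcases Finset.mem_insert.1 hy with rfl | hy
    · exact k1 x hx
    · exact (hp x hx).2 y hy

theorem PIso.swap {Γ Γ' : SimpleGraph ℕ} {cl : ℕ → ℕ} {p : Finset (ℕ × ℕ)} (hp : PIso Γ Γ' cl p) :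
    PIso Γ' Γ cl (p.image Prod.swap) := by
  intro x hx
  obtain ⟨x, hx', rfl⟩ := Finset.mem_image.1 hx
  refine ⟨(hp x hx').1.symm, fun y hy => ?_⟩
  obtain ⟨y, hy', rfl⟩ := Finset.mem_image.1 hy
  exact ⟨((hp x hx').2 y hy').1.symm, ((hp x hx').2 y hy').2.symm⟩

/-- A finite class-preserving local isomorphism between two graphs with the extension property
extends to a class-preserving isomorphism. -/
theorem PIso.extend {Γ Γ' : SimpleGraph ℕ} {cl : ℕ → ℕ} {ok : ℕ → ℕ → Prop}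
    (h1 : Ext Γ cl ok) (h2 : Ext Γ' cl ok) {p : Finset (ℕ × ℕ)} (hp : PIso Γ Γ' cl p) :
    ∃ e : ℕ ≃ ℕ, (∀ x ∈ p, e x.1 = x.2) ∧ (∀ a, cl (e a) = cl a) ∧
      ∀ a b, (Γ'.Adj (e a) (e b) ↔ Γ.Adj a b) := by
  obtain ⟨e, he, H⟩ := bnf (PIso Γ Γ' cl) (fun p hp x hx y hy => ((hp x hx).2 y hy).1)
    (fun p hp a => hp.forth h1 h2 a) (fun p hp b => by
      obtain ⟨a, ha⟩ := hp.swap.forth h2 h1 b
      refine ⟨a, ?_⟩
      have := ha.swap
      rwa [Finset.image_insert, Finset.image_image, Prod.swap_swap_eq, Finset.image_id] at this) p hp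
  refine ⟨e, he, fun a => ?_, fun a b => ?_⟩
  · obtain ⟨q, hq, h, -⟩ := H a a
    exact (hq _ h).1.symm
  · obtain ⟨q, hq, h, h'⟩ := H a b
    exact ((hq _ h).2 _ h').2.symm

theorem exists_bits (A : Finset ℕ) : ∃ z : ℕ, ∀ i, z.testBit i = true ↔ i ∈ A := by
  induction A using Finset.induction_on with
  | empty => exact ⟨0, by simp⟩
  | insert a A _ ih =>
    obtain ⟨z, hz⟩ := ih
    refine ⟨2 ^ a ||| z, fun i => ?_⟩
    rw [Nat.testBit_or, Nat.testBit_two_pow, Bool.or_eq_true, hz, decide_eq_true_eq,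
      Finset.mem_insert, eq_comm]

theorem exists_bits_big (F : Finset ℕ) (P : ℕ → Prop) :
    ∃ z : ℕ, ∀ u ∈ F, u < z ∧ (z.testBit u = true ↔ P u) := by
  classical
  obtain ⟨z, hz⟩ := exists_bits (insert (F.sup id + 1) (F.filter P))
  refine ⟨z, fun u hu => ?_⟩
  have h1 : u ≤ F.sup id := Finset.le_sup (f := id) hu
  have h2 := Nat.ge_two_pow_of_testBit ((hz _).2 (Finset.mem_insert_self _ _))
  have h3 : F.sup id + 1 < 2 ^ (F.sup id + 1) := Nat.lt_two_pow_self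
  refine ⟨by omega, ?_⟩
  rw [hz, Finset.mem_insert, Finset.mem_filter]
  exact ⟨fun h => h.elim (fun e => by omega) (·.2), fun h => Or.inr ⟨hu, h⟩⟩

/-- The BIT graph has the extension property. -/
theorem ext_bit : Ext (SimpleGraph.fromRel (fun i j : ℕ => Nat.testBit j i = true))
    (fun _ => 0) (fun _ _ => True) := by
  refine ⟨fun _ _ _ => trivial, fun c F P ⟨_, hc⟩ _ => ?_⟩
  obtain ⟨z, hz⟩ := exists_bits_big F P
  refine ⟨z, fun h => lt_irrefl _ (hz z h).1, hc, fun u hu => ?_⟩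
  obtain ⟨h1, h2⟩ := hz u hu
  have : u.testBit z = false :=
    Nat.testBit_lt_two_pow (h1.trans Nat.lt_two_pow_self)
  rw [SimpleGraph.fromRel_adj, h2, this]
  simp [h1.ne]

end Pool.Agent.Lib.helper4
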