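import Pool.Agent.Lib.lead.CXNP

set_option autoImplicit false

namespace Pool.Agent.Lib.helper4

open Pool.Agent.Lib.CX

/-- if NP is closed under complement then the complement of every typed NP problem is in NP -/
theorem co_of {γ : Type} [Enc γ] [Dec γ] {P : γ → Prop} (h : InNP P)
    (H : ∀ A : List Bool → Prop, InNP A → InNP fun x => ¬ A x) : InNP fun c => ¬ P c := by
  obtain ⟨q, V, hV, e⟩ := h
  have h1 : InNP fun x : List Bool => ∃ c : γ, enc c = x ∧ P c := by
    refine InNP.of_cert' (fun (x : List Bool) (c : γ × List Bool) =>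
      enc c.1 = x ∧ c.2.length = q.eval (size c.1) ∧ V (c.1, c.2) = true)
      (fun x => x.length + 3 * q.eval x.length + 3) (by fun_prop) (by fun_prop) ?_ ?_
    · rintro x ⟨c, y⟩ ⟨h1, h2⟩
      exact ⟨c, h1, (e c).2 ⟨y, h2⟩⟩
    · rintro x ⟨c, rfl, h1⟩
      obtain ⟨y, h2, h3⟩ := (e c).1 h1
      refine ⟨(c, y), ?_, rfl, h2, h3⟩
      rw [size_pair, size_bits, h2]
      simp only [size]
      omega
  refine (H _ h1).red ⟨fun c => enc c, PT.id.enc, fun c => not_congr ⟨fun h => ⟨c, rfl, h⟩, ?_⟩⟩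
  rintro ⟨d, h2, h3⟩
  exact enc_inj h2 ▸ h3

/-- if the complement of an NP-hard problem is in NP then NP is closed under complement -/
theorem co_to {γ : Type} [Enc γ] {P : γ → Prop} (h : NPHard P) (H : InNP fun c => ¬ P c)
    (A : List Bool → Prop) (hA : InNP A) : InNP fun x => ¬ A x :=
  let ⟨f, h2, h3⟩ := h A hA
  H.red ⟨f, h2, fun x => not_congr (h3 x)⟩

end Pool.Agent.Lib.helper4
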