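import Pool.Agent.Lib.lead.CXDefs

/-! Exponential time. -/

set_option autoImplicit false

namespace Pool.Agent.Lib.CX

variable {α β : Type} [Enc α] [Enc β]

/-- the decision problem `A` is in EXPTIME: it is decided within `2 ^ poly` steps -/
def InEXP (A : α → Prop) : Prop :=
  ∃ (p : Prog) (q : Polynomial ℕ), ∀ a, ∃ (r : Bool) (n m : ℕ),
    n ≤ 2 ^ q.eval (size a) ∧ Exec p (io (enc a)) (io (enc r)) n m ∧ (A a ↔ r = true)

/-- every language of bit strings in EXPTIME reduces to `B` -/
def EXPHard (B : β → Prop) : Prop := ∀ A : List Bool → Prop, InEXP A → Red A B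

def EXPComplete (B : β → Prop) : Prop := InEXP B ∧ EXPHard B

end Pool.Agent.Lib.CX
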