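import Pool.Agent.Lib.helper4.CXExpDefs
import Pool.Agent.Lib.helper4.CXPspM
import Pool.Agent.Lib.helper25.CX2

/-! An EXPTIME-hard safety game on assignments, with moves constrained by formulas in conjunctive form. -/

set_option autoImplicit false

namespace Pool.Agent.Lib.CX

open Function CX2

variable {α β V : Type}

/-- Cook-Levin with named input bits -/
theorem cnf_of [Enc α] {W : α × List Bool → Bool} (hW : PT W) {M : α → ℕ} (hM : PT M) (hM' : PB M) :
    ∃ φ : α → List (Cl3 (ℕ × Cell)), PT φ ∧ ∀ a, (∀ v, (∀ C ∈ φ a, C.ok v) →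
      W (a, (List.range (M a)).map fun i => v (0, 1, 0, size a + 1 + (3 * i + 2))) = true) ∧
      ∀ y, y.length = M a → W (a, y) = true → ∃ v, (∀ C ∈ φ a, C.ok v) ∧
        ∀ i < M a, v (0, 1, 0, size a + 1 + (3 * i + 2)) = y.getD i false := by
  obtain ⟨p, r, hV⟩ := hW
  refine ⟨fun a => tab p (certPat (true :: enc a) (M a), List.replicate (r.eval (size a + (3 * M a + 2) + 1)) ()),
    (PT.tab p).comp (by unfold certPat; fun_prop), fun a => ?_⟩
  have key : ∀ y : List Bool, y.length = M a →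
      cval (step^[r.eval (size a + (3 * M a + 2) + 1)] ([p], io ((true :: enc a) ++ enc y))).2 (1, 0, 1) =
        W (a, y) := fun y hy => by
    obtain ⟨n, m, hn, e⟩ := hV (a, y)
    rw [size_pair, size_bits y, hy] at hn
    exact (congrArg (fun c => cval c.2 (1, 0, 1)) (e.run_le hn)).trans rfl
  have pos : ∀ (y : List Bool) i, i < y.length →
      ((true :: enc a) ++ enc y).getD (size a + 1 + (3 * i + 2)) false = y.getD i false := fun y i hi => by
    rw [← enc_getD y [] i hi, List.getD_append_right _ _ _ _ (by simp [size]), List.append_nil]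
    congr 1; simp [size]
  refine ⟨fun v h => ?_, fun y hy h => ?_⟩
  · have h3 := tab_fwd _ _ _ _ h
    obtain ⟨y, hy, e⟩ := (fits_certPat _ _ _).1 (fits_fill (certPat (true :: enc a) (M a)) fun j => v (0, 1, 0, j))
    rw [e, List.length_replicate, key _ hy] at h3
    refine (congrArg (fun y => W (a, y)) (List.ext_getElem (by simp [hy]) fun i i2 i1 => Eq.symm ?_)).trans h3
    have a1 := pos y i i1
    rw [← e] at a1
    have a3 : (certPat (true :: enc a) (M a))[size a + 1 + (3 * i + 2)]? = some none := by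
      rw [← pat_none (M a) [] i (hy ▸ i1), certPat, List.getElem?_append_right (by simp [size])]
      congr 1 <;> simp [size, certPat]
    rw [List.getD_eq_getElem?_getD, List.getElem?_mapIdx, a3] at a1
    simpa [i1] using a1.symm
  · obtain ⟨v, h1, h2⟩ := tab_bwd p _ (List.replicate _ ()) _ ((fits_certPat _ _ _).2 ⟨y, hy, rfl⟩)
      (by rw [List.length_replicate]; exact (key _ hy).trans h)
    exact ⟨v, h2, fun i hi => by rw [h1, pos _ _ (hy ▸ hi)]⟩

theorem PT.exists_const [Enc α] {ι : Type} (L : List ι) {P : ι → α → Prop} [∀ i a, Decidable (P i a)]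
    {d : ∀ a, Decidable (∃ i ∈ L, P i a)} (h : ∀ i, PT fun a => decide (P i a)) :
    PT fun a => @decide (∃ i ∈ L, P i a) (d a) :=
  (PT.any (F := fun _ (b : Bool) => b) PT.snd' (PT.flatMap_const L (F := fun i a => [decide (P i a)])
    fun i _ => by have := h i; fun_prop)).congr fun a => by
      rw [Bool.eq_iff_iff]; simp

/-- time, control, cell, value of the cell, previous control, previous test -/
abbrev GS := ℕ × Cell × Cell × Bool × Cell × Bool

def gE (p : Prog) (w : List Bool) (c : Bool) (s s' : GS) : Prop :=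
  (s.1 = 0 ∧ s.2.1 = lab p [p] ∧ cval (io w) s.2.2.1 = s.2.2.2.1 ∧ s' = s) ∨
  ∃ κ ∈ labels p, s.2.2.2.2.1 = lab p κ ∧ s.2.1 = (if s.2.2.2.2.2 = true then lab p (nxt κ true) else
    lab p (nxt κ false)) ∧ s'.1 + 1 = s.1 ∧ s'.2.1 = lab p κ ∧ s'.2.2.1 = (if c = true then cnd κ else src κ s.2.2.1) ∧
      s'.2.2.2.1 = if c = true then s.2.2.2.2.2 else s.2.2.2.1

open Classical in
theorem PT.gE (p : Prog) : PT fun a : List Bool × Bool × GS × GS => decide (gE p a.1 a.2.1 a.2.2.1 a.2.2.2) := by
  refine PT.decide_or (i := fun _ => inferInstance) (j := fun _ => inferInstance) (by unfold cval io; fun_prop)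
    (PT.exists_const (labels p) fun κ => ?_)
  have := PT.src κ
  fun_prop

theorem gE_sound {p w} {W : GS → Prop} (h : ∀ s, W s → ∀ c, ∃ t, W t ∧ gE p w c s t) (n : ℕ) :
    ∀ s, W s → s.1 = n → s.2.1 = lab p (step^[n] ([p], io w)).1 ∧
      s.2.2.2.1 = cval (step^[n] ([p], io w)).2 s.2.2.1 := by
  induction n with
  | zero =>
    intro s hs e
    obtain ⟨t, -, h1 | ⟨κ, h1⟩⟩ := h s hs true
    exacts [⟨h1.2.1, h1.2.2.1.symm⟩, by omega]
  | succ n ih =>
    intro s hs e
    obtain ⟨t, ht, h1⟩ := h s hs true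
    obtain ⟨u, hu, h2⟩ := h s hs false
    obtain ⟨κ, a1, a2, a3, a4, a5, a6⟩ := h1.resolve_left (by omega)
    obtain ⟨κ', b1, b2, -, b4, -, b6⟩ := h2.resolve_left (by omega)
    obtain rfl := lab_inj a1 (a2.symm.trans b2)
    obtain ⟨c1, c2⟩ := ih t ht (by omega)
    obtain ⟨-, c4⟩ := ih u hu (by omega)
    obtain rfl := lab_inj a1 (a5.symm.trans c1)
    simp only [if_true, Bool.false_eq_true, if_false] at a6 b6
    rw [iterate_succ_apply', ← Prod.mk.eta (p := step^[n] _), step_fst, step_snd, ← b6.1, ← c4, b6.2, ← a6.1,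
      ← c2, a6.2, a3]
    cases s.2.2.2.2.2 <;> simp

noncomputable def gM (p : Prog) (w : List Bool) (t : ℕ) (x : Cell) : GS :=
  (t, lab p (step^[t] ([p], io w)).1, x, cval (step^[t] ([p], io w)).2 x, lab p (step^[t - 1] ([p], io w)).1,
    cval (step^[t - 1] ([p], io w)).2 (cnd (step^[t - 1] ([p], io w)).1))

theorem gE_next (p w c t) (x : Cell) (T : ℕ) (h : x.1 < 4 ∧ x.2.1 < nst p ∧ x.2.2 + t ≤ T + 1) :
    ∃ t', ∃ y : Cell, (y.1 < 4 ∧ y.2.1 < nst p ∧ y.2.2 + t' ≤ T + 1) ∧ gE p w c (gM p w t x) (gM p w t' y) := by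
  rcases t with _ | t
  · exact ⟨0, x, h, .inl ⟨rfl, rfl, rfl, rfl⟩⟩
  have hl := run_label p (io w) t
  have h1 := src_bound (step^[t] ([p], io w)).1 x
  have h2 := cnd_bound (step^[t] ([p], io w)).1
  have h3 := cnd_lt hl
  refine ⟨t, if c = true then cnd (step^[t] ([p], io w)).1 else src (step^[t] ([p], io w)).1 x,
    by split_ifs <;> omega, ?_⟩
  refine .inr ⟨_, hl, rfl, ?_, rfl, rfl, rfl, ?_⟩
  · simp only [gM, Nat.add_sub_cancel]
    rw [iterate_succ_apply', ← Prod.mk.eta (p := step^[t] _), step_fst]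
    cases cval _ _ <;> rfl
  · cases c
    · simp only [gM, Bool.false_eq_true, if_false, true_and]
      rw [iterate_succ_apply', ← Prod.mk.eta (p := step^[t] _), step_snd]
    · simp [gM]

theorem gM_size (p w t) (x : Cell) (k : ℕ) (h : x.1 < 4 ∧ x.2.1 < nst p ∧ x.2.2 + t ≤ 2 ^ k + 1) :
    size (gM p w t x) ≤ 30 * (k + (labels p).length + nst p + 3) + 40 := by
  classical
  have b : ∀ n, n ≤ 2 ^ k + 1 ∨ n ≤ (labels p).length + nst p + 4 →
      size n ≤ 3 * (k + (labels p).length + nst p + 3) + 2 := fun n hn => size_nat_of_lt (by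
    have := ((labels p).length + nst p).lt_two_pow_self
    have := k.two_pow_pos
    rw [add_assoc k, pow_add, pow_add]
    rcases hn with hn | hn <;> nlinarith)
  have l : ∀ κ, size (lab p κ) ≤ 9 * (k + (labels p).length + nst p + 3) + 8 := fun κ => by
    have := b 4 (by omega)
    have := b 0 (by omega)
    have := b _ (.inr ((List.idxOf_le_length (l := labels p) (a := κ)).trans (by omega)))
    simp only [lab, size_pair]
    omega
  obtain ⟨d, i, j⟩ := x
  dsimp only at h
  have := b d (by omega)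
  have := b i (by omega)
  have := b j (by omega)
  have := b t (by omega)
  have := l (step^[t] ([p], io w)).1
  have := l (step^[t - 1] ([p], io w)).1
  simp only [gM, size_pair, size_bool]
  omega

/-- the pair of assignments `u` (old) and `v` (new) satisfies all clauses with tag `c` -/
def RelC (R : List (ℕ × List ((Bool × V) × Bool))) (c : ℕ) (u v : V → Bool) : Prop :=
  ∀ C ∈ R, C.1 = c → ∃ l ∈ C.2, (if l.1.1 = true then v else u) l.1.2 = l.2

/-- starting from an assignment satisfying the clauses with tag 2, the defender can answer every challenge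
`c = 0, 1` by a new assignment, forever -/
def Safe (R : List (ℕ × List ((Bool × V) × Bool))) : Prop :=
  ∃ W : (V → Bool) → Prop, (∃ v, RelC R 2 v v ∧ W v) ∧ ∀ u, W u → ∀ c < 2, ∃ v, RelC R c u v ∧ W v

theorem safe_hard : EXPHard (Safe (V := ℕ × Cell)) := by
  classical
  rintro A ⟨p, q, h⟩
  let k : List Bool → ℕ := fun w => q.eval (size w)
  obtain ⟨m, em, hm, hm'⟩ : ∃ m : List Bool → ℕ,
      (∀ w, 2 * (30 * (k w + (labels p).length + nst p + 3) + 40) = m w) ∧ PT m ∧ PB m :=
    ⟨_, fun _ => rfl, by simp only [k]; fun_prop, by simp only [k]; fun_prop⟩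
  let d : List Bool → GS := fun y => Dec.dec (parse y)
  have hd : PT d := Dec.pt.comp PT.parse
  let I : List Bool → GS → Prop := fun w s => s.1 = 2 ^ k w ∧ s.2.2.1 = (1, 0, 1) ∧ s.2.2.2.1 = true
  obtain ⟨φ, hφ, H⟩ := cnf_of (α := List Bool × Bool × Bool) (M := fun a => m a.1 + m a.1)
    (W := fun a => if a.1.2.1 = true then decide (I a.1.1 (d (a.2.drop (m a.1.1)))) else
      decide (gE p (enc a.1.1) a.1.2.2 (d (a.2.take (m a.1.1))) (d (a.2.drop (m a.1.1)))))
    (PT.ite (by fun_prop) (by simp only [I, k]; fun_prop) ((PT.gE p).comp (g := fun a : (List Bool × Bool × Bool) × List Bool =>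
      (enc a.1.1, a.1.2.2, d (a.2.take (m a.1.1)), d (a.2.drop (m a.1.1)))) (by fun_prop))) (by fun_prop)
    ((hm'.add hm').comp PT.fst')
  let pos : List Bool → ℕ → ℕ × Cell := fun w i => (0, 1, 0, size w + 6 + 1 + (3 * i + 2))
  let R : List Bool → List (ℕ × List ((Bool × ℕ × Cell) × Bool)) := fun w =>
    [0, 1, 2].flatMap (fun c => (φ (w, decide (c = 2), decide (c = 1))).map fun C =>
      (c, [((true, C.1.1), C.1.2), ((true, C.2.1.1), C.2.1.2), ((true, C.2.2.1), C.2.2.2)])) ++
    [0, 1].flatMap fun c => (List.range (m w)).flatMap fun j => [false, true].map fun b =>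
      (c, [((true, pos w j), b), ((false, pos w (m w + j)), !b)])
  refine ⟨R, by simp only [R, pos]; fun_prop, fun w => ?_⟩
  have hR : ∀ c < 3, ∀ u v, RelC (R w) c u v ↔ (∀ C ∈ φ (w, decide (c = 2), decide (c = 1)), C.ok v) ∧
      (c < 2 → ∀ j < m w, v (pos w j) = u (pos w (m w + j))) := fun c hc u v => by
    have : ∀ a b : Bool, (a = false ∨ b = true) ∧ (a = true ∨ b = false) ↔ a = b := by decide
    simp only [RelC, R, List.forall_mem_append, List.forall_mem_flatMap, List.forall_mem_map, List.mem_range]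
    interval_cases c <;> simp [Cl3.ok, this]
  have sz : ∀ a b : Bool, size (w, a, b) = size w + 6 := fun a b => by simp [size_pair]
  let st : (ℕ × Cell → Bool) → List Bool := fun v => (List.range (m w)).map fun j => v (pos w (m w + j))
  have dr : ∀ v : ℕ × Cell → Bool, ((List.range (m w + m w)).map fun i => v (pos w i)).drop (m w) = st v := fun v => by
    simp [List.range_add, st]
  have tk : ∀ v : ℕ × Cell → Bool, ((List.range (m w + m w)).map fun i => v (pos w i)).take (m w) =
      (List.range (m w)).map fun i => v (pos w i) := fun v => by simp [List.range_add]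
  obtain ⟨r, n, _, hn, e, hr⟩ := h w
  have fin : cval (step^[2 ^ k w] ([p], io (enc w))).2 (1, 0, 1) = r := by
    exact (congrArg (fun c => cval c.2 (1, 0, 1)) (e.run_le hn)).trans rfl
  rw [hr, ← fin]
  constructor
  · intro h1
    have ex : ∀ a b (y : List Bool) t (x : Cell), y.length = m w → x.1 < 4 ∧ x.2.1 < nst p ∧ x.2.2 + t ≤ 2 ^ k w + 1 →
        (if a = true then I w (gM p (enc w) t x) else gE p (enc w) b (d y) (gM p (enc w) t x)) → ∃ v, (∀ C ∈ φ (w, a, b), C.ok v) ∧
        (∀ j < m w, v (pos w j) = y.getD j false) ∧ d (st v) = gM p (enc w) t x := fun a b y t x hy hx h2 => by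
      obtain ⟨z, z1, z2⟩ := pad' _ _ (gM_size p (enc w) t x _ hx)
      rw [em] at z1
      obtain ⟨v, v1, v2⟩ := (H (w, a, b)).2 (y ++ z) (by simp [hy, z1]) (by
        simp only [← hy, List.take_left, List.drop_left, d, z2]
        split_ifs at h2 ⊢ <;> exact decide_eq_true h2)
      simp only [sz] at v2
      refine ⟨v, v1, fun j hj => by rw [v2 j (by omega), List.getD_append _ _ _ _ (by omega)], ?_⟩
      rw [← z2, show st v = z from List.ext_getElem (by simp [st, z1]) fun i i1 i2 => ?_]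
      simp only [st, List.getElem_map, List.getElem_range]
      rw [v2 _ (by omega), List.getD_append_right _ _ _ _ (by omega)]
      simp [hy, i2]
    refine ⟨fun v => ∃ t, ∃ x : Cell, (x.1 < 4 ∧ x.2.1 < nst p ∧ x.2.2 + t ≤ 2 ^ k w + 1) ∧ d (st v) = gM p (enc w) t x,
      ?_, ?_⟩
    · have hx : (1 : ℕ) < 4 ∧ 0 < nst p ∧ 1 + 2 ^ k w ≤ 2 ^ k w + 1 := ⟨by omega, by simp [nst], by omega⟩
      obtain ⟨v, v1, -, v3⟩ := ex true false (List.replicate (m w) false) _ (1, 0, 1) (by simp) hx ⟨rfl, rfl, h1⟩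
      exact ⟨v, (hR 2 (by omega) v v).2 ⟨v1, by omega⟩, _, _, hx, v3⟩
    · rintro u ⟨t, x, hx, hu⟩ c hc
      obtain ⟨t', y, hy, h2⟩ := gE_next p (enc w) (decide (c = 1)) t x _ hx
      obtain ⟨v, v1, v2, v3⟩ := ex false (decide (c = 1)) (st u) t' y (by simp [st]) hy (by simpa [hu] using h2)
      exact ⟨v, (hR c (by omega) u v).2 ⟨by rwa [decide_eq_false (by omega : c ≠ 2)],
        fun _ j hj => by simp [v2 j hj, st, hj]⟩, _, _, hy, v3⟩
  · rintro ⟨W, ⟨v, v1, v2⟩, h1⟩
    have h2 := (H _).1 v ((hR 2 (by omega) v v).1 v1).1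
    simp only [sz, decide_true, if_true, decide_eq_true_eq] at h2
    rw [dr] at h2
    have := gE_sound (p := p) (w := enc w) (W := fun s => ∃ v, W v ∧ s = d (st v)) ?_ _ _ ⟨v, v2, rfl⟩ h2.1
    · rw [← h2.2.1, ← this.2, h2.2.2]
    · rintro _ ⟨u, hu, rfl⟩ c
      obtain ⟨v, v1, v2⟩ := h1 u hu c.toNat (by cases c <;> simp)
      obtain ⟨v3, v4⟩ := (hR _ (by cases c <;> simp) u v).1 v1
      have h2 := (H _).1 v v3
      simp only [sz, show decide (c.toNat = 2) = false by cases c <;> rfl, Bool.false_eq_true, if_false,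
        decide_eq_true_eq, show decide (c.toNat = 1) = c by cases c <;> rfl] at h2
      rw [dr, tk, List.map_congr_left fun j hj => v4 (by cases c <;> simp) j (List.mem_range.1 hj)] at h2
      exact ⟨_, ⟨v, v2, rfl⟩, h2⟩

end Pool.Agent.Lib.CX
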