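import Pool.Agent.Lib.lead.CXCook

/-! PSPACE-hard base problems: reachability along a 3-CNF relation, and a DFA sending a set of states into
another set. -/

set_option autoImplicit false

namespace Pool.Agent.Lib.CX

open Function

variable {α β V : Type}

/-- the pair of assignments `u` (variables `(false, x)`) and `v` (variables `(true, x)`) satisfies `R` -/
def Rel3 (R : List (Cl3 (Bool × V))) (u v : V → Bool) : Prop :=
  ∀ C ∈ R, C.ok fun y => if y.1 = true then v y.2 else u y.2

/-- from the assignment making exactly the listed variables true one reaches one making the target true -/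
def Reach3 (a : List (Cl3 (Bool × V)) × List V × V) : Prop :=
  ∃ u v, (∀ x, u x = true ↔ x ∈ a.2.1) ∧ Relation.ReflTransGen (Rel3 a.1) u v ∧ v a.2.2 = true

noncomputable def rtab (p : Prog) (b : Bool) (a : List Bool × List Unit) :
    List (Cl3 (Bool × Cell)) × List Cell × Cell :=
  ((List.range 4 ×ˢ List.range (nst p)).map (fun x => unit (true, x.1, x.2, a.2.length) (decide (x.1 = 2))) ++
    (labels p).flatMap fun κ =>
      [(((false, lab p κ), false), ((false, cnd κ), false), ((true, lab p (nxt κ true)), true)),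
        (((false, lab p κ), false), ((false, cnd κ), true), ((true, lab p (nxt κ false)), true)),
        (((false, lab p κ), false), ((true, 5, 0, 0), false),
          if κ.isEmpty then ((false, 1, 0, 1), b) else ((true, 5, 0, 0), false))] ++
      (cells (nst p) a.2.length).flatMap fun x =>
        [(((false, lab p κ), false), ((false, src κ x), false), ((true, x), true)),
          (((false, lab p κ), false), ((false, src κ x), true), ((true, x), false))],
    lab p [p] :: (cells (nst p) (a.2.length + 1)).filter fun x => ini (a.1.map some) x = some true,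
    (5, 0, 0))

theorem PT.rtab (p : Prog) (b : Bool) : PT (rtab p b) := by
  refine PT.pair (PT.append (by unfold unit; fun_prop) (PT.flatMap_const _ fun κ _ => ?_))
    (by unfold cells ini; fun_prop)
  have := PT.src κ
  unfold cells; fun_prop

theorem cval_out {s : St} {d i H : ℕ} (h : (s i).length ≤ H) : cval s (d, i, H) = decide (d = 2) := by
  rcases d with _ | _ | d <;> simp [cval, h]

theorem rtab_iff {p : Prog} {b : Bool} {w : List Bool} {U : List Unit} {t : St} {n : ℕ}
    (e : Exec p (io w) t n U.length) (h1 : w.length ≤ U.length) (h2 : 1 ≤ U.length) :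
    Reach3 (rtab p b (w, U)) ↔ cval t (1, 0, 1) = b := by
  have sp : ∀ j i, ((step^[j] ([p], io w)).2 i).length ≤ U.length := fun j i => by
    have := e.run_space (fun i => by unfold io; split_ifs <;> simp [h1]) []
    rcases le_total j n with h | h
    · exact this j h i
    · rw [e.run_le h, ← e.run_le le_rfl]
      exact this n le_rfl i
  have fin : ∀ j s, step^[j] ([p], io w) = ([], s) → s = t := fun j s h => by
    have h3 := e.run_le (n.le_add_right j)
    rw [iterate_add_apply, h, step_halt] at h3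
    exact (Prod.mk.inj h3).2
  have fit : Fits (w.map some) w := by simp [Fits]
  have i0 : ∀ x : Cell, x.1 < 4 → x.2.1 < nst p → x.2.2 ≤ U.length →
      decide (x ∈ (rtab p b (w, U)).2.1) = cval (io w) x :=
    fun x a b c => by
      have h3 : x ≠ lab p [p] := fun h => by simp [h, lab] at a
      rcases h : ini (w.map some) x with _ | c
      · unfold ini at h
        split_ifs at h
        rcases lt_or_ge x.2.2 w.length with h4 | h4 <;> simp [h4] at h
      · rw [fit.ini h]
        cases c <;> simp [rtab, mem_cells, *]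
  have i4 : ∀ κ ∈ labels p, lab p κ ∈ (rtab p b (w, U)).2.1 ↔ κ = [p] := fun κ hκ => by
    simpa [rtab, mem_cells, show (lab p κ).1 = 4 from rfl] using ⟨lab_inj hκ, fun h => h ▸ rfl⟩
  have i5 : (5, 0, 0) ∉ (rtab p b (w, U)).2.1 := by simp [rtab, lab, mem_cells]
  have hR : ∀ u v, Rel3 (rtab p b (w, U)).1 u v ↔
      (∀ d < 4, ∀ i < nst p, v (d, i, U.length) = decide (d = 2)) ∧ ∀ κ ∈ labels p,
      u (lab p κ) = true → v (lab p (nxt κ (u (cnd κ)))) = true ∧
        (v (5, 0, 0) = true → κ = [] ∧ u (1, 0, 1) = b) ∧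
        ∀ x : Cell, x.1 < 4 → x.2.1 < nst p → x.2.2 < U.length → v x = u (src κ x) := fun u v => by
    simp only [rtab, Rel3, List.forall_mem_append, List.forall_mem_flatMap, List.forall_mem_cons,
      List.forall_mem_map, List.not_mem_nil, IsEmpty.forall_iff, implies_true, and_true, Cl3.ok, unit,
      or_self, mem_cells, Prod.forall, List.mem_product, List.mem_range, if_true, Bool.false_eq_true,
      if_false, and_imp]
    refine and_congr (forall_congr' fun d => forall_comm) (forall₂_congr fun κ _ => ?_)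
    cases u (lab p κ)
    · simp
    · simp only [Bool.true_eq_false, false_or, forall_const, and_assoc]
      rw [← and_assoc]
      refine and_congr (by cases u (cnd κ) <;> simp) (and_congr (by cases h : v (5, 0, 0) <;> cases κ <;> simp [h])
        (forall₅_congr fun d i j _ _ => forall_congr' fun _ => ?_))
      cases v _ <;> cases u _ <;> simp
  rw [Reach3, show (rtab p b (w, U)).2.2 = (5, 0, 0) from rfl]
  generalize rtab p b (w, U) = T, U.length = H at *
  constructor
  · rintro ⟨u, v, hu, h, hv⟩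
    obtain rfl : u = fun x => decide (x ∈ T.2.1) := funext fun x => by simp [← hu]
    suffices ∃ j, v (lab p (step^[j] ([p], io w)).1) = true ∧ (∀ x : Cell, x.1 < 4 → x.2.1 < nst p →
        x.2.2 ≤ H → v x = cval (step^[j] ([p], io w)).2 x) ∧ (v (5, 0, 0) = true → cval t (1, 0, 1) = b) from
      this.choose_spec.2.2 hv
    clear hv
    induction h with
    | refl => exact ⟨0, decide_eq_true ((i4 _ (run_label p (io w) 0)).2 rfl), i0, by simp [i5]⟩
    | @tail u v _ h ih =>
      obtain ⟨j, i1, i2, -⟩ := ih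
      obtain ⟨a0, h⟩ := (hR _ _).1 h
      have hl := run_label p (io w) j
      obtain ⟨a1, a2, a3⟩ := h _ hl i1
      have := sp (j + 1)
      have f := fin j
      refine ⟨j + 1, ?_⟩
      rw [iterate_succ_apply'] at this ⊢
      generalize step^[j] ([p], io w) = c at *
      obtain ⟨κ, s⟩ := c
      refine ⟨?_, fun x a b c => ?_, fun h => ?_⟩
      · rwa [step_fst, ← i2 _ (cnd_bound κ).1 (cnd_lt hl) (by rw [(cnd_bound κ).2]; omega)]
      · rcases c.eq_or_lt with c | c
        · obtain ⟨d, i, _⟩ := x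
          obtain rfl : _ = H := c
          rw [a0 d a i b, cval_out (this i)]
        · obtain ⟨b1, b2, b3⟩ := src_bound κ x
          rw [step_snd, ← i2 _ (b1 a) (b2 ▸ b) (by omega), a3 x a b c]
      · obtain ⟨rfl, h⟩ := a2 h
        rw [← f s rfl, ← i2 _ (by simp) (by simp [nst]) h2, h]
  · intro h
    classical
    obtain ⟨v, hv⟩ : ∃ v : ℕ → Bool → Cell → Bool, ∀ j c, (∀ κ ∈ labels p, v j c (lab p κ) = true ↔
        κ = (step^[j] ([p], io w)).1) ∧ v j c (5, 0, 0) = c ∧
        ∀ x : Cell, x.1 < 4 → v j c x = cval (step^[j] ([p], io w)).2 x :=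
      ⟨fun j c x => if x.1 = 4 then decide (x = lab p (step^[j] ([p], io w)).1) else if x.1 = 5 then c
        else cval (step^[j] ([p], io w)).2 x, fun j c => ⟨fun κ hκ => by
          simp only [show (lab p κ).1 = 4 from rfl, if_true, decide_eq_true_eq]
          exact ⟨lab_inj hκ, fun h => h ▸ rfl⟩, rfl, fun x hx => by simp only [hx.ne, show x.1 ≠ 5 by omega, if_false]⟩⟩
    have st : ∀ j c u, (∀ κ ∈ labels p, u (lab p κ) = true → κ = (step^[j] ([p], io w)).1) →
        (∀ x : Cell, x.1 < 4 → x.2.1 < nst p → x.2.2 ≤ H → u x = cval (step^[j] ([p], io w)).2 x) →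
        (c = true → j = n) → Rel3 T.1 u (v (j + 1) c) := fun j c u u1 u2 u3 => by
      refine (hR _ _).2 ⟨fun d a i _ => by rw [(hv _ _).2.2 _ a, cval_out (sp _ i)], fun κ hκ h3 => ?_⟩
      obtain rfl := u1 κ hκ h3
      refine ⟨((hv _ _).1 _ (labels_closed hκ _)).2 ?_, fun h4 => ?_, fun x a b c => ?_⟩
      · rw [iterate_succ_apply', u2 _ (cnd_bound _).1 (cnd_lt hκ) (by rw [(cnd_bound _).2]; omega),
          ← step_fst]
      · rw [u2 _ (by simp) (by simp [nst]) h2, u3 ((hv _ _).2.1.symm.trans h4), e.run_le le_rfl]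
        exact ⟨rfl, h⟩
      · obtain ⟨b1, b2, b3⟩ := src_bound (step^[j] ([p], io w)).1 x
        rw [(hv _ _).2.2 _ a, u2 _ (b1 a) (b2 ▸ b) (by omega), iterate_succ_apply', ← step_snd]
    have : ∀ j c, (c = true → j = n) → Relation.ReflTransGen (Rel3 T.1) (fun x => decide (x ∈ T.2.1))
        (v (j + 1) c) := fun j => by
      induction j with
      | zero =>
        exact fun c hc => .single (st 0 c _ (fun κ hκ h3 => (i4 κ hκ).1 (of_decide_eq_true h3)) i0 hc)
      | succ j ih =>
        exact fun c hc => (ih false (by simp)).tail (st _ c _ (fun κ hκ => ((hv _ _).1 κ hκ).1)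
          (fun x a _ _ => (hv _ _).2.2 x a) hc)
    exact ⟨_, _, by simp, this n true fun _ => rfl, (hv _ _).2.1⟩

theorem reach_red [Enc α] {f : α → Bool} (hf : PSp f) (b : Bool) :
    Red (fun a => f a = b) (Reach3 (V := Cell)) := by
  obtain ⟨p, q, h⟩ := hf
  refine ⟨fun a => rtab p b (enc a, List.replicate (q.eval (size a) + size a + 1) ()),
    (PT.rtab p b).comp (by fun_prop), fun a => ?_⟩
  obtain ⟨n, e⟩ := h a
  exact (rtab_iff (e.mono (by simp; omega)) (by simp [size]; omega) (by simp)).symm

/-- the state reached from `q` by the word `w` in the automaton with transition tables `δ.1`, `δ.2` -/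
def drun (δ : List ℕ × List ℕ) (w : List Bool) (q : ℕ) : ℕ :=
  w.foldl (fun q b => (if b = true then δ.2 else δ.1).getD q 0) q

/-- some word sends all states of the first list into the second list -/
def Into (a : (List ℕ × List ℕ) × List ℕ × List ℕ) : Prop := ∃ w, ∀ q ∈ a.2.1, drun a.1 w q ∈ a.2.2

def DWF (a : (List ℕ × List ℕ) × List ℕ × List ℕ) : Prop :=
  a.1.2.length = a.1.1.length ∧ ∀ q ∈ a.1.1 ++ a.1.2 ++ a.2.1 ++ a.2.2, q < a.1.1.length

def mkD [DecidableEq V] (Q : List V) (δ : V → Bool → V) (S F : List V) : (List ℕ × List ℕ) × List ℕ × List ℕ :=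
  ((Q.map fun q => Q.idxOf (δ q false), Q.map fun q => Q.idxOf (δ q true)), S.map Q.idxOf, F.map Q.idxOf)

theorem mkD_spec [DecidableEq V] {Q S F : List V} {δ : V → Bool → V} (h : ∀ q ∈ Q, ∀ b, δ q b ∈ Q)
    (hS : ∀ q ∈ S, q ∈ Q) (hF : ∀ q ∈ F, q ∈ Q) :
    DWF (mkD Q δ S F) ∧ (Into (mkD Q δ S F) ↔ ∃ w : List Bool, ∀ q ∈ S, w.foldl δ q ∈ F) := by
  have e : ∀ (w : List Bool), ∀ q ∈ Q, drun (mkD Q δ S F).1 w (Q.idxOf q) = Q.idxOf (w.foldl δ q) ∧
      w.foldl δ q ∈ Q := fun w => by
    induction w with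
    | nil => exact fun q hq => ⟨rfl, hq⟩
    | cons b w ih =>
      intro q hq
      have := List.idxOf_lt_length_of_mem hq
      simp only [drun, List.foldl_cons] at ih ⊢
      rw [← (ih _ (h q hq b)).1]
      exact ⟨by cases b <;> simp [mkD, this], (ih _ (h q hq b)).2⟩
  refine ⟨⟨by simp [mkD], ?_⟩, exists_congr fun w => ?_⟩
  · simp only [mkD, List.forall_mem_append, List.forall_mem_map, List.length_map,
      List.idxOf_lt_length_iff]
    exact ⟨⟨⟨fun q hq => h q hq _, fun q hq => h q hq _⟩, hS⟩, hF⟩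
  · refine List.forall_mem_map.trans (forall₂_congr fun q hq => ?_)
    rw [(e w q (hS q hq)).1]
    exact List.mem_map.trans ⟨fun ⟨x, h1, h2⟩ => (List.idxOf_inj (hF x h1)).1 h2 ▸ h1, fun h1 => ⟨_, h1, rfl⟩⟩

abbrev DC := List (ℕ × Bool) × List (ℕ × Bool)
abbrev DS := DC × ℕ × Bool × Bool

def dstep (N : ℕ) (s : DS) (b : Bool) : DS :=
  if s.2.1 < N then (s.1, s.2.1 + 1, s.2.2.1 || decide ((s.2.1, b) ∈ s.1.2), s.2.2.2 || decide ((s.2.1, b) ∈ s.1.1))
  else if s.2.1 = N ∧ s.2.2.1 = true then (s.1, 0, s.2.2.2, false) else (s.1, N + 1, s.2.2)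

def hit (L : List (ℕ × Bool)) (p : ℕ) (l : List Bool) : Bool :=
  L.any fun x => decide (p ≤ x.1 ∧ l[x.1 - p]? = some x.2)

theorem hit_cons (L : List (ℕ × Bool)) (p : ℕ) (b : Bool) (l : List Bool) :
    hit L p (b :: l) = (decide ((p, b) ∈ L) || hit L (p + 1) l) := by
  rw [Bool.eq_iff_iff]
  simp only [hit, List.any_eq_true, decide_eq_true_eq, Bool.or_eq_true]
  constructor
  · rintro ⟨⟨i, c⟩, h, h1, h2⟩
    obtain ⟨_ | k, rfl⟩ := Nat.exists_eq_add_of_le h1
    · exact .inl (by simp_all)
    · exact .inr ⟨_, h, by simp, by simpa [show p + (k + 1) - (p + 1) = k by omega] using h2⟩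
  · rintro (h | ⟨⟨i, c⟩, h, h1, h2⟩)
    · exact ⟨_, h, by simp⟩
    · obtain ⟨k, rfl⟩ := Nat.exists_eq_add_of_le h1
      exact ⟨_, h, by simp [add_assoc], by simpa [show p + 1 + k - p = k + 1 by omega] using h2⟩

theorem dstep_run {N : ℕ} (c : DC) (l : List Bool) : ∀ p o n, p + l.length ≤ N →
    l.foldl (dstep N) (c, p, o, n) = (c, p + l.length, o || hit c.2 p l, n || hit c.1 p l) := by
  induction l with
  | nil => simp [hit]
  | cons b l ih =>
    intro p o n h
    simp only [List.length_cons] at h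
    rw [List.foldl_cons, dstep, if_pos (by simp; omega), ih _ _ _ (by simp; omega)]
    simp [hit_cons, Bool.or_assoc]
    omega

theorem dstep_dead {N : ℕ} (c : DC) (l : List Bool) (z : Bool × Bool) :
    l.foldl (dstep N) (c, N + 1, z) = (c, N + 1, z) := by
  induction l with
  | nil => rfl
  | cons b l ih => rw [List.foldl_cons, dstep, if_neg (by simp), if_neg (by simp), ih]

theorem dstep_blk (c : DC) (l : List Bool) (o b : Bool) (w : List Bool) :
    (l ++ b :: w).foldl (dstep l.length) (c, 0, o, false) = if (o || hit c.2 0 l) = true then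
      w.foldl (dstep l.length) (c, 0, hit c.1 0 l, false)
      else (c, l.length + 1, o || hit c.2 0 l, hit c.1 0 l) := by
  rw [List.foldl_append, dstep_run c l 0 o false (by omega), List.foldl_cons, dstep, if_neg (by simp)]
  cases h : o || hit c.2 0 l <;> simp [dstep_dead]

section
variable [DecidableEq V]

def rvars (a : List (Cl3 (Bool × V)) × List V × V) : List V :=
  (a.2.2 :: a.1.flatMap fun C => [C.1.1.2, C.2.1.1.2, C.2.2.1.2]).dedup

def rcl (vs : List V) (C : Cl3 (Bool × V)) : DC :=
  (([C.1, C.2.1, C.2.2].filter fun l => l.1.1 = false).map fun l => (vs.idxOf l.1.2, l.2),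
    ([C.1, C.2.1, C.2.2].filter fun l => l.1.1 = true).map fun l => (vs.idxOf l.1.2, l.2))

def rtg (a : List (Cl3 (Bool × V)) × List V × V) : DC :=
  ([((rvars a).idxOf a.2.2, true)], [(0, true), (0, false)])

def rcls (a : List (Cl3 (Bool × V)) × List V × V) : List DC := rtg a :: a.1.map (rcl (rvars a))

def racc (a : List (Cl3 (Bool × V)) × List V × V) : List DS :=
  ((rcls a).map fun c => (c, 0, true, false)) ++
    ((rcls a).filter (· ≠ rtg a)).map fun c => (c, 0, false, false)

def rdfa (a : List (Cl3 (Bool × V)) × List V × V) : (List ℕ × List ℕ) × List ℕ × List ℕ :=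
  mkD (rcls a ×ˢ List.range ((rvars a).length + 2) ×ˢ [false, true] ×ˢ [false, true]) (dstep (rvars a).length)
    ((rcls a).map fun c => (c, 0, hit c.1 0 ((rvars a).map fun x => decide (x ∈ a.2.1)), false)) (racc a)

theorem PT.rdfa [Enc V] : PT (rdfa (V := V)) := by
  have h1 : PT (rvars (V := V)) := by unfold rvars; fun_prop
  have h0 : PT (rtg (V := V)) := by unfold rtg; fun_prop
  have h2 : PT (rcls (V := V)) := by unfold rcls rcl; fun_prop
  have h5 : PT (racc (V := V)) := by unfold racc; fun_prop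
  have h3 : PT fun x : ℕ × DS × Bool => dstep x.1 x.2.1 x.2.2 := by unfold dstep; fun_prop
  have h4 : PT fun x : List (ℕ × Bool) × ℕ × List Bool => hit x.1 x.2.1 x.2.2 := by unfold hit; fun_prop
  unfold CX.rdfa mkD; fun_prop

variable {a : List (Cl3 (Bool × V)) × List V × V}

theorem rv_get {x : V} (h : x ∈ a.2.2 :: a.1.flatMap fun C => [C.1.1.2, C.2.1.1.2, C.2.2.1.2]) (u : V → Bool) :
    ((rvars a).map u)[(rvars a).idxOf x]? = some (u x) := by
  rw [List.getElem?_map, List.getElem?_idxOf (show x ∈ rvars a from List.mem_dedup.2 h)]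
  rfl

theorem rcl_ok {C : Cl3 (Bool × V)} (h : C ∈ a.1) (u v : V → Bool) :
    (C.ok fun y => if y.1 = true then v y.2 else u y.2) ↔
      (hit (rcl (rvars a) C).1 0 ((rvars a).map u) || hit (rcl (rvars a) C).2 0 ((rvars a).map v)) = true := by
  have := fun x hx => rv_get (List.mem_cons_of_mem _ (List.mem_flatMap.2 ⟨C, h, hx⟩) : x ∈ _)
  obtain ⟨⟨⟨x, _⟩, _⟩, ⟨⟨y, _⟩, _⟩, ⟨z, _⟩, _⟩ := C
  simp only [List.forall_mem_cons] at this
  cases x <;> cases y <;> cases z <;> simp [Cl3.ok, hit, rcl, this, -List.getElem?_map] <;> tauto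

theorem rdfa_spec (a : List (Cl3 (Bool × V)) × List V × V) : DWF (rdfa a) ∧ (Reach3 a ↔ Into (rdfa a)) := by
  have ac : ∀ c p o n, (c, p, o, n) ∈ racc a ↔ c ∈ rcls a ∧ p = 0 ∧ n = false ∧ (c = rtg a → o = true) :=
    fun c p o n => by
      simp only [racc, List.mem_append, List.mem_map, List.mem_filter, Prod.mk.injEq, decide_eq_true_eq]
      constructor
      · rintro (⟨_, h, rfl, rfl, rfl, rfl⟩ | ⟨_, h, rfl, rfl, rfl, rfl⟩) <;> simp [h]
      · rintro ⟨h, rfl, rfl, h1⟩
        cases o
        exacts [.inr ⟨_, ⟨h, by simpa using h1⟩, by simp⟩, .inl ⟨_, h, by simp⟩]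
  have mq : ∀ (c : DC) p (o n : Bool), (c, p, o, n) ∈ rcls a ×ˢ List.range ((rvars a).length + 2) ×ˢ
      [false, true] ×ˢ [false, true] ↔ c ∈ rcls a ∧ p < (rvars a).length + 2 := fun c p o n => by
    cases o <;> cases n <;> simp [List.mem_product]
  refine (mkD_spec ?_ (List.forall_mem_map.2 fun c h => (mq ..).2 ⟨h, by omega⟩) fun ⟨c, p, o, n⟩ h =>
    (mq ..).2 ⟨((ac ..).1 h).1, by have := ((ac ..).1 h).2.1; omega⟩).imp_right fun h => .trans ?_ h.symm
  · rintro ⟨c, p, o, n⟩ h b
    rw [mq] at h
    simp only [dstep]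
    split_ifs <;> exact (mq ..).2 ⟨h.1, by omega⟩
  have tg : ∀ u : V → Bool, hit (rtg a).1 0 ((rvars a).map u) = u a.2.2 := fun u => by
    simp [hit, rtg, rv_get, -List.getElem?_map]
  have rl : ∀ u v : V → Bool, Rel3 a.1 u v ↔ ∀ c ∈ rcls a,
      (hit c.1 0 ((rvars a).map u) || hit c.2 0 ((rvars a).map v)) = true := fun u v => by
    have : hit (rtg a).2 0 ((rvars a).map v) = true := by
      have : a.2.2 ∈ rvars a := by simp [rvars]
      rcases h : rvars a with _ | ⟨x, l⟩
      · simp [h] at this
      · simp [hit, rtg]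
    simp only [rcls, List.forall_mem_cons, List.forall_mem_map, this, Bool.or_true, true_and]
    exact forall₂_congr fun C h => rcl_ok h u v
  simp only [List.forall_mem_map]
  constructor
  · rintro ⟨u, v, hu, h, hv⟩
    rw [show (fun x => decide (x ∈ a.2.1)) = u from funext fun x => by simp [← hu]]
    clear hu
    induction h using Relation.ReflTransGen.head_induction_on with
    | refl => exact ⟨[], fun c hc => (ac ..).2 ⟨hc, rfl, rfl, by rintro rfl; rw [tg, hv]⟩⟩
    | @head u u' h _ ih =>
      obtain ⟨w, ih⟩ := ih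
      refine ⟨(rvars a).map u' ++ false :: w, fun c hc => ?_⟩
      have := dstep_blk c ((rvars a).map u') (hit c.1 0 ((rvars a).map u)) false w
      rw [List.length_map, if_pos ((rl _ _).1 h c hc)] at this
      exact this ▸ ih c hc
  · rintro ⟨w, h⟩
    refine ⟨fun x => decide (x ∈ a.2.1), ?_⟩
    simp only [decide_eq_true_eq, implies_true, true_and]
    generalize (fun x => decide (x ∈ a.2.1)) = u at h
    induction hn : w.length using Nat.strong_induction_on generalizing w u with
    | _ n ih =>
    rcases le_or_gt n (rvars a).length with h1 | h1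
    · have := h _ List.mem_cons_self
      rw [dstep_run _ _ _ _ _ (by omega), ac] at this
      obtain rfl : w = [] := by simpa using this.2.1
      exact ⟨u, .refl, by simpa [tg, show ∀ L, hit L 0 [] = false by simp [hit]] using this.2.2.2⟩
    · obtain ⟨l, b, w, rfl, hl⟩ : ∃ l b w', w = l ++ b :: w' ∧ l.length = (rvars a).length :=
        ⟨w.take (rvars a).length, w[(rvars a).length], w.drop ((rvars a).length + 1), by simp,
          by simp; omega⟩
      obtain ⟨v, rfl⟩ : ∃ v, l = (rvars a).map v := ⟨fun x => l.getD ((rvars a).idxOf x) false,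
        List.ext_getElem (by simpa) fun i h2 h3 => by
          simp [List.Nodup.idxOf_getElem (show (rvars a).Nodup from List.nodup_dedup _), h2]⟩
      simp only [← hl, dstep_blk] at h
      have h2 : ∀ c ∈ rcls a, (hit c.1 0 ((rvars a).map u) || hit c.2 0 ((rvars a).map v)) = true :=
        fun c hc => by_contra fun h2 => by simpa [h2, ac] using h c hc
      obtain ⟨v', h3, h4⟩ := ih _ (by simp [← hn]; omega) w v
        (fun c hc => by simpa only [h2 c hc, if_true, hl] using h c hc) rfl
      exact ⟨v', h3.head ((rl _ _).2 h2), h4⟩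

end

/-- PSPACE-hardness of `B` (`b = true`) or of its complement (`b = false`) by a reduction from `Into` -/
theorem PSPACEHard.of_into [Enc β] {B : β → Prop} (b : Bool) (f : (List ℕ × List ℕ) × List ℕ × List ℕ → β)
    (hf : PT f) (h : ∀ a, DWF a → (Into a ↔ (B (f a) ↔ b = true))) : PSPACEHard B := by
  rintro A ⟨g, hg, e⟩
  obtain ⟨r, hr, e'⟩ := reach_red hg b
  refine ⟨fun a => f (rdfa (r a)), hf.comp (PT.rdfa.comp hr), fun a => ?_⟩
  have := (e' a).trans ((rdfa_spec _).2.trans (h _ (rdfa_spec _).1))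
  rw [e]
  beta_reduce at this
  revert this
  cases g a <;> cases b <;> simp

end Pool.Agent.Lib.CX
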