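import Pool.Agent.Lib.helper4.CXPspM

set_option autoImplicit false

namespace Pool.Agent.Lib.CX

open Function

variable {α : Type} [Enc α]

theorem PSp.pair {f g : α → Bool} (hf : PSp f) (hg : PSp g) : PSp fun a => (f a, g a) := by
  obtain ⟨p, N, hN, h⟩ := PSp_iff.1 hf
  obtain ⟨q, K, hK, h'⟩ := PSp_iff.1 hg
  refine PSp_iff.2 ⟨pairP p q, fun a => 8 * size a + 20 + N a + K a, by have := PB.size' (α := α); fun_prop,
    fun a => ?_⟩
  have sq : ∀ {p q s t u m}, (∃ n, Exec p s t n m) → (∃ n, Exec q t u n m) → ∃ n, Exec (.seq p q) s u n m :=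
    fun ⟨_, a⟩ ⟨_, b⟩ => ⟨_, .seq a b⟩
  have fx : ∀ {p L t n}, X p (st L) t n → n ≤ 7 * size a + 16 → (∀ l ∈ L, l.length ≤ size a + 4) →
      ∃ n, Exec p (st L) t n (8 * size a + 20 + N a + K a) := fun {p L t n} ⟨k, h1, _, h2⟩ h3 h4 =>
    ⟨_, (h2.space (size a + 4) fun i => by
      by_cases h : i < L.length
      · simpa [st, h] using h4 _ (List.getElem_mem h)
      · simp [st, h]).1.mono (by omega)⟩
  obtain ⟨n1, a1⟩ := h a
  obtain ⟨n2, a2⟩ := h' a
  have l0 : (enc a).length = size a := rfl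
  have l1 : (enc (f a)).length = 2 := rfl
  have l2 : (enc (g a)).length = 2 := rfl
  have l3 : enc (f a, g a) = true :: (enc (f a) ++ enc (g a)) := rfl
  rw [l3]
  generalize enc a = x, enc (f a) = y, enc (g a) = z at *
  have e1 := X.mv (i := 0) (j := 1) (by simp) (st [x, [], [], []])
  have e2 := X.mv2 (i := 1) (j := 0) (k := 2) (by simp) (by simp) (by simp) (st [[], x.reverse, [], []])
  have e3 := ((a1.shift []).shift x).mono (show _ ≤ 8 * size a + 20 + N a + K a by omega)
  have e4 := X.mv (i := 0) (j := 1) (by simp) (st [x, [], y, []])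
  have e5 := X.mv (i := 1) (j := 3) (by simp) (st [[], x.reverse, y, []])
  have e6 := (((a2.shift y).shift []).shift []).mono (show _ ≤ 8 * size a + 20 + N a + K a by omega)
  have e7 := X.mv (i := 3) (j := 1) (by simp) (st [[], [], y, z])
  have e8 := X.mv (i := 1) (j := 0) (by simp) (st [[], z.reverse, y, []])
  have e9 := X.mv (i := 2) (j := 1) (by simp) (st [z, [], y, []])
  have e10 := X.mv (i := 1) (j := 0) (by simp) (st [z, y.reverse, [], []])
  have e11 := X.push 0 true (st [y ++ z, [], [], []])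
  simp only [scons_st] at e3 e6
  rw [← st4, ← st4 x [] y] at e3
  simp [update_st] at e1 e2 e4 e5 e7 e8 e9 e10 e11
  have := sq (fx e1 (by omega) (by simp; omega)) (sq (fx e2 (by omega) (by simp; omega)) (sq ⟨_, e3⟩
    (sq (fx e4 (by omega) (by simp; omega)) (sq (fx e5 (by omega) (by simp; omega)) (sq ⟨_, e6⟩
    (sq (fx e7 (by omega) (by simp; omega)) (sq (fx e8 (by omega) (by simp; omega))
    (sq (fx e9 (by omega) (by simp; omega)) (sq (fx e10 (by omega) (by simp; omega))
    (fx e11 (by omega) (by simp; omega)))))))))))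
  simpa only [st4, st3, st2, pairP] using this

theorem InPSPACE.and {A B : α → Prop} (h : InPSPACE A) (h' : InPSPACE B) : InPSPACE fun a => A a ∧ B a := by
  obtain ⟨f, hf, e⟩ := h
  obtain ⟨g, hg, e'⟩ := h'
  obtain ⟨p, N, hN, h⟩ := PSp_iff.1 (hf.pair hg)
  obtain ⟨p0, N0, ⟨q, hq⟩, h0⟩ := PT_iff.1 (show PT fun b : Bool × Bool => b.1 && b.2 by fun_prop)
  refine ⟨fun a => f a && g a, PSp_iff.2 ⟨.seq p p0, fun a => N a + (5 + q.eval 5),
    hN.add (PB.const _), fun a => ?_⟩, fun a => by simp [e, e']⟩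
  obtain ⟨n, e1⟩ := h a
  obtain ⟨n0, e0⟩ := Exec.of_X (h0 (f a, g a))
  have := hq (f a, g a)
  have h2 : (enc (f a, g a)).length = 5 := rfl
  rw [show size (f a, g a) = 5 from rfl] at this
  exact ⟨_, .seq (e1.mono (Nat.le_add_right _ _)) (e0.mono (by beta_reduce; omega))⟩

end Pool.Agent.Lib.CX
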