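import Pool.Agent.Lib.helper4.CXGame
import Pool.Agent.Lib.lead.CXBase

/-! Impartial games with typed tokens sliding along typed edges. -/

set_option autoImplicit false

namespace Pool.Agent.Lib.CX

open Function

variable {V V' : Type} [DecidableEq V] [DecidableEq V']

/-- `k` says whether the moving token survives a collision -/
def MoveF (k : Bool) (E : List (ℕ × V × V)) (p q : V → Option ℕ) : Prop :=
  ∃ e ∈ E, p e.2.1 = some e.1 ∧
    q = update (update p e.2.1 none) e.2.2 (if p e.2.2 = none ∨ k = true then some e.1 else none)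

theorem moveF_map (k : Bool) (E : List (ℕ × V × V)) {g : V → V'} (hg : Injective g) (p : V' → Option ℕ) :
    Win (MoveF k (E.map fun e => (e.1, g e.2.1, g e.2.2))) p ↔ Win (MoveF k E) (p ∘ g) := by
  refine (win_iff (R := fun p p' => p' = p ∘ g) ?_ ?_ rfl).1
  · rintro p _ rfl _ ⟨_, h, h1, rfl⟩
    obtain ⟨e, he, rfl⟩ := List.mem_map.1 h
    exact ⟨_, ⟨e, he, h1, rfl⟩, by simp only [update_comp_eq_of_injective _ hg]; rfl⟩
  · rintro p _ rfl _ ⟨e, h, h1, rfl⟩
    exact ⟨_, ⟨_, List.mem_map_of_mem h, h1, rfl⟩, by simp only [update_comp_eq_of_injective _ hg]; rfl⟩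

theorem place_cons (e : V × ℕ) (L : List (V × ℕ)) (v : V) :
    place (e :: L) v = if v = e.1 then some e.2 else place L v := by
  by_cases h : e.1 = v
  · simp [place, h]
  · simp [place, h, Ne.symm h]

theorem place_map {g : V → V'} (hg : Injective g) (L : List (V × ℕ)) (v : V) :
    place (L.map fun e => (g e.1, e.2)) (g v) = place L v := by
  induction L with
  | nil => rfl
  | cons e L ih => simp [place_cons, ih, hg.eq_iff]

theorem place_filter (L : List (V × ℕ)) (P : V → Prop) [DecidablePred P] (v : V) :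
    place (L.filter fun e => P e.1) v = if P v then place L v else none := by
  induction L with
  | nil => simp [place]
  | cons e L ih => by_cases h : v = e.1 <;> by_cases h' : P e.1 <;> simp_all [place_cons]

theorem tok_mem (k : Bool) : (InEXP fun a : List (ℕ × ℕ × ℕ) × List (ℕ × ℕ) => Win (MoveF k a.1) (place a.2)) ∧
    InEXP fun a : List (ℕ × ℕ × ℕ) × List (ℕ × ℕ) => Lose (MoveF k a.1) (place a.2) := by
  let mv : List (ℕ × ℕ × ℕ) × List (ℕ × ℕ) → List (ℕ × ℕ) → List (List (ℕ × ℕ)) := fun a s =>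
    (a.1.filter fun e => place s e.2.1 = some e.1).map fun e =>
      (if place s e.2.2 = none ∨ k = true then [(e.2.2, e.1)] else []) ++
        s.filter fun x => x.1 ≠ e.2.1 ∧ x.1 ≠ e.2.2
  have e : ∀ (s : List (ℕ × ℕ)) (e : ℕ × ℕ × ℕ), update (update (place s) e.2.1 none) e.2.2
      (if place s e.2.2 = none ∨ k = true then some e.1 else none) =
      place ((if place s e.2.2 = none ∨ k = true then [(e.2.2, e.1)] else []) ++
        s.filter fun x => x.1 ≠ e.2.1 ∧ x.1 ≠ e.2.2) := fun s e => funext fun v => by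
    have := place_filter s (fun x => x ≠ e.2.1 ∧ x ≠ e.2.2) v
    by_cases h : v = e.2.2 <;> by_cases h' : v = e.2.1 <;> split_ifs <;>
      simp_all [place_cons]
  have w := fun a : List (ℕ × ℕ × ℕ) × List (ℕ × ℕ) => win_iff (M := MoveF k a.1) (M' := fun s t => t ∈ mv a s)
    (R := fun p s => p = place s) (by
      rintro _ s rfl _ ⟨x, h1, h2, rfl⟩
      exact ⟨_, List.mem_map.2 ⟨x, by simp [h1, h2], rfl⟩, e s x⟩) (by
      rintro _ s rfl _ h
      obtain ⟨x, h1, rfl⟩ := List.mem_map.1 h
      simp only [List.mem_filter, decide_eq_true_eq] at h1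
      exact ⟨_, ⟨x, h1.1, h1.2, rfl⟩, e s x⟩) (p' := a.2) rfl
  have := InEXP.of_moves mv (fun a => a.2) (fun a => a.2.length * (size a + 1) + 2)
    (fun a s => s.length ≤ a.2.length ∧ ∀ x ∈ s, size x ≤ size a)
    (by simp only [mv, place]; fun_prop) (by fun_prop) (by fun_prop)
    (fun a => ⟨le_rfl, fun x hx => (size_mem hx).trans (by rw [← Prod.mk.eta (p := a), size_pair]; simp; omega)⟩)
    fun a s ⟨h1, h2⟩ => ⟨(size_list_le h2).trans (by gcongr), List.forall_mem_map.2 fun x hx => ?_⟩
  · exact ⟨this.1.of_iff fun a => (w a).1, this.2.of_iff fun a => (w a).2⟩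
  simp only [List.mem_filter, decide_eq_true_eq] at hx
  have h3 : (s.filter fun y => y.1 ≠ x.2.1 ∧ y.1 ≠ x.2.2).length < s.length := by
    obtain ⟨y, h4, h5⟩ : ∃ y ∈ s, y.1 = x.2.1 := by
      obtain ⟨y, h4, -⟩ := Option.map_eq_some_iff.1 hx.2
      exact ⟨y, List.mem_of_find?_eq_some h4, by simpa using List.find?_some h4⟩
    exact List.length_filter_lt_length_iff_exists.2 ⟨y, h4, by simp [h5]⟩
  refine ⟨by rw [List.length_append]; split_ifs <;> simp only [List.length_cons, List.length_nil] <;> omega,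
    List.forall_mem_append.2 ⟨?_, fun y hy => h2 y (List.mem_filter.1 hy).1⟩⟩
  have := size_mem hx.1
  have h4 : size a = size a.1 + size a.2 + 1 := size_pair ..
  have h5 : size x = size x.1 + size x.2 + 1 := size_pair ..
  have h6 : size x.2 = size x.2.1 + size x.2.2 + 1 := size_pair ..
  split_ifs <;> simp [size_pair]
  omega

def tokName [Enc V] (a : List (ℕ × V × V) × List (V × ℕ)) : List (ℕ × ℕ × ℕ) × List (ℕ × ℕ) :=
  (a.1.map fun e => (e.1, nameOf e.2.1, nameOf e.2.2), a.2.map fun e => (nameOf e.1, e.2))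

omit [DecidableEq V] in
theorem tokName_pt [Enc V] : PT (tokName (V := V)) := by unfold tokName; fun_prop

theorem tokName_win [Enc V] (k : Bool) (a : List (ℕ × V × V) × List (V × ℕ)) :
    Win (MoveF k (tokName a).1) (place (tokName a).2) ↔ Win (MoveF k a.1) (place a.2) :=
  (moveF_map k a.1 nameOf_injective _).trans
    (by rw [show place (tokName a).2 ∘ nameOf = place a.2 from funext (place_map nameOf_injective _)])

end Pool.Agent.Lib.CX
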