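import Mathlib

/-! The first-order language of groups. -/

set_option autoImplicit false

namespace Pool.Agent.Lib.helper4.GFO

/-- group terms in `n` variables -/
inductive Tm (n : ℕ) : Type
  | var (i : Fin n) : Tm n
  | one : Tm n
  | mul (s t : Tm n) : Tm n
  | inv (s : Tm n) : Tm n

/-- first-order formulas with `n` free variables (de Bruijn indices) -/
inductive Fm : ℕ → Type
  | eq {n} (s t : Tm n) : Fm n
  | not {n} : Fm n → Fm n
  | and {n} : Fm n → Fm n → Fm n
  | ex {n} : Fm (n + 1) → Fm n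

def Tm.val {G : Type} [Group G] {n : ℕ} (v : Fin n → G) : Tm n → G
  | .var i => v i
  | .one => 1
  | .mul s t => s.val v * t.val v
  | .inv s => (s.val v)⁻¹

def Fm.Sat (G : Type) [Group G] : ∀ {n}, Fm n → (Fin n → G) → Prop
  | _, .eq s t, v => s.val v = t.val v
  | _, .not φ, v => ¬φ.Sat G v
  | _, .and φ ψ, v => φ.Sat G v ∧ ψ.Sat G v
  | _, .ex φ, v => ∃ x : G, φ.Sat G (Fin.cons x v)

def Tm.code {n : ℕ} : Tm n → ℕ
  | .var i => Nat.pair 0 i
  | .one => Nat.pair 1 0
  | .mul s t => Nat.pair 2 (Nat.pair s.code t.code)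
  | .inv s => Nat.pair 3 s.code

def Fm.code : ∀ {n}, Fm n → ℕ
  | _, .eq s t => Nat.pair 0 (Nat.pair s.code t.code)
  | _, .not φ => Nat.pair 1 φ.code
  | _, .and φ ψ => Nat.pair 2 (Nat.pair φ.code ψ.code)
  | _, .ex φ => Nat.pair 3 φ.code

end Pool.Agent.Lib.helper4.GFO
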