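import Mathlib

/-! Outcomes of normal-play games that may last forever. -/

set_option autoImplicit false

namespace Pool.Agent.Lib.CX

variable {P : Type}

/-- the player to move can force a win: there is a move after which every reply leads to such a position again
(inductively, so play ends with the opponent unable to move) -/
inductive Win (M : P → P → Prop) : P → Prop
  | mk {p : P} (q : P) : M p q → (∀ r, M q r → Win M r) → Win M p

/-- the other player can force a win -/
def Lose (M : P → P → Prop) (p : P) : Prop := ∀ q, M p q → Win M q

/-- the type of the token on vertex `v`, for a list of pairs (vertex, type) -/
def place {V : Type} [DecidableEq V] (L : List (V × ℕ)) (v : V) : Option ℕ :=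
  (L.find? fun e => e.1 = v).map Prod.snd

end Pool.Agent.Lib.CX
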