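import Mathlib

namespace Pool.Agent.Lib.Recon

variable {V : Type}

/-- dominating set -/
def Dom (G : SimpleGraph V) (S : Set V) : Prop := ∀ v, v ∈ S ∨ ∃ u ∈ S, G.Adj v u

/-- minimal dominating set -/
def MD (G : SimpleGraph V) (M : Set V) : Prop := Dom G M ∧ ∀ v ∈ M, ¬ Dom G (M \ {v})

/-- the reconfiguration graph on the minimal dominating sets -/
def R (G : SimpleGraph V) : SimpleGraph {M : Set V // MD G M} where
  Adj M N := M ≠ N ∧ ∃ v, (N.1 \ M.1 = {v} ∧ M.1 \ N.1 ⊆ G.neighborSet v) ∨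
    (M.1 \ N.1 = {v} ∧ N.1 \ M.1 ⊆ G.neighborSet v)
  symm := ⟨fun _ _ ⟨h, v, h'⟩ => ⟨h.symm, v, h'.symm⟩⟩
  loopless := ⟨fun _ h => h.1 rfl⟩

def Short {X : Type} (H : SimpleGraph X) : Prop :=
  ∃ (v : X) (c : H.Walk v v), c.IsCycle ∧ c.length ≤ 5

lemma tri0 {X : Type} {H : SimpleGraph X} {a b c : X} (h1 : H.Adj a b) (h2 : H.Adj b c)
    (h3 : H.Adj c a) : Short H := by
  refine ⟨a, .cons h1 (.cons h2 (.cons h3 .nil)), ?_, by simp⟩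
  have := h1.ne; have := h2.ne; have := h3.ne
  rw [SimpleGraph.Walk.cons_isCycle_iff]
  simp [SimpleGraph.Walk.isPath_def]
  grind

lemma quad0 {X : Type} {H : SimpleGraph X} {a b c d : X} (h1 : H.Adj a b) (h2 : H.Adj b c)
    (h3 : H.Adj c d) (h4 : H.Adj d a) (n1 : a ≠ c) (n2 : b ≠ d) : Short H := by
  refine ⟨a, .cons h1 (.cons h2 (.cons h3 (.cons h4 .nil))), ?_, by simp⟩
  have := h1.ne; have := h2.ne; have := h3.ne; have := h4.ne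
  rw [SimpleGraph.Walk.cons_isCycle_iff]
  simp [SimpleGraph.Walk.isPath_def]
  grind

lemma pent0 {X : Type} {H : SimpleGraph X} {a b c d e : X} (h1 : H.Adj a b) (h2 : H.Adj b c)
    (h3 : H.Adj c d) (h4 : H.Adj d e) (h5 : H.Adj e a) (n1 : a ≠ c) (n2 : a ≠ d) (n3 : b ≠ d)
    (n4 : b ≠ e) (n5 : c ≠ e) : Short H := by
  refine ⟨a, .cons h1 (.cons h2 (.cons h3 (.cons h4 (.cons h5 .nil)))), ?_, by simp⟩
  have := h1.ne; have := h2.ne; have := h3.ne; have := h4.ne; have := h5.ne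
  rw [SimpleGraph.Walk.cons_isCycle_iff]
  simp [SimpleGraph.Walk.isPath_def]
  grind

variable {G : SimpleGraph V}

/-- `N` arises from `M` by adding `v` and deleting neighbours of `v` -/
def Mv (G : SimpleGraph V) (v : V) (M N : V → Prop) : Prop :=
  N v ∧ ¬ M v ∧ (∀ x, N x → M x ∨ x = v) ∧ ∀ x, M x → N x ∨ G.Adj v x

def Ad (G : SimpleGraph V) (M N : V → Prop) : Prop := ∃ v, Mv G v M N ∨ Mv G v N M

lemma adj_of_mv {M N : V → Prop} (hM : MD G M) (hN : MD G N) {v : V} (h : Mv G v M N) :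
    (R G).Adj ⟨M, hM⟩ ⟨N, hN⟩ := by
  obtain ⟨h1, h2, h3, h4⟩ := h
  refine ⟨fun e => h2 ?_, v, .inl ⟨?_, fun x hx => (h4 x hx.1).resolve_left hx.2⟩⟩
  · have : M = N := congrArg Subtype.val e
    rw [this]; exact h1
  · ext x
    exact ⟨fun hx => (h3 x hx.1).resolve_left hx.2, fun hx => hx ▸ ⟨h1, h2⟩⟩

lemma adj_of {M N : V → Prop} (hM : MD G M) (hN : MD G N) (h : Ad G M N) :
    (R G).Adj ⟨M, hM⟩ ⟨N, hN⟩ := by
  obtain ⟨v, h | h⟩ := h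
  exacts [adj_of_mv hM hN h, (adj_of_mv hN hM h).symm]

def Df (M N : V → Prop) : Prop := ∃ x, ¬ (M x ↔ N x)

lemma ne_of {M N : V → Prop} (hM : MD G M) (hN : MD G N) (h : Df M N) :
    (⟨M, hM⟩ : {M : Set V // MD G M}) ≠ ⟨N, hN⟩ := fun e => by
  have : M = N := congrArg Subtype.val e
  obtain ⟨x, hx⟩ := h
  exact hx (by rw [this])

lemma tri (A B C : V → Prop) (a : MD G A) (b : MD G B) (c : MD G C) (h1 : Ad G A B)
    (h2 : Ad G B C) (h3 : Ad G C A) : Short (R G) :=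
  tri0 (adj_of a b h1) (adj_of b c h2) (adj_of c a h3)

lemma quad (A B C D : V → Prop) (a : MD G A) (b : MD G B) (c : MD G C) (d : MD G D)
    (h1 : Ad G A B) (h2 : Ad G B C) (h3 : Ad G C D) (h4 : Ad G D A) (n1 : Df A C) (n2 : Df B D) :
    Short (R G) :=
  quad0 (adj_of a b h1) (adj_of b c h2) (adj_of c d h3) (adj_of d a h4) (ne_of a c n1)
    (ne_of b d n2)

lemma pent (A B C D E : V → Prop) (a : MD G A) (b : MD G B) (c : MD G C) (d : MD G D) (e : MD G E)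
    (h1 : Ad G A B) (h2 : Ad G B C) (h3 : Ad G C D) (h4 : Ad G D E) (h5 : Ad G E A) (n1 : Df A C)
    (n2 : Df A D) (n3 : Df B D) (n4 : Df B E) (n5 : Df C E) : Short (R G) :=
  pent0 (adj_of a b h1) (adj_of b c h2) (adj_of c d h3) (adj_of d e h4) (adj_of e a h5)
    (ne_of a c n1) (ne_of a d n2) (ne_of b d n3) (ne_of b e n4) (ne_of c e n5)

lemma ind_md {D : V → Prop} (h1 : ∀ x y, D x → D y → ¬ G.Adj x y)
    (h2 : ∀ v, ¬ D v → ∃ u, D u ∧ G.Adj v u) : MD G D := by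
  refine ⟨fun v => by by_cases h : D v; exacts [.inl h, .inr (h2 v h)], fun v hv h => ?_⟩
  rcases h v with h | ⟨u, hu, e⟩
  exacts [h.2 rfl, h1 v u hv hu.1 e]

def ND (G : SimpleGraph V) : Prop := ∀ v, ∃ u, u ≠ v ∧ ¬ G.Adj v u

def NI (G : SimpleGraph V) : Prop := ∀ v, ∃ u, G.Adj v u

lemma pair_md (nd : ND G) {a b : V}
    (h : ∀ v, v = a ∨ v = b ∨ G.Adj v a ∨ G.Adj v b) : MD G (fun x => x = a ∨ x = b) := by
  refine ⟨fun v => ?_, fun v hv h' => ?_⟩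
  · rcases h v with h | h | h | h
    exacts [.inl (.inl h), .inl (.inr h), .inr ⟨a, .inl rfl, h⟩, .inr ⟨b, .inr rfl, h⟩]
  · rcases hv with rfl | rfl
    · obtain ⟨u, n, e⟩ := nd b
      rcases h' u with ⟨h1 | h1, h2⟩ | ⟨w, ⟨h1 | h1, h2⟩, e'⟩
      exacts [h2 h1, n h1, h2 h1, e (h1 ▸ e'.symm)]
    · obtain ⟨u, n, e⟩ := nd a
      rcases h' u with ⟨h1 | h1, h2⟩ | ⟨w, ⟨h1 | h1, h2⟩, e'⟩
      exacts [n h1, h2 h1, e (h1 ▸ e'.symm), h2 h1]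

/-- the local hypotheses on a minimal counterexample -/
structure Loc (G : SimpleGraph V) : Prop where
  s : ∀ x y, G.Adj x y → G.Adj y x
  i : ∀ x, ¬ G.Adj x x
  nd : ND G
  ni : NI G
  p2 : ∀ w a b c d, G.Adj a b → G.Adj c d → a ≠ w → b ≠ w → c ≠ w → d ≠ w → ¬ G.Adj w a →
    ¬ G.Adj w b → ¬ G.Adj w c → ¬ G.Adj w d → a = c ∨ a = d ∨ b = c ∨ b = d
  p3 : ∀ w a b c, G.Adj a b → G.Adj b c → G.Adj a c → a ≠ w → b ≠ w → c ≠ w → ¬ G.Adj w a →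
    ¬ G.Adj w b → ¬ G.Adj w c → False

lemma multi (L : Loc G) (p : V)
    (h : ∀ w a b, G.Adj a b → a ≠ w → b ≠ w → ¬ G.Adj w a → ¬ G.Adj w b → False) :
    Short (R G) := by
  obtain ⟨s, i, nd, ni, -, -⟩ := L
  obtain ⟨q, e⟩ := ni p
  obtain ⟨p', n1, e1⟩ := nd p
  obtain ⟨q', n2, e2⟩ := nd q
  have t : ∀ x y z, ¬ G.Adj x y → ¬ G.Adj y z → ¬ G.Adj x z := fun x y z a b c => by
    refine h y x z c ?_ ?_ (fun e => a (s _ _ e)) b
    · rintro rfl; exact b c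
    · rintro rfl; exact a c
  have e3 : G.Adj p' q' := by
    by_contra hc
    exact t p q' q (t p p' q' e1 hc) (fun h => e2 (s _ _ h)) e
  refine quad (fun x => ¬ G.Adj p x) (fun x => x = p ∨ x = q) (fun x => ¬ G.Adj q x)
    (fun x => x = p' ∨ x = q') (ind_md (fun x y a b => t x p y (fun h => a (s _ _ h)) b)
      fun v h => ⟨p, i p, by grind⟩) (pair_md nd fun v => by have := t p v q; grind)
    (ind_md (fun x y a b => t x q y (fun h => a (s _ _ h)) b) fun v h => ⟨q, i q, by grind⟩)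
    (pair_md nd fun v => by have := t p' v q'; grind)
    ⟨q, .inl ⟨by grind, by grind, by grind, fun x => by have := t p x q; grind⟩⟩
    ⟨p, .inr ⟨by grind, by grind, by grind, fun x => by have := t q x p; grind⟩⟩
    ⟨p', .inl ⟨by grind, by have := t p p' q; grind, by grind, fun x => by
      have := t q x p'; have := t p p' q; grind⟩⟩
    ⟨q', .inr ⟨by grind, by have := t q q' p; grind, by grind, fun x => by
      have := t p x q'; have := t q q' p; grind⟩⟩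
    ⟨p, by grind⟩ ⟨p, by have := t q q' p; grind⟩

lemma fact1 (L : Loc G) {w c l : V} (h1 : c ≠ w) (h2 : ¬ G.Adj w c) (h3 : l ≠ w)
    (h4 : ¬ G.Adj w l) (h5 : G.Adj c l)
    (ce : ∀ a b, G.Adj a b → a ≠ w → b ≠ w → ¬ G.Adj w a → ¬ G.Adj w b → a = c ∨ b = c)
    (j a : V) (x : ¬ G.Adj c j) (y : j ≠ c) (y' : ¬ G.Adj w j) (z : G.Adj w a) : G.Adj a j := by
  by_contra h
  have n : j ≠ w := fun e => h (e ▸ z.symm)
  rcases L.p2 j w a c l z h5 n.symm (fun e => y' (e ▸ z)) y.symm (fun e => x (e ▸ h5))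
    (fun e => y' e.symm) (fun e => h e.symm) (fun e => x e.symm)
    (fun e => (ce j l e n h3 y' h4).elim y h5.ne') with e | e | e | e
  exacts [h1 e.symm, h3 e.symm, h2 (e ▸ z), h4 (e ▸ z)]

lemma caseA (L : Loc G) (w c l : V) (h1 : c ≠ w) (h2 : ¬ G.Adj w c) (h3 : l ≠ w)
    (h4 : ¬ G.Adj w l) (h5 : G.Adj c l)
    (ce : ∀ a b, G.Adj a b → a ≠ w → b ≠ w → ¬ G.Adj w a → ¬ G.Adj w b → a = c ∨ b = c)
    (hA : ∀ a, G.Adj w a → G.Adj c a) : Short (R G) := by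
  have f1 : ∀ j a, ¬ G.Adj c j → j ≠ c → G.Adj w a → G.Adj a j := fun j a x y z =>
    fact1 L h1 h2 h3 h4 h5 ce j a x y (fun h => x (hA j h)) z
  obtain ⟨s, i, nd, ni, -, -⟩ := L
  have m1 : MD G (fun y => ¬ G.Adj c y) :=
    ind_md (fun x y a b e => by have := ce x y e; grind +splitImp) fun v h => ⟨c, i c, by grind⟩
  have m2 : MD G (fun y => ¬ G.Adj w y ∧ y ≠ c) :=
    ind_md (fun x y a b e => by have := ce x y e; grind +splitImp) fun v h => by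
      by_cases h' : v = c
      exacts [⟨l, by grind, by grind⟩, ⟨w, by grind, by grind⟩]
  have a12 : Ad G (fun y => ¬ G.Adj w y ∧ y ≠ c) (fun y => ¬ G.Adj c y) :=
    ⟨c, .inl ⟨i c, by grind, by grind, by grind⟩⟩
  have mx : ∀ x, G.Adj w x → MD G (fun y => y = x ∨ y = c) := fun x e =>
    pair_md nd fun v => by have := f1 v x; grind
  have ax : ∀ x, G.Adj w x → Mv G x (fun y => ¬ G.Adj c y) (fun y => y = x ∨ y = c) := fun x e =>
    ⟨by grind, by grind, by grind, fun v => by have := f1 v x; grind⟩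
  by_cases c1 : ∃ x, G.Adj w x ∧ ∀ y, G.Adj c y → ¬ G.Adj w y → G.Adj x y
  · obtain ⟨x, e, hx⟩ := c1
    exact tri _ _ (fun y => y = x ∨ y = w) m2 m1
      (pair_md nd fun v => by have := f1 v x; have := hx v; grind) a12
      ⟨x, .inl ⟨by grind, by grind, by grind, fun v => by have := f1 v x; grind⟩⟩
      ⟨x, .inr ⟨by grind, by grind, by grind, fun v => by have := f1 v x; have := hx v; grind⟩⟩
  by_cases c2 : ∃ x y, G.Adj w x ∧ G.Adj w y ∧ G.Adj x y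
  · obtain ⟨x, y, e1, e2, e3⟩ := c2
    exact tri _ _ _ m1 (mx x e1) (mx y e2) ⟨x, .inl (ax x e1)⟩
      ⟨y, .inl ⟨by grind, by grind, by grind, by grind⟩⟩ ⟨y, .inr (ax y e2)⟩
  obtain ⟨x, e⟩ := ni w
  push Not at c1 c2
  obtain ⟨l', q1, q2, q3⟩ := c1 x e
  have mF : MD G (fun y => (G.Adj c y ∧ ¬ G.Adj w y ∧ ¬ G.Adj x y) ∨
      (G.Adj w y ∧ ∀ k, G.Adj c k → ¬ G.Adj w k → ¬ G.Adj x k → ¬ G.Adj y k)) := by
    refine ind_md (fun a b ha hb e => by have := ce a b e; grind +splitImp) fun v h => ?_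
    by_cases hv : G.Adj w v
    · simp only [hv, true_and, not_or, not_forall, not_not] at h
      obtain ⟨-, k, k1, k2, k3, k4⟩ := h
      exact ⟨k, .inl ⟨k1, k2, k3⟩, k4⟩
    by_cases hc : v = c
    · exact ⟨l', .inl ⟨q1, q2, q3⟩, hc ▸ q1⟩
    · exact ⟨x, .inr ⟨e, fun _ _ _ h => h⟩, by have := f1 v x; grind⟩
  by_cases c3 : ∃ z, z ≠ x ∧ G.Adj w z ∧ ∀ k, G.Adj c k → ¬ G.Adj w k → ¬ G.Adj x k → ¬ G.Adj z k
  · obtain ⟨z, n, e', hz⟩ := c3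
    exact quad _ _ _ _ m1 (mx x e) mF (mx z e') ⟨x, .inl (ax x e)⟩
      ⟨c, .inr ⟨by grind, by grind, by grind, by grind⟩⟩
      ⟨c, .inl ⟨by grind, by grind, by grind, by grind⟩⟩ ⟨z, .inr (ax z e')⟩
      ⟨c, by grind⟩ ⟨x, by grind⟩
  · exact quad _ _ _ _ m1 (mx x e) mF m2 ⟨x, .inl (ax x e)⟩
      ⟨c, .inr ⟨by grind, by grind, by grind, by grind⟩⟩
      ⟨x, .inr ⟨by grind, by grind, by grind, fun v => by have := f1 v x; grind⟩⟩ a12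
      ⟨c, by grind⟩ ⟨c, by grind⟩

/-- a dominating non-edge `p q`, both ends with private neighbours -/
structure St (G : SimpleGraph V) (p q : V) : Prop where
  ne : p ≠ q
  na : ¬ G.Adj p q
  dom : ∀ x, x = p ∨ x = q ∨ G.Adj p x ∨ G.Adj q x
  iP : ∀ a a', G.Adj p a → ¬ G.Adj q a → G.Adj q a' ∨ a' = p ∨ ¬ G.Adj a a'
  iQ : ∀ b b', G.Adj q b → ¬ G.Adj p b → G.Adj p b' ∨ b' = q ∨ ¬ G.Adj b b'
  m1 : MD G (fun y => y = p ∨ y = q)
  m2 : MD G (fun y => ¬ G.Adj p y ∧ y ≠ q)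
  m3 : MD G (fun y => ¬ G.Adj q y ∧ y ≠ p)
  a2 : Ad G (fun y => y = p ∨ y = q) (fun y => ¬ G.Adj p y ∧ y ≠ q)
  a3 : Ad G (fun y => ¬ G.Adj q y ∧ y ≠ p) (fun y => y = p ∨ y = q)

lemma mkSt (L : Loc G) {p q a b : V} (ne : p ≠ q) (na : ¬ G.Adj p q)
    (dom : ∀ x, x = p ∨ x = q ∨ G.Adj p x ∨ G.Adj q x) (a1 : G.Adj p a) (a2 : ¬ G.Adj q a)
    (b1 : G.Adj q b) (b2 : ¬ G.Adj p b) : St G p q := by
  obtain ⟨s, i, nd, ni, -, p3⟩ := L
  have iP : ∀ a a', G.Adj p a → ¬ G.Adj q a → G.Adj q a' ∨ a' = p ∨ ¬ G.Adj a a' :=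
    fun a a' x y => by have := p3 q p a a' x; have := dom a'; clear p3; grind +splitImp
  have iQ : ∀ b b', G.Adj q b → ¬ G.Adj p b → G.Adj p b' ∨ b' = q ∨ ¬ G.Adj b b' :=
    fun a a' x y => by have := p3 p q a a' x; have := dom a'; clear p3; grind +splitImp
  clear p3
  refine ⟨ne, na, dom, iP, iQ, pair_md nd fun v => by have := dom v; grind,
    ind_md (fun x y _ _ => by have := iQ x y; have := dom x; grind) fun v h => ?_,
    ind_md (fun x y _ _ => by have := iP x y; have := dom x; grind) fun v h => ?_,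
    ⟨q, .inr ⟨by grind, by grind, by grind, fun x => by have := dom x; grind⟩⟩,
    ⟨p, .inl ⟨by grind, by grind, by grind, fun x => by have := dom x; grind⟩⟩⟩
  · by_cases h' : v = q
    exacts [⟨b, by grind, by grind⟩, ⟨p, by grind, by grind⟩]
  · by_cases h' : v = p
    exacts [⟨a, by grind, by grind⟩, ⟨q, by grind, by grind⟩]

lemma s1 (L : Loc G) {p q x : V} (S : St G p q) (e1 : G.Adj p x) (e2 : G.Adj q x)
    (h : ∀ b, G.Adj q b → ¬ G.Adj p b → G.Adj x b) : Short (R G) := by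
  obtain ⟨s, i, nd, -, -, -⟩ := L
  obtain ⟨ne, na, dom, -, -, m1, m2, -, a2, -⟩ := S
  exact tri _ _ (fun y => y = x ∨ y = p) m1 m2
    (pair_md nd fun v => by have := dom v; have := h v; grind) a2
    ⟨x, .inl ⟨by grind, by grind, by grind, fun v => by have := dom v; have := h v; grind⟩⟩
    ⟨x, .inr ⟨by grind, by grind, by grind, by grind⟩⟩

lemma s2 (L : Loc G) {p q a b : V} (S : St G p q) (a1 : G.Adj p a) (a2 : ¬ G.Adj q a)
    (b1 : G.Adj q b) (b2 : ¬ G.Adj p b)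
    (ha : ∀ y, G.Adj q y → ¬ G.Adj p y → y = b ∨ G.Adj a y)
    (hb : ∀ y, G.Adj p y → ¬ G.Adj q y → y = a ∨ G.Adj b y)
    (hc : ∀ y, G.Adj p y → G.Adj q y → G.Adj a y ∨ G.Adj b y) : Short (R G) := by
  obtain ⟨s, i, nd, -, -, -⟩ := L
  obtain ⟨ne, na, dom, -, -, m1, m2, m3, a2, a3⟩ := S
  exact quad _ _ (fun y => y = a ∨ y = b) _ m1 m2
    (pair_md nd fun v => by have := dom v; have := ha v; have := hb v; have := hc v; grind) m3 a2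
    ⟨a, .inl ⟨by grind, by grind, by grind, fun v => by have := dom v; have := ha v; grind⟩⟩
    ⟨b, .inr ⟨by grind, by grind, by grind, fun v => by have := dom v; have := hb v; grind⟩⟩ a3
    ⟨p, by grind⟩ ⟨p, by grind⟩

lemma s3 (L : Loc G) {p q a b : V} (S : St G p q) (a1 : G.Adj p a) (a2 : ¬ G.Adj q a)
    (b1 : G.Adj q b) (b2 : ¬ G.Adj p b)
    (h : ∀ a b, G.Adj a b → G.Adj p a → ¬ G.Adj q a → G.Adj q b → G.Adj p b) : Short (R G) := by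
  obtain ⟨s, i, nd, -, -, p3⟩ := L
  obtain ⟨ne, na, dom, iP, iQ, m1, m2, m3, a2, a3⟩ := S
  have mX : MD G (fun y => y ≠ p ∧ y ≠ q ∧ ∀ k, G.Adj y k → G.Adj q k → G.Adj p k) := by
    refine ind_md (fun x y hx hy e => ?_) fun v hv => ?_
    · have := p3 b p x y
      have := hx.2.2 b
      have := hy.2.2 b
      have := hx.2.2 y
      have := hy.2.2 x
      have := dom x
      have := dom y
      obtain ⟨_, _, -⟩ := hx
      obtain ⟨_, _, -⟩ := hy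
      clear p3 m1 m2 m3 a2 a3 h iP iQ dom
      grind +splitImp
    · clear p3
      by_cases h1 : v = p
      · exact ⟨a, ⟨by grind, by grind, fun k e => h a k e a1 ‹_›⟩, h1 ▸ a1⟩
      by_cases h2 : v = q
      · exact ⟨b, ⟨by grind, by grind, fun k e => by have := iQ b k; grind⟩, h2 ▸ b1⟩
      simp only [not_and, not_forall] at hv
      obtain ⟨k, k1, k2, k3⟩ := hv h1 h2
      exact ⟨k, ⟨by grind, by grind, fun j e => by have := iQ k j; grind⟩, k1⟩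
  clear p3
  exact quad _ _ _ _ m1 m2 mX m3 a2
    ⟨p, .inr ⟨by grind, by grind, fun v hv => by
      by_cases h1 : v = p
      exacts [.inr h1, .inl ⟨h1, hv.2, fun k e => by have := iQ v k; have := dom v; grind⟩],
      fun v hv => by grind⟩⟩
    ⟨q, .inl ⟨by grind, by grind, fun v hv => by
      by_cases h1 : v = q
      exacts [.inr h1, .inl ⟨hv.2, h1, fun k e => h v k e (by have := dom v; grind) hv.1⟩],
      fun v hv => by grind⟩⟩ a3 ⟨p, by grind⟩ ⟨p, by grind⟩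

lemma mY (L : Loc G) {p q a : V} (S : St G p q) (a1 : G.Adj p a) (a2 : ¬ G.Adj q a)
    (h1 : ∀ a b, G.Adj p a → ¬ G.Adj q a → G.Adj q b → ¬ G.Adj p b → G.Adj a b)
    (h2 : ∀ a x, G.Adj p a → ¬ G.Adj q a → G.Adj q x → G.Adj p x → ¬ G.Adj a x)
    {x : V} (x1 : G.Adj p x) (x2 : G.Adj q x) :
    MD G (G.Adj p) ∧ Ad G (G.Adj p) (fun y => ¬ G.Adj q y ∧ y ≠ p) := by
  obtain ⟨s, i, nd, -, -, p3⟩ := L
  obtain ⟨ne, na, dom, iP, iQ, -, -, -, -, -⟩ := S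
  refine ⟨ind_md (fun u v hu hv e => ?_) fun v hv => ?_,
    q, .inl ⟨by clear p3; grind, na, fun v => by have := dom v; clear p3; grind,
      fun v => by clear p3; grind⟩⟩
  · have := p3 a q u v
    have := h2 a u
    have := h2 a v
    have := h2 u v
    have := h2 v u
    have := iP u v
    clear p3 h1 h2 iP iQ
    grind +splitImp
  · by_cases h' : v = q
    exacts [⟨x, x1, h' ▸ x2⟩, ⟨a, a1, by have := dom v; have := h1 a v; clear p3; grind⟩]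

lemma St.symm {p q : V} (S : St G p q) : St G q p := by
  obtain ⟨ne, na, dom, iP, iQ, m1, m2, m3, ⟨u, a2⟩, ⟨v, a3⟩⟩ := S
  have e : (fun y => y = q ∨ y = p) = fun y => y = p ∨ y = q := by
    funext y; exact propext or_comm
  exact ⟨ne.symm, fun h => na h.symm, fun x => by have := dom x; tauto, iQ, iP, e ▸ m1, m3, m2,
    ⟨v, e ▸ a3.symm⟩, ⟨u, e ▸ a2.symm⟩⟩

lemma s4 (L : Loc G) {p q a b x : V} (S : St G p q) (a1 : G.Adj p a) (a2 : ¬ G.Adj q a)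
    (b1 : G.Adj q b) (b2 : ¬ G.Adj p b) (x1 : G.Adj p x) (x2 : G.Adj q x)
    (h1 : ∀ a b, G.Adj p a → ¬ G.Adj q a → G.Adj q b → ¬ G.Adj p b → G.Adj a b)
    (h2 : ∀ a x, G.Adj p a → ¬ G.Adj q a → G.Adj q x → G.Adj p x → ¬ G.Adj a x)
    (h3 : ∀ b x, G.Adj q b → ¬ G.Adj p b → G.Adj p x → G.Adj q x → ¬ G.Adj b x) :
    Short (R G) := by
  obtain ⟨mP, aP⟩ := mY L S a1 a2 h1 h2 x1 x2
  obtain ⟨mQ, v, aQ⟩ := mY L S.symm b1 b2 (fun b a e1 e2 e3 e4 => (h1 a b e3 e4 e1 e2).symm) h3 x2 x1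
  obtain ⟨s, i, nd, -, p2, -⟩ := L
  obtain ⟨ne, na, dom, iP, iQ, m1, m2, m3, a2', a3⟩ := S
  refine pent _ _ _ _ _ m1 m2 mQ mP m3 a2' ⟨v, aQ.symm⟩ ?_ aP a3 ⟨p, by clear p2; grind⟩
    ⟨p, by clear p2; grind⟩ ⟨p, by clear p2; grind⟩ ⟨p, by clear p2; grind⟩ ⟨q, by clear p2; grind⟩
  by_cases c : ∀ a', G.Adj p a' → G.Adj q a' ∨ a' = a
  · exact ⟨a, .inl ⟨a1, a2, c, fun y => by have := h1 a y; clear p2; grind⟩⟩
  · push Not at c
    obtain ⟨a', c1, c2, c3⟩ := c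
    refine ⟨b, .inr ⟨b1, b2, fun y hy => ?_, fun y => by have := h1 y b; clear p2; grind⟩⟩
    have := p2 x a b a' y
    have := h1 a b
    have := h1 a' y
    have := h2 a x
    have := h2 a' x
    have := h3 b x
    have := h3 y x
    clear p2 h1 h2 h3 iP iQ dom
    grind +splitImp

lemma caseI (L : Loc G) {p q a b a' y y' : V} (S : St G p q) (a1 : G.Adj p a) (a2 : ¬ G.Adj q a)
    (b1 : G.Adj q b) (b2 : ¬ G.Adj p b) (ab : G.Adj a b)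
    (cP : ∀ x, G.Adj p x → G.Adj q x → ∃ a, G.Adj p a ∧ ¬ G.Adj q a ∧ ¬ G.Adj a x)
    (cQ : ∀ x, G.Adj q x → G.Adj p x → ∃ b, G.Adj q b ∧ ¬ G.Adj p b ∧ ¬ G.Adj b x)
    (a3 : G.Adj p a') (a4 : ¬ G.Adj q a') (y1 : G.Adj q y) (y2 : G.Adj q y') (n : y ≠ y')
    (y3 : ¬ G.Adj a' y) (y4 : ¬ G.Adj a' y') : Short (R G) := by
  have ⟨s, i, nd, _, p2, p3⟩ := L
  have ⟨ne, na, dom, iP, iQ, m1, m2, m3, a2', a3'⟩ := S
  have dP : ∀ a y y' k, G.Adj p a → ¬ G.Adj q a → G.Adj q y → G.Adj q y' → y ≠ y' → ¬ G.Adj a y →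
      ¬ G.Adj a y' → G.Adj p k → ¬ G.Adj q k → ¬ G.Adj k y := fun a y y' k _ _ _ _ _ _ _ _ _ e => by
    have := p2 a k y q y' e
    have := iP a k
    clear p2 p3 iP iQ cP cQ dom
    grind +splitImp
  have dQ : ∀ a y y' k, G.Adj q a → ¬ G.Adj p a → G.Adj p y → G.Adj p y' → y ≠ y' → ¬ G.Adj a y →
      ¬ G.Adj a y' → G.Adj q k → ¬ G.Adj p k → ¬ G.Adj k y := fun a y y' k _ _ _ _ _ _ _ _ _ e => by
    have := p2 a k y p y' e
    have := iQ a k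
    clear p2 p3 iP iQ cP cQ dom dP
    grind +splitImp
  have hy := fun k => dP a' y y' k a3 a4 y1 y2 n y3 y4
  have hy' := fun k => dP a' y' y k a3 a4 y2 y1 n.symm y4 y3
  have H : ∀ u z k, G.Adj p u → ¬ G.Adj q u → G.Adj q z → ¬ G.Adj u z → G.Adj p k → ¬ G.Adj q k →
      ¬ G.Adj k z := fun u z k u1 u2 z1 z2 k1 k2 => by
    by_cases e : z = y
    exacts [e ▸ hy k k1 k2, dP u z y k u1 u2 z1 y1 e z2 (hy u u1 u2) k1 k2]
  have h2 : ∀ a x, G.Adj p a → ¬ G.Adj q a → G.Adj q x → G.Adj p x → ¬ G.Adj a x :=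
    fun k x k1 k2 x1 x2 => by
      obtain ⟨u, u1, u2, u3⟩ := cP x x2 x1
      exact H u x k u1 u2 x1 u3 k1 k2
  by_cases h1 : ∀ a b, G.Adj p a → ¬ G.Adj q a → G.Adj q b → ¬ G.Adj p b → G.Adj a b
  swap
  · push Not at h1
    obtain ⟨u, z, u1, u2, z1, z2, z3⟩ := h1
    have o : ∀ k, G.Adj p k → k = a := fun k e => by
      by_contra hk
      have za : ¬ G.Adj z a := fun h => H u z a u1 u2 z1 z3 a1 a2 h.symm
      by_cases zk : G.Adj z k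
      · by_cases qk : G.Adj q k
        · obtain ⟨c, c1, c2, c3⟩ := cQ k qk e
          have := p2 a p z q k
          have := p3 a q z k z1 zk qk
          have := h2 a k
          clear p2 p3 iP iQ cP cQ dom dP dQ H h2 hy hy'
          grind +splitImp
        · exact H u z k u1 u2 z1 z3 e qk zk.symm
      · exact dQ z a k b z1 z2 a1 e (Ne.symm hk) za zk b1 b2 ab.symm
    clear p2 p3 cP cQ dP dQ H h2 hy hy'
    obtain ⟨v, a3'⟩ := a3'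
    obtain ⟨w, a2'⟩ := a2'
    have ua := o u u1
    exact quad _ _ (fun y => ¬ G.Adj a y ∧ y ≠ q) _ m1 m3
      (ind_md (fun x y _ _ => by
          have := dom x; have := dom y; have := o x; have := o y; have := iQ x y; grind +splitImp)
        fun v h => by
          by_cases h' : v = q
          exacts [⟨z, by grind, by grind⟩, ⟨a, by grind, by grind⟩]) m2 ⟨v, a3'.symm⟩
      ⟨q, .inr ⟨by grind, by grind, fun x => by have := dom x; have := o x; grind,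
        fun x => by have := dom x; have := o x; grind⟩⟩
      ⟨a, .inr ⟨by grind, by grind, fun x => by have := o x; grind, by grind⟩⟩ ⟨w, a2'.symm⟩
      ⟨p, by grind⟩ ⟨p, by grind⟩
  have py : G.Adj p y := by by_contra h; exact y3 (h1 a' y a3 a4 y1 h)
  have py' : G.Adj p y' := by by_contra h; exact y4 (h1 a' y' a3 a4 y2 h)
  by_cases c : ∃ k z z', G.Adj q k ∧ ¬ G.Adj p k ∧ G.Adj p z ∧ G.Adj p z' ∧ z ≠ z' ∧ ¬ G.Adj k z ∧
      ¬ G.Adj k z'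
  · obtain ⟨k, z, z', k1, k2, z1, z2, z3, z4, z5⟩ := c
    refine s4 L S a1 a2 b1 b2 py y1 h1 h2 fun j x j1 j2 x1 x2 => ?_
    obtain ⟨u, u1, u2, u3⟩ := cQ x x2 x1
    by_cases e : x = z
    exacts [e ▸ dQ k z z' j k1 k2 z1 z2 z3 z4 z5 j1 j2,
      dQ u x z j u1 u2 x1 z1 e u3 (dQ k z z' u k1 k2 z1 z2 z3 z4 z5 u1 u2) j1 j2]
  push Not at c
  obtain ⟨k, k1, k2, k3⟩ := cQ y y1 py
  have ck : ∀ z, G.Adj p z → z = y ∨ G.Adj k z := fun z e => by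
    have := c k z y k1 k2 e py
    tauto
  have cy : ∀ j, G.Adj q j → ¬ G.Adj p j → j = k ∨ G.Adj y j := fun j j1 j2 => by
    have := p2 y y' k a j
    have := p3 a q y y' y1
    have := ck y' py'
    have := h1 a j a1 a2 j1 j2
    have := hy a a1 a2
    have := hy' a a1 a2
    clear p2 p3 iP iQ cP cQ dom dP dQ H h2 hy hy' c h1 ck
    grind +splitImp
  obtain ⟨mP, aP⟩ := mY L S a1 a2 h1 h2 py y1
  clear p2 p3 iP iQ cP cQ dP dQ H h2 hy hy' c h1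
  exact pent _ _ (fun x => x = y ∨ x = k) _ _ m1 m2
    (pair_md nd fun v => by have := dom v; have := ck v; have := cy v; grind) mP m3 a2'
    ⟨y, .inl ⟨by grind, by grind, by grind, fun v => by have := dom v; have := cy v; grind⟩⟩
    ⟨k, .inr ⟨by grind, by grind, by grind, fun v => by have := ck v; grind⟩⟩ aP a3'
    ⟨p, by grind⟩ ⟨p, by grind⟩ ⟨p, by grind⟩ ⟨p, by grind⟩ ⟨q, by grind⟩

lemma caseStar (L : Loc G) {p q a b : V} (S : St G p q) (a1 : G.Adj p a) (a2 : ¬ G.Adj q a)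
    (b1 : G.Adj q b) (b2 : ¬ G.Adj p b) : Short (R G) := by
  by_cases c1 : ∃ x, G.Adj p x ∧ G.Adj q x ∧ ∀ b, G.Adj q b → ¬ G.Adj p b → G.Adj x b
  · obtain ⟨x, e1, e2, h⟩ := c1
    exact s1 L S e1 e2 h
  by_cases c2 : ∃ x, G.Adj q x ∧ G.Adj p x ∧ ∀ b, G.Adj p b → ¬ G.Adj q b → G.Adj x b
  · obtain ⟨x, e1, e2, h⟩ := c2
    exact s1 L S.symm e1 e2 h
  by_cases c3 : ∀ a b, G.Adj a b → G.Adj p a → ¬ G.Adj q a → G.Adj q b → G.Adj p b
  · exact s3 L S a1 a2 b1 b2 c3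
  push Not at c1 c2 c3
  clear a1 a2 b1 b2
  obtain ⟨a, b, ab, a1, a2, b1, b2⟩ := c3
  have cP : ∀ x, G.Adj p x → G.Adj q x → ∃ a, G.Adj p a ∧ ¬ G.Adj q a ∧ ¬ G.Adj a x :=
    fun x e1 e2 => (c2 x e2 e1).imp fun _ h => ⟨h.1, h.2.1, fun e => h.2.2 e.symm⟩
  have cQ : ∀ x, G.Adj q x → G.Adj p x → ∃ b, G.Adj q b ∧ ¬ G.Adj p b ∧ ¬ G.Adj b x :=
    fun x e1 e2 => (c1 x e2 e1).imp fun _ h => ⟨h.1, h.2.1, fun e => h.2.2 e.symm⟩
  clear c1 c2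
  by_cases d1 : ∃ k z z', G.Adj p k ∧ ¬ G.Adj q k ∧ G.Adj q z ∧ G.Adj q z' ∧ z ≠ z' ∧ ¬ G.Adj k z ∧
      ¬ G.Adj k z'
  · obtain ⟨k, z, z', k1, k2, z1, z2, z3, z4, z5⟩ := d1
    exact caseI L S a1 a2 b1 b2 ab cP cQ k1 k2 z1 z2 z3 z4 z5
  by_cases d2 : ∃ k z z', G.Adj q k ∧ ¬ G.Adj p k ∧ G.Adj p z ∧ G.Adj p z' ∧ z ≠ z' ∧ ¬ G.Adj k z ∧
      ¬ G.Adj k z'
  · obtain ⟨k, z, z', k1, k2, z1, z2, z3, z4, z5⟩ := d2
    exact caseI L S.symm b1 b2 a1 a2 ab.symm cQ cP k1 k2 z1 z2 z3 z4 z5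
  push Not at d1 d2
  by_cases h1 : ∀ a b, G.Adj p a → ¬ G.Adj q a → G.Adj q b → ¬ G.Adj p b → G.Adj a b
  swap
  · push Not at h1
    obtain ⟨u, z, u1, u2, z1, z2, z3⟩ := h1
    have z4 : ¬ G.Adj z u := fun h => z3 h.symm
    refine s2 L S u1 u2 z1 z2 (fun y e _ => ?_) (fun y e _ => ?_) fun y e e' => .inl ?_
    · have := d1 u y z u1 u2 e z1; tauto
    · have := d2 z y u z1 z2 e u1; tauto
    · by_contra h
      exact z3 (d1 u y z u1 u2 e' z1 (fun h => z2 (h ▸ e)) h)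
  by_cases d3 : ∃ a b, G.Adj p a ∧ ¬ G.Adj q a ∧ G.Adj q b ∧ ¬ G.Adj p b ∧
      ∀ y, G.Adj p y → G.Adj q y → G.Adj a y ∨ G.Adj b y
  · obtain ⟨u, z, u1, u2, z1, z2, h⟩ := d3
    exact s2 L S u1 u2 z1 z2 (fun y e e' => .inr (h1 u y u1 u2 e e'))
      (fun y e e' => .inr (h1 y z e e' z1 z2).symm) h
  push Not at d3
  obtain ⟨x, x1, x2, x3, x4⟩ := d3 a b a1 a2 b1 b2
  have g1 : ∀ k, G.Adj p k → ¬ G.Adj q k → ¬ G.Adj k x := fun k k1 k2 => by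
    obtain ⟨y, y1, y2, y3, y4⟩ := d3 k b k1 k2 b1 b2
    by_cases e : y = x
    exacts [e ▸ y3, absurd (d2 b y x b1 b2 y1 x1 e y4) x4]
  have g2 : ∀ k, G.Adj q k → ¬ G.Adj p k → ¬ G.Adj k x := fun k k1 k2 => by
    obtain ⟨y, y1, y2, y3, y4⟩ := d3 a k a1 a2 k1 k2
    by_cases e : y = x
    exacts [e ▸ y4, absurd (d1 a y x a1 a2 y2 x2 e y3) x3]
  have g3 : ∀ y, G.Adj p y → G.Adj q y → y = x := fun y y1 y2 => by
    obtain ⟨k, k1, k2, k3⟩ := cP y y1 y2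
    by_contra e
    exact g1 k k1 k2 (d1 k y x k1 k2 y2 x2 e k3)
  exact s4 L S a1 a2 b1 b2 x1 x2 h1 (fun k y k1 k2 y1 y2 => g3 y y2 y1 ▸ g1 k k1 k2)
    fun k y k1 k2 y1 y2 => g3 y y1 y2 ▸ g2 k k1 k2

/-- the subgraph on `S` has two disjoint edges or a triangle -/
def NS (G : SimpleGraph V) (S : V → Prop) : Prop :=
  (∃ a b c d, S a ∧ S b ∧ S c ∧ S d ∧ G.Adj a b ∧ G.Adj c d ∧ a ≠ c ∧ a ≠ d ∧ b ≠ c ∧ b ≠ d) ∨
    ∃ a b c, S a ∧ S b ∧ S c ∧ G.Adj a b ∧ G.Adj b c ∧ G.Adj a c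

lemma center {S : V → Prop} (h : ¬ NS G S) {u v : V} (hu : S u) (hv : S v) (e : G.Adj u v) :
    ∃ c l, S c ∧ S l ∧ G.Adj c l ∧ ∀ a b, G.Adj a b → S a → S b → a = c ∨ b = c := by
  simp only [NS, not_or, not_exists, not_and] at h
  obtain ⟨p2, p3⟩ := h
  have s : ∀ x y, G.Adj x y → G.Adj y x := fun _ _ h => h.symm
  by_cases c : ∀ a b, G.Adj a b → S a → S b → a = u ∨ b = u
  · exact ⟨u, v, hu, hv, e, c⟩
  push Not at c
  obtain ⟨a, b, ab, ha, hb, n1, n2⟩ := c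
  refine ⟨v, u, hv, hu, e.symm, fun x y xy hx hy => ?_⟩
  have := p2 u v a b hu hv ha hb e ab
  have := p2 u v x y hu hv hx hy e xy
  have := p2 a b x y ha hb hx hy ab xy
  have := p3 u v a hu hv ha e
  have := p3 u v b hu hv hb e
  clear p2 p3
  grind +splitImp

lemma base (L : Loc G) (p : V) : Short (R G) := by
  by_cases h : ∀ w a b, G.Adj a b → a ≠ w → b ≠ w → ¬ G.Adj w a → ¬ G.Adj w b → False
  · exact multi L p h
  push Not at h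
  obtain ⟨w, u, v, e, n1, n2, n3, n4, -⟩ := h
  obtain ⟨c, l, ⟨h1, h2⟩, ⟨h3, h4⟩, h5, ce'⟩ := center (G := G) (S := fun x => x ≠ w ∧ ¬ G.Adj w x)
    (by
      rintro (⟨a, b, c, d, ha, hb, hc, hd, e1, e2, h⟩ | ⟨a, b, c, ha, hb, hc, e1, e2, e3⟩)
      · have := L.p2 w a b c d e1 e2 ha.1 hb.1 hc.1 hd.1 ha.2 hb.2 hc.2 hd.2
        tauto
      · exact L.p3 w a b c e1 e2 e3 ha.1 hb.1 hc.1 ha.2 hb.2 hc.2) ⟨n1, n3⟩ ⟨n2, n4⟩ e
  have ce : ∀ a b, G.Adj a b → a ≠ w → b ≠ w → ¬ G.Adj w a → ¬ G.Adj w b → a = c ∨ b = c :=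
    fun a b e x y z t => ce' a b e ⟨x, z⟩ ⟨y, t⟩
  by_cases hA : ∀ a, G.Adj w a → G.Adj c a
  · exact caseA L w c l h1 h2 h3 h4 h5 ce hA
  push Not at hA
  obtain ⟨x, x1, x2⟩ := hA
  by_cases hJ : ∀ x, x = w ∨ x = c ∨ G.Adj w x ∨ G.Adj c x
  · exact caseStar L (mkSt L h1.symm h2 hJ x1 x2 h5 h4) x1 x2 h5 h4
  push Not at hJ
  obtain ⟨j, j1, j2, j3, j4⟩ := hJ
  have f1 := fact1 L h1 h2 h3 h4 h5 ce
  have s := L.s
  have i := L.i
  have u1 : ∀ y, G.Adj w y → G.Adj c y ∨ y = x := fun y hy => by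
    have := L.p2 c w x j y x1
    have := f1 j y j4 j2 j3 hy
    have := f1 j x j4 j2 j3 x1
    clear f1 ce ce'
    grind +splitImp
  have xc : x ≠ c := fun h => h2 (h ▸ x1)
  by_cases hB : ∀ a, G.Adj c a → G.Adj x a
  · refine caseA L c x w xc x2 h1.symm (fun h => h2 h.symm) x1.symm (fun a b e _ _ _ _ => ?_) hB
    have := u1 a
    have := u1 b
    have := ce a b e
    clear f1 ce ce' u1 hB
    grind +splitImp
  push Not at hB
  obtain ⟨y, y1, y2⟩ := hB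
  refine caseStar L (mkSt L xc.symm x2 (fun z => ?_) y1 y2 x1.symm fun h => h2 h.symm) y1 y2
    x1.symm fun h => h2 h.symm
  have := u1 z
  have := f1 z x
  clear f1 ce ce' u1
  grind

lemma lift {U : Set V} (T : V → Prop) (hT : ∀ x, T x → x ∉ U)
    (h : ∀ D : Set U, MD (G.induce U) D → MD G (fun x => T x ∨ ∃ hx : x ∈ U, ⟨x, hx⟩ ∈ D))
    (hs : Short (R (G.induce U))) : Short (R G) := by
  have mv : ∀ (M N : Set U) (v : U), N \ M = {v} → M \ N ⊆ (G.induce U).neighborSet v →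
      Mv G v (fun x => T x ∨ ∃ hx : x ∈ U, ⟨x, hx⟩ ∈ M) (fun x => T x ∨ ∃ hx : x ∈ U, ⟨x, hx⟩ ∈ N) := by
    intro M N v h1 h2
    have hv : v ∈ N \ M := by rw [h1]; rfl
    refine ⟨.inr ⟨v.2, hv.1⟩, ?_, ?_, ?_⟩
    · rintro (h | ⟨_, h⟩)
      exacts [hT _ h v.2, hv.2 h]
    · rintro x (h | ⟨hx, h⟩)
      · exact .inl (.inl h)
      · by_cases h' : (⟨x, hx⟩ : U) ∈ M
        · exact .inl (.inr ⟨hx, h'⟩)
        · have : (⟨x, hx⟩ : U) ∈ N \ M := ⟨h, h'⟩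
          rw [h1] at this
          exact .inr (congrArg Subtype.val this)
    · rintro x (h | ⟨hx, h⟩)
      · exact .inl (.inl h)
      · by_cases h' : (⟨x, hx⟩ : U) ∈ N
        exacts [.inl (.inr ⟨hx, h'⟩), .inr (h2 ⟨h, h'⟩)]
  let f : R (G.induce U) →g R G := ⟨fun D => ⟨_, h D.1 D.2⟩, fun {M N} ⟨_, v, e⟩ =>
    adj_of _ _ ⟨v, e.imp (fun e => mv _ _ v e.1 e.2) fun e => mv _ _ v e.1 e.2⟩⟩
  have inj : Function.Injective f := fun M N e => Subtype.ext (Set.ext fun y => by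
    have : (T y.1 ∨ ∃ hx : y.1 ∈ U, ⟨y.1, hx⟩ ∈ M.1) = (T y.1 ∨ ∃ hx : y.1 ∈ U, ⟨y.1, hx⟩ ∈ N.1) :=
      congrFun (congrArg Subtype.val e) y.1
    have n : ¬ T y.1 := fun h => hT _ h y.2
    simpa [n] using this)
  obtain ⟨v, c, hc, hl⟩ := hs
  exact ⟨_, c.map f, hc.map inj, by simpa using hl⟩

lemma ns_induce {U : Set V} (h : NS G (· ∈ U)) : NS (G.induce U) fun _ => True := by
  rcases h with ⟨a, b, c, d, ha, hb, hc, hd, e1, e2, h⟩ | ⟨a, b, c, ha, hb, hc, e1, e2, e3⟩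
  · exact .inl ⟨⟨a, ha⟩, ⟨b, hb⟩, ⟨c, hc⟩, ⟨d, hd⟩, by simpa using ⟨e1, e2, h⟩⟩
  · exact .inr ⟨⟨a, ha⟩, ⟨b, hb⟩, ⟨c, hc⟩, by simpa using ⟨e1, e2, e3⟩⟩

lemma md_nn (w : V) (D : Set {x | x ≠ w ∧ ¬ G.Adj w x})
    (h : MD (G.induce {x | x ≠ w ∧ ¬ G.Adj w x}) D) :
    MD G (fun x => x = w ∨ ∃ hx : x ∈ {x | x ≠ w ∧ ¬ G.Adj w x}, ⟨x, hx⟩ ∈ D) := by
  refine ⟨fun v => ?_, fun v hv h' => ?_⟩
  · by_cases h1 : v = w
    · exact .inl (.inl h1)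
    by_cases h2 : G.Adj w v
    · exact .inr ⟨w, .inl rfl, h2.symm⟩
    rcases h.1 ⟨v, h1, h2⟩ with h3 | ⟨u, h3, e⟩
    exacts [.inl (.inr ⟨_, h3⟩), .inr ⟨u, .inr ⟨u.2, h3⟩, e⟩]
  · rcases hv with rfl | ⟨hx, hv⟩
    · rcases h' v with h1 | ⟨u, ⟨h1 | ⟨h1, -⟩, h2⟩, e⟩
      exacts [h1.2 rfl, h2 h1, h1.2 e]
    · refine h.2 _ hv fun y => ?_
      rcases h' y with ⟨h1 | ⟨_, h1⟩, h2⟩ | ⟨u, ⟨h1 | ⟨hu, h1⟩, h2⟩, e⟩
      exacts [absurd h1 y.2.1, .inl ⟨h1, fun e => h2 (congrArg Subtype.val e)⟩,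
        absurd (h1 ▸ e.symm) y.2.2, .inr ⟨⟨u, hu⟩, ⟨h1, fun e => h2 (congrArg Subtype.val e)⟩, e⟩]

lemma md_dom {w a : V} (ha : a ≠ w) (hw : ∀ x, x ≠ w → G.Adj w x) (D : Set {x | x ≠ w})
    (h : MD (G.induce {x | x ≠ w}) D) :
    MD G (fun x => False ∨ ∃ hx : x ∈ {x | x ≠ w}, ⟨x, hx⟩ ∈ D) := by
  refine ⟨fun v => ?_, fun v hv h' => ?_⟩
  · by_cases h1 : v = w
    · rcases h.1 ⟨a, ha⟩ with h3 | ⟨u, h3, -⟩
      exacts [.inr ⟨a, .inr ⟨ha, h3⟩, h1 ▸ hw a ha⟩, .inr ⟨u, .inr ⟨u.2, h3⟩, h1 ▸ hw u u.2⟩]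
    rcases h.1 ⟨v, h1⟩ with h3 | ⟨u, h3, e⟩
    exacts [.inl (.inr ⟨_, h3⟩), .inr ⟨u, .inr ⟨u.2, h3⟩, e⟩]
  · rcases hv with hv | ⟨hx, hv⟩
    · exact hv
    · refine h.2 _ hv fun y => ?_
      rcases h' y with ⟨h1 | ⟨_, h1⟩, h2⟩ | ⟨u, ⟨h1 | ⟨hu, h1⟩, h2⟩, e⟩
      exacts [h1.elim, .inl ⟨h1, fun e => h2 (congrArg Subtype.val e)⟩,
        h1.elim, .inr ⟨⟨u, hu⟩, ⟨h1, fun e => h2 (congrArg Subtype.val e)⟩, e⟩]

theorem short_of_ns : ∀ (n : ℕ) (V : Type) [Finite V] (G : SimpleGraph V), Nat.card V = n →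
    NS G (fun _ => True) → Short (R G) := by
  intro n
  induction n using Nat.strong_induction_on with
  | _ n ih =>
  intro V _ G hn h
  have red : ∀ (U : Set V) (w : V), w ∉ U → NS G (· ∈ U) → Short (R (G.induce U)) :=
    fun U w hw h' => ih _ (hn ▸ Finite.card_subtype_lt (p := (· ∈ U)) hw) U _ rfl (ns_induce h')
  by_cases c1 : ∃ w, NS G (· ∈ {x | x ≠ w ∧ ¬ G.Adj w x})
  · obtain ⟨w, h'⟩ := c1
    exact lift (· = w) (fun x e hx => hx.1 e) (md_nn w) (red _ w (fun hx => hx.1 rfl) h')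
  have s : ∀ x y, G.Adj x y → G.Adj y x := fun _ _ h => h.symm
  have i : ∀ x, ¬ G.Adj x x := fun _ h => h.ne rfl
  by_cases nd : ND G
  · have p : Nonempty V := by
      rcases h with ⟨a, -⟩ | ⟨a, -⟩ <;> exact ⟨a⟩
    refine base ⟨s, i, nd, fun w => ?_, fun w a b c d e1 e2 _ _ _ _ _ _ _ _ => ?_,
      fun w a b c e1 e2 e3 _ _ _ _ _ _ => ?_⟩ p.some
    · by_contra hc
      push Not at hc
      refine c1 ⟨w, ?_⟩
      have k : ∀ a b, G.Adj a b → a ∈ {x | x ≠ w ∧ ¬ G.Adj w x} := fun a b e =>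
        ⟨fun h => hc b (h ▸ e), hc a⟩
      rcases h with ⟨a, b, c, d, -, -, -, -, e1, e2, h⟩ | ⟨a, b, c, -, -, -, e1, e2, e3⟩
      exacts [.inl ⟨a, b, c, d, k _ _ e1, k _ _ e1.symm, k _ _ e2, k _ _ e2.symm, e1, e2, h⟩,
        .inr ⟨a, b, c, k _ _ e1, k _ _ e2, k _ _ e2.symm, e1, e2, e3⟩]
    · by_contra hc
      exact c1 ⟨w, .inl ⟨a, b, c, d, ⟨‹_›, ‹_›⟩, ⟨‹_›, ‹_›⟩, ⟨‹_›, ‹_›⟩, ⟨‹_›, ‹_›⟩, e1, e2, by tauto⟩⟩
    · exact c1 ⟨w, .inr ⟨a, b, c, ⟨‹_›, ‹_›⟩, ⟨‹_›, ‹_›⟩, ⟨‹_›, ‹_›⟩, e1, e2, e3⟩⟩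
  simp only [ND, not_forall, not_exists, not_and, not_not] at nd
  obtain ⟨w, hw⟩ := nd
  obtain ⟨u, v, e, hu, hv⟩ : ∃ u v, G.Adj u v ∧ u ≠ w ∧ v ≠ w := by
    rcases h with ⟨a, b, c, d, -, -, -, -, e1, e2, h⟩ | ⟨a, b, c, -, -, -, e1, e2, e3⟩
    · by_cases x : a ≠ w ∧ b ≠ w
      exacts [⟨a, b, e1, x⟩, ⟨c, d, e2, by grind⟩]
    · by_cases x : a ≠ w ∧ b ≠ w
      · exact ⟨a, b, e1, x⟩
      by_cases y : b ≠ w ∧ c ≠ w
      exacts [⟨b, c, e2, y⟩, ⟨a, c, e3, by grind⟩]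
  by_cases c2 : NS G (· ∈ {x | x ≠ w})
  · exact lift (fun _ => False) (fun _ h => h.elim) (md_dom hu hw) (red _ w (fun hx => hx rfl) c2)
  obtain ⟨c, l, h1, h2, h3, ce⟩ := center c2 hu hv e
  simp only [Set.mem_ofPred_eq] at h1 h2 ce
  clear c1 c2 red ih h
  exact tri (fun y => y = w) (fun y => y ≠ w ∧ ¬ G.Adj c y) (fun y => y ≠ w ∧ y ≠ c)
    (ind_md (by grind) fun v h => ⟨w, rfl, (hw v h).symm⟩)
    (ind_md (fun x y _ _ e => by have := ce x y e; grind) fun v h =>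
      ⟨c, ⟨h1, i c⟩, by have := hw c h1; grind⟩)
    (ind_md (fun x y _ _ e => by have := ce x y e; grind) fun v h =>
      ⟨l, ⟨h2, h3.ne'⟩, by have := hw l h2; grind⟩)
    ⟨w, .inr ⟨rfl, by grind, by grind, fun x hx => .inr (hw x hx.1)⟩⟩
    ⟨c, .inr ⟨⟨h1, i c⟩, by grind, by grind, by grind⟩⟩
    ⟨w, .inl ⟨rfl, by grind, by grind, fun x hx => .inr (hw x hx.1)⟩⟩

/-- if `R G` has no short cycle then all edges of `G` pass through one vertex -/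
theorem star_or_short [Finite V] [Nonempty V] (G : SimpleGraph V) :
    (∃ c, ∀ a b, G.Adj a b → a = c ∨ b = c) ∨ Short (R G) := by
  by_cases h : NS G fun _ => True
  · exact .inr (short_of_ns _ V G rfl h)
  by_cases e : ∃ u v, G.Adj u v
  · obtain ⟨u, v, e⟩ := e
    obtain ⟨c, -, -, -, -, h⟩ := center h trivial trivial e
    exact .inl ⟨c, fun a b e => h a b e trivial trivial⟩
  · exact .inl ⟨Classical.arbitrary V, fun a b h => (e ⟨a, b, h⟩).elim⟩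

lemma star_in {c : V} (h : ∀ a b, G.Adj a b → a = c ∨ b = c) {M : Set V} (hM : MD G M)
    (hc : c ∈ M) (x : V) : x ∈ M ↔ ¬ G.Adj c x := by
  refine ⟨fun hx e => hM.2 x hx fun v => ?_, fun e => ?_⟩
  · by_cases h1 : v = x
    · exact .inr ⟨c, ⟨hc, e.ne⟩, h1 ▸ e.symm⟩
    rcases hM.1 v with h2 | ⟨u, h2, e'⟩
    · exact .inl ⟨h2, h1⟩
    · rcases h v u e' with h3 | h3
      exacts [.inl ⟨h3 ▸ hc, h1⟩, .inr ⟨c, ⟨hc, e.ne⟩, h3 ▸ e'⟩]
  · rcases hM.1 x with h2 | ⟨u, -, e'⟩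
    · exact h2
    · rcases h x u e' with h3 | h3
      exacts [h3 ▸ hc, (e (h3 ▸ e'.symm)).elim]

lemma star_out {c : V} (h : ∀ a b, G.Adj a b → a = c ∨ b = c) {M : Set V} (hM : MD G M)
    (hc : c ∉ M) (x : V) : x ∈ M ↔ x ≠ c := by
  refine ⟨fun hx e => hc (e ▸ hx), fun e => ?_⟩
  rcases hM.1 x with h2 | ⟨u, h2, e'⟩
  · exact h2
  · rcases h x u e' with h3 | h3
    exacts [(e h3).elim, (hc (h3 ▸ h2)).elim]

lemma star_eq {c : V} (h : ∀ a b, G.Adj a b → a = c ∨ b = c) (M N : {M : Set V // MD G M})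
    (e : c ∈ M.1 ↔ c ∈ N.1) : M = N := by
  refine Subtype.ext (Set.ext fun x => ?_)
  by_cases hc : c ∈ M.1
  · rw [star_in h M.2 hc, star_in h N.2 (e.1 hc)]
  · rw [star_out h M.2 hc, star_out h N.2 fun h => hc (e.2 h)]

lemma star_acyclic {c : V} (h : ∀ a b, G.Adj a b → a = c ∨ b = c) : (R G).IsAcyclic := by
  intro v p hp
  have h1 := (p.adj_snd hp.not_nil).ne
  have h2 := (p.adj_penultimate hp.not_nil).ne
  have h3 := hp.snd_ne_penultimate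
  have := star_eq h v p.snd
  have := star_eq h p.penultimate v
  have := star_eq h p.snd p.penultimate
  tauto

lemma star_tree {c : V} (h : ∀ a b, G.Adj a b → a = c ∨ b = c) : (R G).IsTree := by
  have key : ∀ M N : {M : Set V // MD G M}, c ∈ M.1 → c ∉ N.1 → (R G).Adj N M := fun M N a b =>
    adj_of_mv N.2 M.2 ⟨a, b, fun x _ => by
      by_cases e : x = c
      exacts [.inr e, .inl ((star_out h N.2 b x).2 e)], fun x _ => by
      by_cases e : G.Adj c x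
      exacts [.inr e, .inl ((star_in h M.2 a x).2 e)]⟩
  have : Nonempty {M : Set V // MD G M} := ⟨⟨fun x => ¬ G.Adj c x,
    ind_md (fun x y a b e => (h x y e).elim (fun h => b (h ▸ e)) fun h => a (h ▸ e.symm))
      fun v hv => ⟨c, G.irrefl, (not_not.1 hv).symm⟩⟩⟩
  refine ⟨⟨fun M N => ?_⟩, star_acyclic h⟩
  by_cases a : c ∈ M.1 <;> by_cases b : c ∈ N.1
  exacts [star_eq h M N (iff_of_true a b) ▸ .rfl, (key M N a b).symm.reachable,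
    (key N M b a).reachable, star_eq h M N (iff_of_false a b) ▸ .rfl]

end Pool.Agent.Lib.Recon
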