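import Pool.Agent.Lib.helper13.PR
import Pool.Agent.Lib.helper21.Dfa

set_option autoImplicit false

/-! Enumerable predicates; polynomials as lists of monomials with a decidable identity test. -/

namespace Pool.Agent.Lib.helper4.SigLP

open Encodable Pool.Agent.Lib.PR

attribute [local irreducible] Primrec

section
variable {α β : Type} [Primcodable α] [Primcodable β]

def Sig (R : α → Prop) : Prop := ∃ q : α → ℕ → Prop, (Primrec fun z : α × ℕ => cd (q z.1 z.2)) ∧ ∀ a, R a ↔ ∃ t, q a t

theorem Sig.of_eq {R R' : α → Prop} (h : Sig R) (e : ∀ a, R a ↔ R' a) : Sig R' :=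
  funext (fun a => propext (e a)) ▸ h

theorem Sig.prim {R : α → Prop} (h : Primrec fun a => cd (R a)) : Sig R :=
  ⟨fun a _ => R a, h.comp .fst, fun _ => by simp⟩

theorem Sig.comp {R : β → Prop} (h : Sig R) {f : α → β} (hf : Primrec f) : Sig fun a => R (f a) :=
  let ⟨q, hq, e⟩ := h
  ⟨fun a t => q (f a) t, hq.comp (g := fun z : α × ℕ => (f z.1, z.2)) (by fun_prop), fun a => e (f a)⟩

theorem Sig.and {R R' : α → Prop} (h : Sig R) (h' : Sig R') : Sig fun a => R a ∧ R' a := by
  obtain ⟨q, hq, e⟩ := h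
  obtain ⟨q', hq', e'⟩ := h'
  refine ⟨fun a t => q a t.unpair.1 ∧ q' a t.unpair.2,
    p_dand (hq.comp (g := fun z : α × ℕ => (z.1, z.2.unpair.1)) (by fun_prop))
      (hq'.comp (g := fun z : α × ℕ => (z.1, z.2.unpair.2)) (by fun_prop)),
    fun a => ⟨fun ⟨h, h'⟩ => ?_, fun ⟨t, h, h'⟩ => ⟨(e a).2 ⟨_, h⟩, (e' a).2 ⟨_, h'⟩⟩⟩⟩
  obtain ⟨t, h⟩ := (e a).1 h
  obtain ⟨t', h'⟩ := (e' a).1 h'
  exact ⟨t.pair t', by simpa using ⟨h, h'⟩⟩

theorem Sig.or {R R' : α → Prop} (h : Sig R) (h' : Sig R') : Sig fun a => R a ∨ R' a := by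
  obtain ⟨q, hq, e⟩ := h
  obtain ⟨q', hq', e'⟩ := h'
  exact ⟨fun a t => q a t ∨ q' a t, p_dor hq hq', fun a => by simp only [e, e', exists_or]⟩

theorem Sig.imp {R R' : α → Prop} (h : Primrec fun a => cd (R a)) (h' : Sig R') : Sig fun a => R a → R' a :=
  ((Sig.prim (p_dnot h)).or h').of_eq fun _ => imp_iff_not_or.symm

theorem Sig.ex {R : α → β → Prop} (h : Sig fun z : α × β => R z.1 z.2) : Sig fun a => ∃ b, R a b := by
  obtain ⟨q, hq, e⟩ := h
  refine ⟨fun a t => ∃ b ∈ (decode (α := β) t.unpair.1).toList, q (a, b) t.unpair.2,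
    p_exists (hq.comp (g := fun z : (α × ℕ) × β => ((z.1.1, z.2), z.1.2.unpair.2)) (by fun_prop))
      (Primrec.optionToList.comp (by fun_prop)),
    fun a => ⟨fun ⟨b, h⟩ => ?_, fun ⟨t, b, _, h⟩ => ⟨b, (e (a, b)).2 ⟨_, h⟩⟩⟩⟩
  obtain ⟨t, h⟩ := (e (a, b)).1 h
  exact ⟨(encode b).pair t, b, by simp, by simpa using h⟩

theorem Sig.ball {R : α → β → Prop} (h : Sig fun z : α × β => R z.1 z.2) {l : α → List β}
    (hl : Primrec l) : Sig fun a => ∀ b ∈ l a, R a b := by
  obtain ⟨q, hq, e⟩ := h
  refine ⟨fun a t => ∀ b ∈ l a, ∃ u < t, q (a, b) u, p_forall (p_exists_lt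
      (hq.comp (g := fun z : ((α × ℕ) × β) × ℕ => ((z.1.1.1, z.1.2), z.2)) (by fun_prop)) (by fun_prop)) (by fun_prop),
    fun a => ⟨fun h => ?_, fun ⟨t, h⟩ b hb => let ⟨u, _, hu⟩ := h b hb; (e (a, b)).2 ⟨u, hu⟩⟩⟩
  choose! u hu using fun b hb => (e (a, b)).1 (h b hb)
  exact ⟨((l a).map u).sum + 1, fun b hb => ⟨u b, Nat.lt_succ_of_le
    (List.single_le_sum (by simp) _ (List.mem_map_of_mem hb)), hu b hb⟩⟩

theorem Sig.blt {R : α → ℕ → Prop} (h : Sig fun z : α × ℕ => R z.1 z.2) {l : α → ℕ}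
    (hl : Primrec l) : Sig fun a => ∀ b < l a, R a b :=
  (h.ball (p_range hl)).of_eq (by simp)

theorem Sig.rtg {R : α → β → β → Prop} (h : Sig fun z : α × β × β => R z.1 z.2.1 z.2.2) :
    Sig fun z : α × β × β => Relation.ReflTransGen (R z.1) z.2.1 z.2.2 := by
  refine (Sig.ex (R := fun z (L : List β) => (∀ i < L.length, R z.1 ((z.2.1 :: L).getD i z.2.1) (L.getD i z.2.1)) ∧
    (z.2.1 :: L).getD L.length z.2.1 = z.2.2) (.and (.blt (h.comp (f := fun y : ((α × β × β) × List β) × ℕ =>
      (y.1.1.1, (y.1.1.2.1 :: y.1.2).getD y.2 y.1.1.2.1, y.1.2.getD y.2 y.1.1.2.1)) (by fun_prop)) (by fun_prop))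
      (.prim (by fun_prop)))).of_eq fun ⟨a, x, y⟩ => ⟨fun ⟨L, h1, h2⟩ => ?_, fun k => ?_⟩
  · refine List.relationReflTransGen_of_exists_isChain_cons L (List.isChain_iff_getElem.2 fun i l => ?_)
      (by simpa [List.getLast_eq_getElem] using h2)
    have l' : i < L.length := by simpa using l
    simpa [l', l'.le, Nat.lt_succ_iff] using h1 i l'
  · obtain ⟨L, h1, h2⟩ := List.exists_isChain_cons_of_relationReflTransGen k
    refine ⟨L, fun i l => ?_, by simpa [List.getLast_eq_getElem] using h2⟩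
    have := List.isChain_iff_getElem.1 h1 i (by simpa)
    simpa [l, l.le, Nat.lt_succ_iff] using this

theorem Sig.dec {R : α → Prop} (h : Sig R) (h' : Sig fun a => ¬R a) : ComputablePred R :=
  let ⟨_, a, b⟩ := h; let ⟨_, c, d⟩ := h'; helper21.Dfa.dec_of_two (pred a) (pred c) b d

end

theorem digits_ex (n K : ℕ) (k : ℕ → ℕ) (h : ∀ m < K, k m < n) : ∃ c < n ^ K, ∀ m < K, c / n ^ m % n = k m := by
  induction K generalizing k with
  | zero => exact ⟨0, by simp, by simp⟩
  | succ K ih =>
    obtain ⟨c, a, b⟩ := ih (fun m => k (m + 1)) fun m l => h _ (by omega)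
    have := h 0 (by omega)
    refine ⟨k 0 + n * c, by rw [pow_succ]; nlinarith, ?_⟩
    rintro (_ | m) l
    · simp [Nat.mod_eq_of_lt this]
    · rw [pow_succ', ← Nat.div_div_eq_div_mul, Nat.add_mul_div_left _ _ (by omega), Nat.div_eq_of_lt this, zero_add,
        b m (by omega)]

abbrev LP := List (List ℕ)

def ev {R : Type} [CommSemiring R] (x : ℕ → R) (p : LP) : R := (p.map fun m => (m.map x).prod).sum
def mul (p q : LP) : LP := p.flatMap fun m => q.map fun m' => m ++ m'
def sub (s : ℕ → LP) (p : LP) : LP := p.flatMap fun m => m.foldr (fun i a => mul (s i) a) [[]]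

section
variable {R : Type} [CommSemiring R] {x : ℕ → R}
@[simp] theorem ev_nil : ev x [] = 0 := rfl
@[simp] theorem ev_cons (m p) : ev x (m :: p) = (m.map x).prod + ev x p := rfl
@[simp] theorem ev_app (p q) : ev x (p ++ q) = ev x p + ev x q := by simp [ev]
@[simp] theorem ev_rep (n) : ev x (List.replicate n []) = n := by simp [ev]
@[simp] theorem ev_mul (p q) : ev x (mul p q) = ev x p * ev x q := by
  induction p with
  | nil => simp [mul]
  | cons m p ih =>
    rw [mul, List.flatMap_cons, ev_app, ← mul, ih, ev_cons, add_mul]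
    simp [ev, Function.comp_def, List.sum_map_mul_left]
@[simp] theorem ev_sub (s p) : ev x (sub s p) = ev (fun i => ev x (s i)) p := by
  induction p with
  | nil => rfl
  | cons m p ih =>
    rw [sub, List.flatMap_cons, ev_app, ← sub, ih, ev_cons]
    congr 1
    induction m <;> simp [*]
theorem ev_map {S F : Type} [CommSemiring S] [FunLike F R S] [RingHomClass F R S] (f : F) (p) :
    f (ev x p) = ev (fun i => f (x i)) p := by
  simp [ev, map_list_sum, map_list_prod, Function.comp_def]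
theorem ev_congr {y : ℕ → R} {p : LP} (h : ∀ i ∈ p.flatten, x i = y i) : ev x p = ev y p :=
  congrArg List.sum (List.map_congr_left fun m a => congrArg List.prod (List.map_congr_left fun i b =>
    h i (List.mem_flatten.2 ⟨m, a, b⟩)))
end

def Idn (p q : LP) : Prop := ∀ x : ℕ → ℚ, ev x p = ev x q

open MvPolynomial in
theorem idn_iff (p q : LP) : Idn p q ↔ ∀ n < ((p ++ q).flatten.length + 1) ^ ((p ++ q).flatten.sum + 1),
    ev (fun i => n / ((p ++ q).flatten.length + 1) ^ i % ((p ++ q).flatten.length + 1)) p =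
    ev (fun i => n / ((p ++ q).flatten.length + 1) ^ i % ((p ++ q).flatten.length + 1)) q := by
  refine ⟨fun h n _ => Nat.cast_injective (R := ℚ) (by
    simpa using (ev_map (Nat.castRingHom ℚ) p).trans ((h _).trans (ev_map (Nat.castRingHom ℚ) q).symm)), fun h x => ?_⟩
  generalize hD : (p ++ q).flatten.length = D at h
  generalize hK : (p ++ q).flatten.sum + 1 = K at h
  have b : ∀ i ∈ (p ++ q).flatten, i < K := fun i a => by have := List.single_le_sum (by simp) _ a; omega
  let Y : ℕ → MvPolynomial (Fin K) ℚ := fun i => if l : i < K then X ⟨i, l⟩ else 0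
  have d : ∀ p : LP, (ev Y p).totalDegree ≤ p.flatten.length := fun p => by
    induction p with
    | nil => simp
    | cons m p ih =>
      refine (totalDegree_add ..).trans (max_le ((totalDegree_list_prod _).trans ?_) (ih.trans (by simp)))
      refine ((List.sum_le_card_nsmul _ 1 ?_).trans (by simp))
      simp only [List.mem_map, forall_exists_index, and_imp, forall_apply_eq_imp_iff₂, Y]
      intro i _
      split_ifs <;> simp
  have e : ∀ (y : Fin K → ℚ) (z : ℕ → ℚ), (∀ i, y i = z i) → eval y (ev Y p - ev Y q) = ev z p - ev z q := fun y z a => by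
    rw [map_sub, ev_map, ev_map]
    congr 1 <;> exact ev_congr fun i l => by simp [Y, b i (by simp_all), a]
  rw [← sub_eq_zero, ← e (fun i => x i) x fun _ => rfl, eq_zero_of_eval_zero_at_prod_finset (ev Y p - ev Y q)
    (fun _ => (Finset.range (D + 1)).image Nat.cast) (fun i => ?_) fun y a => ?_, map_zero]
  · rw [Finset.card_image_of_injective _ Nat.cast_injective, Finset.card_range]
    have := d p
    have := d q
    have := (degreeOf_le_totalDegree _ i).trans (totalDegree_sub (ev Y p) (ev Y q))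
    simp at *
    omega
  · simp only [Finset.mem_image, Finset.mem_range] at a
    choose k k1 k2 using a
    obtain ⟨n, n1, n2⟩ := digits_ex (D + 1) K (fun i => if l : i < K then k ⟨i, l⟩ else 0) fun m l => by simp [l, k1]
    rw [e y (fun i => (n / (D + 1) ^ i % (D + 1) : ℕ)) fun i => by simp [n2, k2], sub_eq_zero]
    simpa using (ev_map (Nat.castRingHom ℚ) p).symm.trans ((congrArg _ (h n n1)).trans (ev_map (Nat.castRingHom ℚ) q))

section
variable {α : Type} [Primcodable α] {p q : α → LP}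
@[fun_prop] theorem p_lprod {l : α → List ℕ} (hl : Primrec l) : Primrec fun a => (l a).prod :=
  p_foldr (g := fun _ => 1) (h := fun _ x s => x * s) (by fun_prop) (.const 1) hl
@[fun_prop] theorem p_ev {x : α → ℕ → ℕ} (hx : Primrec fun z : α × ℕ => x z.1 z.2) (hp : Primrec p) :
    Primrec fun a => ev (x a) (p a) := by unfold ev; fun_prop
@[fun_prop] theorem p_mul' (hp : Primrec p) (hq : Primrec q) : Primrec fun a => mul (p a) (q a) := by
  unfold mul; fun_prop
@[fun_prop] theorem p_sub' {x : α → ℕ → LP} (hx : Primrec fun z : α × ℕ => x z.1 z.2) (hp : Primrec p) :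
    Primrec fun a => sub (x a) (p a) := by unfold sub; fun_prop
@[fun_prop] theorem p_idn (hp : Primrec p) (hq : Primrec q) : Primrec fun a => cd (Idn (p a) (q a)) := by
  simp only [idn_iff]
  fun_prop
@[fun_prop] theorem p_inl {β γ : Type} [Primcodable β] [Primcodable γ] {f : α → β} (h : Primrec f) :
    Primrec fun a => (Sum.inl (f a) : β ⊕ γ) := Primrec.sumInl.comp h
@[fun_prop] theorem p_inr {β γ : Type} [Primcodable β] [Primcodable γ] {f : α → β} (h : Primrec f) :
    Primrec fun a => (Sum.inr (f a) : γ ⊕ β) := Primrec.sumInr.comp h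
end

end Pool.Agent.Lib.helper4.SigLP
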